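import Pool.Agent.W823.CT.Stm
import Pool.Agent.H320R2.LD.MGF

/-!
# Gaussian concentration of the maximum
-/

namespace Pool.Agent.W782.CTCONC

open MeasureTheory ProbabilityTheory Pool.Agent.W823.CT
open scoped ENNReal BigOperators

theorem dotp_le {ι : Type} [Fintype ι] (a g : ι → ℝ) : |dotp a g| ≤ nrm a * nrm g := by
  unfold dotp nrm
  rw [← Real.sqrt_mul (Finset.sum_nonneg fun i _ => sq_nonneg _)]
  apply Real.abs_le_sqrt
  exact Finset.sum_mul_sq_le_sq_mul_sq _ _ _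

theorem dotp_sub {ι : Type} [Fintype ι] (a g h : ι → ℝ) :
    dotp a g - dotp a h = dotp a (g - h) := by
  unfold dotp
  rw [← Finset.sum_sub_distrib]
  refine Finset.sum_congr rfl fun i _ => ?_
  simp only [Pi.sub_apply]; ring

theorem mx_le {ι τ : Type} [Fintype ι] (T : Finset τ) (a : τ → ι → ℝ) (σ : ℝ)
    (hσ0 : 0 ≤ σ) (hσ : ∀ t ∈ T, nrm (a t) ≤ σ) (x y : ι → ℝ) :
    mx T a x - mx T a y ≤ σ * nrm (x - y) := by
  have hn : 0 ≤ nrm (x - y) := Real.sqrt_nonneg _
  unfold mx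
  split_ifs with h
  · rw [sub_le_iff_le_add]
    apply Finset.sup'_le
    intro t ht
    have h1 : dotp (a t) y ≤ T.sup' h (fun t => dotp (a t) y) :=
      Finset.le_sup' (fun t => dotp (a t) y) ht
    have h2 := dotp_sub (a t) x y
    have h3 := (le_abs_self _).trans (dotp_le (a t) (x - y))
    have h4 : nrm (a t) * nrm (x - y) ≤ σ * nrm (x - y) :=
      mul_le_mul_of_nonneg_right (hσ t ht) hn
    linarith
  · simp only [sub_self]; positivity

theorem mx_lip {ι τ : Type} [Fintype ι] (T : Finset τ) (a : τ → ι → ℝ) (σ L : ℝ)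
    (hσ0 : 0 ≤ σ) (hσ : ∀ t ∈ T, nrm (a t) ≤ σ) (hL : σ ≤ L) :
    Pool.Agent.H320R2.LD.Lip L (mx T a) := by
  intro x y
  have hn : 0 ≤ nrm (x - y) := Real.sqrt_nonneg _
  have h1 := mx_le T a σ hσ0 hσ x y
  have h2 := mx_le T a σ hσ0 hσ y x
  have h3 : nrm (y - x) = nrm (x - y) := by
    unfold nrm
    congr 1
    refine Finset.sum_congr rfl fun i _ => ?_
    simp only [Pi.sub_apply]; ring
  rw [h3] at h2
  have h4 : σ * nrm (x - y) ≤ L * nrm (x - y) := mul_le_mul_of_nonneg_right hL hn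
  show |mx T a x - mx T a y| ≤ L * nrm (x - y)
  rw [abs_le]
  constructor <;> linarith

theorem key {ι τ : Type} [Fintype ι] (T : Finset τ) (a : τ → ι → ℝ) (σ L : ℝ)
    (hσ0 : 0 ≤ σ) (hσ : ∀ t ∈ T, nrm (a t) ≤ σ) (hL : σ ≤ L) (hL0 : 0 < L) (l : ℝ) :
    ∫⁻ g, ENNReal.ofReal (Real.exp (l * (mx T a g - EM T a))) ∂(gam ι) ≤
      ENNReal.ofReal (Real.exp (1 * l ^ 2 * L ^ 2)) := by
  obtain ⟨hi, he, hm⟩ := Pool.Agent.H320R2.LD.prove_MGF ι (mx T a) L hL0
    (mx_lip T a σ L hσ0 hσ hL)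
  have h1 : Integrable (fun g => Real.exp (l * (mx T a g - EM T a))) (gam ι) := by
    have h2 : (fun g => Real.exp (l * (mx T a g - EM T a))) =
        fun g => Real.exp (l * mx T a g) * Real.exp (-(l * EM T a)) := by
      funext g
      rw [← Real.exp_add]
      congr 1; ring
    rw [h2]
    exact (he l).mul_const _
  rw [← ofReal_integral_eq_lintegral_ofReal h1 (Filter.Eventually.of_forall fun g =>
    (Real.exp_pos _).le)]
  apply ENNReal.ofReal_le_ofReal
  rw [one_mul]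
  exact hm l

theorem main' : S_CONC := by
  refine ⟨1, one_pos, fun ι τ _ T a σ hσ0 hσ l => ?_⟩
  rcases hσ0.eq_or_lt with h0 | h0
  · have ht : Filter.Tendsto (fun L : ℝ => ENNReal.ofReal (Real.exp (1 * l ^ 2 * L ^ 2)))
        (nhdsWithin σ (Set.Ioi σ)) (nhds (ENNReal.ofReal (Real.exp (1 * l ^ 2 * σ ^ 2)))) := by
      have h1 : Continuous (fun L : ℝ => ENNReal.ofReal (Real.exp (1 * l ^ 2 * L ^ 2))) :=
        ENNReal.continuous_ofReal.comp (by fun_prop)
      exact (h1.tendsto σ).mono_left nhdsWithin_le_nhds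
    refine ge_of_tendsto ht ?_
    filter_upwards [self_mem_nhdsWithin] with L hL
    have hL' : σ < L := hL
    exact key T a σ L hσ0 hσ hL'.le (by linarith) l
  · exact key T a σ σ hσ0 hσ le_rfl h0 l

theorem main (_ : S_EMB) : S_CONC := main'

end Pool.Agent.W782.CTCONC
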