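import Pool.Agent.W782.CTCONC
import Pool.Agent.Helper41.CT.GaussA

/-!
# Basic facts on the expected maximum of a Gaussian vector
-/

namespace Pool.Agent.W782.CTEMB

open MeasureTheory ProbabilityTheory Pool.Agent.W823.CT Pool.Agent.W782.CTCONC
open scoped ENNReal BigOperators

theorem integral_abs_gaussianReal :
    ∫ x : ℝ, |x| ∂(gaussianReal 0 1) = Real.sqrt (2 / Real.pi) := by
  rw [integral_gaussianReal_eq_integral_smul (by norm_num)]
  have h1 : ∀ x : ℝ, gaussianPDFReal 0 1 x • |x| =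
      (Real.sqrt (2 * Real.pi))⁻¹ * (|x| * Real.exp (-(1 / 2) * |x| ^ 2)) := by
    intro x
    simp only [gaussianPDFReal, smul_eq_mul, NNReal.coe_one, mul_one, sub_zero, sq_abs]
    rw [show -x ^ 2 / 2 = -(1 / 2) * x ^ 2 by ring]
    ring
  simp only [h1]
  rw [integral_const_mul, integral_comp_abs (f := fun x : ℝ => x * Real.exp (-(1 / 2) * x ^ 2))]
  have h := _root_.integral_rpow_mul_exp_neg_mul_rpow (p := 2) (q := 1) (b := 1 / 2)
      (by norm_num) (by norm_num) (by norm_num)
  have e3 : ∀ r ∈ Set.Ioi (0 : ℝ), r * Real.exp (-(1 / 2) * r ^ 2) =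
      (r ^ (1 : ℝ) * Real.exp (-(1 / 2) * r ^ (2 : ℝ))) := by
    intro r _
    rw [Real.rpow_one, Real.rpow_two]
  rw [setIntegral_congr_fun measurableSet_Ioi e3, h]
  norm_num
  have hpi := Real.pi_pos
  have hs : Real.sqrt Real.pi ≠ 0 := (Real.sqrt_pos.mpr hpi).ne'
  have h2 : Real.sqrt 2 * Real.sqrt 2 = 2 := Real.mul_self_sqrt (by norm_num)
  have h3 : Real.sqrt 2 ≠ 0 := by positivity
  field_simp
  rw [pow_two, h2]

theorem dotp_meas {ι : Type} [Fintype ι] (b : ι → ℝ) : Measurable (dotp b) := by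
  unfold dotp; fun_prop

theorem law {ι : Type} [Fintype ι] (b : ι → ℝ) :
    (gam ι).map (dotp b) = gaussianReal 0 (Real.toNNReal (∑ i, b i ^ 2)) :=
  Pool.Agent.Helper41.CT.pi_gauss_lin b

theorem int_dotp {ι : Type} [Fintype ι] (b : ι → ℝ) : ∫ g, dotp b g ∂(gam ι) = 0 := by
  have h1 : ∫ g, dotp b g ∂(gam ι) = ∫ x, x ∂((gam ι).map (dotp b)) := by
    rw [integral_map (dotp_meas b).aemeasurable (by fun_prop)]
  rw [h1, law, integral_id_gaussianReal]

theorem int_abs {ι : Type} [Fintype ι] (b : ι → ℝ) :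
    ∫ g, |dotp b g| ∂(gam ι) = nrm b * Real.sqrt (2 / Real.pi) := by
  have h1 : ∫ g, |dotp b g| ∂(gam ι) = ∫ x, |x| ∂((gam ι).map (dotp b)) := by
    rw [integral_map (dotp_meas b).aemeasurable (by fun_prop)]
  have h2 : gaussianReal 0 (Real.toNNReal (∑ i, b i ^ 2)) =
      (gaussianReal 0 1).map (fun x => nrm b * x) := by
    rw [gaussianReal_map_const_mul]
    congr 1
    · simp
    · rw [mul_one]
      ext
      rw [Real.coe_toNNReal _ (Finset.sum_nonneg fun i _ => sq_nonneg _)]
      show _ = nrm b ^ 2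
      unfold nrm
      rw [Real.sq_sqrt (Finset.sum_nonneg fun i _ => sq_nonneg _)]
  rw [h1, law, h2, integral_map (by fun_prop) (by fun_prop)]
  have h3 : ∀ x : ℝ, |nrm b * x| = nrm b * |x| := fun x => by
    have h0 : 0 ≤ nrm b := Real.sqrt_nonneg _
    rw [abs_mul, abs_of_nonneg h0]
  simp only [h3]
  rw [integral_const_mul, integral_abs_gaussianReal]

theorem nrm_nonneg {ι : Type} [Fintype ι] (b : ι → ℝ) : 0 ≤ nrm b := Real.sqrt_nonneg _

theorem mx_int {ι τ : Type} [Fintype ι] (T : Finset τ) (a : τ → ι → ℝ) :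
    Integrable (mx T a) (gam ι) := by
  have hS : 0 ≤ ∑ t ∈ T, nrm (a t) := Finset.sum_nonneg fun t _ => nrm_nonneg _
  exact (Pool.Agent.H320R2.LD.prove_MGF ι (mx T a) (∑ t ∈ T, nrm (a t) + 1) (by linarith)
    (mx_lip T a (∑ t ∈ T, nrm (a t)) _ hS
      (fun t ht => Finset.single_le_sum (f := fun t => nrm (a t)) (fun t _ => nrm_nonneg _) ht)
      (by linarith))).1

theorem mx_single {ι τ : Type} [Fintype ι] (t : τ) (a : τ → ι → ℝ) :
    mx {t} a = dotp (a t) := by
  funext g
  unfold mx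
  simp

theorem dotp_int {ι : Type} [Fintype ι] (b : ι → ℝ) : Integrable (dotp b) (gam ι) := by
  have := mx_int {()} (fun _ : Unit => b)
  rwa [mx_single] at this

theorem le_mx {ι τ : Type} [Fintype ι] {T : Finset τ} (a : τ → ι → ℝ) {t : τ} (ht : t ∈ T)
    (g : ι → ℝ) : dotp (a t) g ≤ mx T a g := by
  unfold mx
  rw [dif_pos ⟨t, ht⟩]
  exact Finset.le_sup' (fun t => dotp (a t) g) ht

theorem mx_le_of {ι τ : Type} [Fintype ι] {T : Finset τ} (hT : T.Nonempty) (a : τ → ι → ℝ)
    (g : ι → ℝ) {c : ℝ} (h : ∀ t ∈ T, dotp (a t) g ≤ c) : mx T a g ≤ c := by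
  unfold mx
  rw [dif_pos hT]
  exact Finset.sup'_le _ _ h

theorem sub_dotp {ι : Type} [Fintype ι] (a b g : ι → ℝ) :
    dotp (a - b) g = dotp a g - dotp b g := by
  unfold dotp
  rw [← Finset.sum_sub_distrib]
  refine Finset.sum_congr rfl fun i _ => ?_
  simp only [Pi.sub_apply]; ring

theorem mx_shift {ι τ : Type} [Fintype ι] {T : Finset τ} (hT : T.Nonempty) (a : τ → ι → ℝ)
    (b g : ι → ℝ) : mx T (fun t => a t - b) g = mx T a g - dotp b g := by
  apply le_antisymm
  · apply mx_le_of hT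
    intro t ht
    rw [sub_dotp]
    have := le_mx a ht g
    linarith
  · rw [sub_le_iff_le_add]
    apply mx_le_of hT
    intro t ht
    have h1 : dotp (a t - b) g ≤ mx T (fun t => a t - b) g := le_mx (fun t => a t - b) ht g
    rw [sub_dotp] at h1
    linarith

theorem mx_empty {ι τ : Type} [Fintype ι] (a : τ → ι → ℝ) : mx ∅ a = fun _ => 0 := by
  funext g
  unfold mx
  simp

theorem main : S_EMB := by
  intro ι τ _ _ T a
  have hnn : 0 ≤ EM T a := by
    rcases T.eq_empty_or_nonempty with h | ⟨t, ht⟩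
    · subst h
      unfold EM
      rw [mx_empty]; simp
    · rw [← int_dotp (a t)]
      exact integral_mono (dotp_int (a t)) (mx_int T a) (fun g => le_mx a ht g)
  refine ⟨mx_int T a, hnn, fun t => ?_, fun T' hT hTT' => ?_, fun b => ?_, fun s hs t ht => ?_⟩
  · unfold EM
    rw [mx_single, int_dotp]
  · exact integral_mono (mx_int T a) (mx_int T' a)
      (fun g => mx_le_of hT a g (fun t ht => le_mx a (hTT' ht) g))
  · rcases T.eq_empty_or_nonempty with h | h
    · subst h
      unfold EM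
      rw [mx_empty, mx_empty]
    · unfold EM
      have h1 : mx T (fun t => a t - b) = fun g => mx T a g - dotp b g :=
        funext fun g => mx_shift h a b g
      rw [h1, integral_sub (mx_int T a) (dotp_int b), int_dotp, sub_zero]
  · have h1 : ∫ g, (dotp (a s) g + dotp (a t) g + |dotp (a s - a t) g|) / 2 ∂(gam ι) ≤ EM T a := by
      refine integral_mono ?_ (mx_int T a) (fun g => ?_)
      · exact (((dotp_int (a s)).add (dotp_int (a t))).add (dotp_int (a s - a t)).abs).div_const 2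
      · have e1 := le_mx a hs g
        have e2 := le_mx a ht g
        simp only
        rw [sub_dotp]
        rcases abs_cases (dotp (a s) g - dotp (a t) g) with ⟨h, _⟩ | ⟨h, _⟩ <;> rw [h] <;> linarith
    have h2 : ∫ g, (dotp (a s) g + dotp (a t) g + |dotp (a s - a t) g|) / 2 ∂(gam ι) =
        nrm (a s - a t) * Real.sqrt (2 / Real.pi) / 2 := by
      rw [integral_div]
      have e1 := integral_add ((dotp_int (a s)).add (dotp_int (a t))) (dotp_int (a s - a t)).abs
      have e2 := integral_add (dotp_int (a s)) (dotp_int (a t))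
      simp only [Pi.add_apply] at e1
      have e3 : ∫ g, (dotp (a s) g + dotp (a t) g + |dotp (a s - a t) g|) ∂(gam ι) =
          (∫ g, (dotp (a s) g + dotp (a t) g) ∂(gam ι)) + ∫ g, |dotp (a s - a t) g| ∂(gam ι) := e1
      rw [e3, e2, int_dotp, int_dotp, int_abs]
      ring
    rw [h2] at h1
    have h3 : (1 : ℝ) / 3 ≤ Real.sqrt (2 / Real.pi) := by
      apply Real.le_sqrt_of_sq_le
      rw [le_div_iff₀ Real.pi_pos]
      have := Real.pi_le_four
      norm_num
      linarith
    have h4 := mul_le_mul_of_nonneg_left h3 (nrm_nonneg (a s - a t))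
    linarith

end Pool.Agent.W782.CTEMB
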