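import Pool.Agent.W823.CT.Stm
import Pool.Agent.Helper954.Hopf.AF

/-!
# Gaussian change of variables
-/

namespace Pool.Agent.W782.CTGCV

open MeasureTheory ProbabilityTheory Pool.Agent.W823.CT Set
open scoped ENNReal BigOperators

theorem gam_dens (V : Type) [Fintype V] : gam V = (volume : Measure (V → ℝ)).withDensity
    (fun x => ENNReal.ofReal ((√(2 * Real.pi))⁻¹ ^ Fintype.card V *
      Real.exp (-(∑ i, x i ^ 2) / 2))) := by
  have h0 : gaussianReal 0 1 = (volume : Measure ℝ).withDensity (gaussianPDF 0 1) :=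
    gaussianReal_of_var_ne_zero 0 one_ne_zero
  have : SigmaFinite ((volume : Measure ℝ).withDensity (gaussianPDF 0 1)) := by
    rw [← h0]; infer_instance
  unfold gam
  rw [show (fun _ : V => gaussianReal 0 1) =
    fun i : V => (volume : Measure ℝ).withDensity ((fun _ : V => gaussianPDF 0 1) i) from
      funext fun _ => h0]
  have h1 := Pool.Agent.Helper954.Hopf.AF.AF.pi_withDensity
    (fun _ : V => gaussianPDF 0 1) (fun _ => measurable_gaussianPDF 0 1)
  rw [h1, ← volume_pi]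
  congr 1
  funext x
  have h2 : ∀ i, gaussianPDF 0 1 (x i) =
      ENNReal.ofReal ((√(2 * Real.pi))⁻¹ * Real.exp (-(x i ^ 2) / 2)) := by
    intro i
    rw [gaussianPDF_def, gaussianPDFReal_def]
    simp
  simp only [h2]
  rw [← ENNReal.ofReal_prod_of_nonneg (fun i _ => by positivity)]
  congr 1
  rw [Finset.prod_mul_distrib, Finset.prod_const, Finset.card_univ, ← Real.exp_sum]
  congr 2
  rw [← Finset.sum_neg_distrib, Finset.sum_div]

theorem main : S_GCV := by
  intro V _ _ M B hM hB f hf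
  have hdM : 0 < M.det := hM.det_pos
  have hBd : B.det * B.det = M.det⁻¹ := by
    have := congrArg Matrix.det hB
    rwa [Matrix.det_mul, Matrix.det_transpose, Matrix.det_nonsing_inv, Ring.inverse_eq_inv'] at this
  have hB0 : B.det ≠ 0 := by
    intro h
    rw [h, mul_zero] at hBd
    exact (inv_ne_zero hdM.ne') hBd.symm
  have habs : |B.det| = 1 / √M.det := by
    have h1 : |B.det| ^ 2 = (1 / √M.det) ^ 2 := by
      rw [sq_abs, div_pow, Real.sq_sqrt hdM.le, pow_two, hBd]; simp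
    exact (pow_left_inj₀ (abs_nonneg _) (by positivity) two_ne_zero).1 h1
  -- `Bᵀ M B = 1`
  have hMu : IsUnit M.det := hdM.ne'.isUnit
  have hBu : IsUnit B.det := hB0.isUnit
  have hBMB : B.transpose * (M * B) = 1 := by
    have h1 : M * (B * B.transpose) = 1 := by rw [hB, Matrix.mul_nonsing_inv _ hMu]
    have h2 : (M * B) * B.transpose = 1 := by rw [Matrix.mul_assoc]; exact h1
    exact mul_eq_one_comm.1 h2
  have hq : ∀ g : V → ℝ, (B.mulVec g) ⬝ᵥ M.mulVec (B.mulVec g) = ∑ i, g i ^ 2 := by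
    intro g
    rw [Matrix.mulVec_mulVec, Matrix.dotProduct_mulVec, Matrix.vecMul_mulVec,
      hBMB, Matrix.vecMul_one]
    unfold dotProduct
    exact Finset.sum_congr rfl fun i _ => by ring
  -- the change of variables
  set F : (V → ℝ) → ℝ≥0∞ := fun φ => f φ * ENNReal.ofReal (Real.exp (-(φ ⬝ᵥ M.mulVec φ) / 2))
    with hF
  have hFm : Measurable F := by
    have h1 : Continuous (fun φ : V → ℝ => φ ⬝ᵥ M.mulVec φ) := by
      unfold dotProduct Matrix.mulVec dotProduct
      fun_prop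
    have h2 := h1.measurable
    exact hf.mul (by fun_prop)
  have hBm : Measurable (Matrix.toLin' B) := (LinearMap.continuous_of_finiteDimensional _).measurable
  have hcv : ∫⁻ g, F (B.mulVec g) = ENNReal.ofReal |(B.det)⁻¹| * ∫⁻ φ, F φ := by
    have h1 : ∫⁻ g, F (B.mulVec g) = ∫⁻ φ, F φ ∂(Measure.map (Matrix.toLin' B) volume) :=
      (lintegral_map hFm hBm).symm
    rw [h1, Real.map_matrix_volume_pi_eq_smul_volume_pi hB0, lintegral_smul_measure, smul_eq_mul]
  have hcv2 : ∫⁻ φ, F φ = ENNReal.ofReal (1 / √M.det) * ∫⁻ g, F (B.mulVec g) := by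
    rw [hcv, ← mul_assoc, ← ENNReal.ofReal_mul (by positivity), ← habs, abs_inv,
      mul_inv_cancel₀ (abs_pos.2 hB0).ne', ENNReal.ofReal_one, one_mul]
  have hFB : ∀ g, F (B.mulVec g) = f (B.mulVec g) *
      ENNReal.ofReal (Real.exp (-(∑ i, g i ^ 2) / 2)) := by
    intro g
    rw [hF]; simp only
    rw [hq]
  rw [hcv2, gam_dens]
  have hBm' : Measurable (fun g : V → ℝ => B.mulVec g) := hBm
  have hdm : Measurable (fun x : V → ℝ => ENNReal.ofReal ((√(2 * Real.pi))⁻¹ ^ Fintype.card V *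
      Real.exp (-(∑ i, x i ^ 2) / 2))) := by fun_prop
  have hwd := lintegral_withDensity_eq_lintegral_mul (volume : Measure (V → ℝ)) hdm
    (hf.comp hBm')
  have hwd' : ∫⁻ g, f (B.mulVec g) ∂((volume : Measure (V → ℝ)).withDensity
      (fun x => ENNReal.ofReal ((√(2 * Real.pi))⁻¹ ^ Fintype.card V *
      Real.exp (-(∑ i, x i ^ 2) / 2)))) = ∫⁻ g, (ENNReal.ofReal ((√(2 * Real.pi))⁻¹ ^ Fintype.card V *
      Real.exp (-(∑ i, g i ^ 2) / 2)) * f (B.mulVec g)) := hwd
  rw [hwd']
  have hs : (0 : ℝ) < √(2 * Real.pi) := Real.sqrt_pos.2 (by positivity)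
  have h3 : ∀ g, F (B.mulVec g) = ENNReal.ofReal (√(2 * Real.pi) ^ Fintype.card V) *
      (ENNReal.ofReal ((√(2 * Real.pi))⁻¹ ^ Fintype.card V *
      Real.exp (-(∑ i, g i ^ 2) / 2)) * f (B.mulVec g)) := by
    intro g
    rw [hFB, ← mul_assoc, ← ENNReal.ofReal_mul (by positivity), ← mul_assoc, ← mul_pow,
      mul_inv_cancel₀ hs.ne', one_pow, one_mul, mul_comm]
  simp only [h3]
  rw [lintegral_const_mul' _ _ ENNReal.ofReal_ne_top, ← mul_assoc,
    ← ENNReal.ofReal_mul (by positivity)]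
  congr 2
  ring

end Pool.Agent.W782.CTGCV
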