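import Pool.Agent.W782.CTEMB

/-!
# The growth condition, from Sudakov and concentration
-/

namespace Pool.Agent.W782.CTGROW

open MeasureTheory ProbabilityTheory Pool.Agent.W823.CT Pool.Agent.W782.CTCONC
  Pool.Agent.W782.CTEMB
open scoped ENNReal BigOperators

instance {ι : Type} [Fintype ι] : IsProbabilityMeasure (gam ι) := by
  unfold gam; infer_instance

/-- an upper bound of an expectation from exponential moments -/
theorem max_le {Ω : Type} [MeasurableSpace Ω] {μ : Measure Ω} [IsProbabilityMeasure μ] {N : ℕ}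
    (Z : Fin N → Ω → ℝ) (hN : 2 ≤ N) (hZ : ∀ i, Measurable (Z i)) (W : Ω → ℝ) (hW : Integrable W μ)
    (hle : ∀ ω, ∃ i, W ω ≤ |Z i ω|) (C s : ℝ) (hC : 0 < C) (hs : 0 < s)
    (hm : ∀ i, ∀ l : ℝ, ∫⁻ ω, ENNReal.ofReal (Real.exp (l * Z i ω)) ∂μ ≤
      ENNReal.ofReal (Real.exp (C * l ^ 2 * s ^ 2))) :
    ∫ ω, W ω ∂μ ≤ (2 + C) * s * √(Real.log N) := by
  have hN' : (2 : ℝ) ≤ N := by exact_mod_cast hN
  have hlogN : 0 < Real.log N := Real.log_pos (by linarith)
  set q := √(Real.log N) with hq
  have hq0 : 0 < q := Real.sqrt_pos.2 hlogN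
  have hq2 : q ^ 2 = Real.log N := Real.sq_sqrt hlogN.le
  set l := q / s with hl
  have hl0 : 0 < l := by positivity
  -- the exponential moment of `W`
  have h1 : ∀ ω, ENNReal.ofReal (Real.exp (l * W ω)) ≤
      ∑ i, (ENNReal.ofReal (Real.exp (l * Z i ω)) + ENNReal.ofReal (Real.exp (-l * Z i ω))) := by
    intro ω
    obtain ⟨i, hi⟩ := hle ω
    refine le_trans ?_ (Finset.single_le_sum (f := fun i =>
      ENNReal.ofReal (Real.exp (l * Z i ω)) + ENNReal.ofReal (Real.exp (-l * Z i ω)))
      (fun _ _ => zero_le) (Finset.mem_univ i))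
    rcases abs_cases (Z i ω) with ⟨h, _⟩ | ⟨h, _⟩
    · refine le_trans (ENNReal.ofReal_le_ofReal (Real.exp_le_exp.2 ?_)) le_self_add
      rw [h] at hi
      exact mul_le_mul_of_nonneg_left hi hl0.le
    · refine le_trans (ENNReal.ofReal_le_ofReal (Real.exp_le_exp.2 ?_)) le_add_self
      rw [h] at hi
      calc l * W ω ≤ l * -Z i ω := mul_le_mul_of_nonneg_left hi hl0.le
        _ = -l * Z i ω := by ring
  have h2 : ∫⁻ ω, ENNReal.ofReal (Real.exp (l * W ω)) ∂μ ≤
      ENNReal.ofReal (2 * N * Real.exp (C * l ^ 2 * s ^ 2)) := by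
    calc ∫⁻ ω, ENNReal.ofReal (Real.exp (l * W ω)) ∂μ
        ≤ ∫⁻ ω, ∑ i, (ENNReal.ofReal (Real.exp (l * Z i ω)) +
          ENNReal.ofReal (Real.exp (-l * Z i ω))) ∂μ := lintegral_mono h1
      _ = ∑ i, ∫⁻ ω, (ENNReal.ofReal (Real.exp (l * Z i ω)) +
          ENNReal.ofReal (Real.exp (-l * Z i ω))) ∂μ := by
          refine lintegral_finsetSum _ (fun i _ => ?_)
          have := hZ i
          fun_prop
      _ ≤ ∑ _i : Fin N, ENNReal.ofReal (2 * Real.exp (C * l ^ 2 * s ^ 2)) := by
          refine Finset.sum_le_sum fun i _ => ?_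
          rw [lintegral_add_left (by have := hZ i; fun_prop)]
          have e1 := hm i l
          have e2 := hm i (-l)
          rw [neg_sq] at e2
          rw [two_mul, ENNReal.ofReal_add (Real.exp_pos _).le (Real.exp_pos _).le]
          exact add_le_add e1 e2
      _ = ENNReal.ofReal (2 * N * Real.exp (C * l ^ 2 * s ^ 2)) := by
          rw [Finset.sum_const, Finset.card_univ, Fintype.card_fin, nsmul_eq_mul,
            ← ENNReal.ofReal_natCast, ← ENNReal.ofReal_mul (by positivity)]
          congr 1; ring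
  have hWm : AEMeasurable W μ := hW.aestronglyMeasurable.aemeasurable
  have hint : Integrable (fun ω => Real.exp (l * W ω)) μ := by
    refine ⟨(Real.measurable_exp.comp_aemeasurable (hWm.const_mul l)).aestronglyMeasurable, ?_⟩
    rw [hasFiniteIntegral_iff_ofReal (Filter.Eventually.of_forall fun x => (Real.exp_pos _).le)]
    exact lt_of_le_of_lt h2 ENNReal.ofReal_lt_top
  have h3 : ∫ ω, Real.exp (l * W ω) ∂μ ≤ 2 * N * Real.exp (C * l ^ 2 * s ^ 2) := by
    rw [← ofReal_integral_eq_lintegral_ofReal hint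
      (Filter.Eventually.of_forall fun x => (Real.exp_pos _).le)] at h2
    exact (ENNReal.ofReal_le_ofReal_iff (by positivity)).1 h2
  -- Jensen
  set m := ∫ ω, W ω ∂μ with hmdef
  have h4 : Real.exp (l * m) ≤ ∫ ω, Real.exp (l * W ω) ∂μ := by
    have e1 : ∀ ω, Real.exp (l * m) * (1 + (l * W ω - l * m)) ≤ Real.exp (l * W ω) := by
      intro ω
      have e2 := Real.add_one_le_exp (l * W ω - l * m)
      calc Real.exp (l * m) * (1 + (l * W ω - l * m)) ≤
            Real.exp (l * m) * Real.exp (l * W ω - l * m) :=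
            mul_le_mul_of_nonneg_left (by linarith) (Real.exp_pos _).le
        _ = _ := by rw [← Real.exp_add]; congr 1; ring
    have e3 : Integrable (fun ω => Real.exp (l * m) * (1 + (l * W ω - l * m))) μ :=
      ((integrable_const _).add ((hW.const_mul l).sub (integrable_const _))).const_mul _
    have e4 := integral_mono e3 hint e1
    rw [integral_const_mul] at e4
    have e5 : ∫ ω, (1 + (l * W ω - l * m)) ∂μ = 1 := by
      have a1 := integral_add (μ := μ) (integrable_const (1 : ℝ))
        ((hW.const_mul l).sub (integrable_const (l * m)))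
      have a2 := integral_sub (μ := μ) (hW.const_mul l) (integrable_const (l * m))
      simp only [Pi.sub_apply] at a1 a2
      rw [a1, a2, integral_const_mul]
      simp [← hmdef]
    rw [e5, mul_one] at e4
    exact e4
  have h5 : l * m ≤ Real.log (2 * N) + C * l ^ 2 * s ^ 2 := by
    have e1 := h4.trans h3
    have e2 : 2 * (N : ℝ) * Real.exp (C * l ^ 2 * s ^ 2) =
        Real.exp (Real.log (2 * N) + C * l ^ 2 * s ^ 2) := by
      rw [Real.exp_add, Real.exp_log (by positivity)]
    rw [e2] at e1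
    exact Real.exp_le_exp.1 e1
  have h6 : Real.log (2 * N) ≤ 2 * Real.log N := by
    rw [Real.log_mul (by norm_num) (by positivity)]
    have := Real.log_le_log (by norm_num) hN'
    linarith
  have h7 : l ^ 2 * s ^ 2 = q ^ 2 := by rw [hl]; field_simp
  have h8 : l * m ≤ (2 + C) * q ^ 2 := by
    have : C * l ^ 2 * s ^ 2 = C * q ^ 2 := by rw [mul_assoc, h7]
    rw [this, ← hq2] at *
    nlinarith
  have h9 : (2 + C) * q ^ 2 = l * ((2 + C) * s * q) := by rw [hl]; field_simp
  rw [h9] at h8
  exact le_of_mul_le_mul_left h8 hl0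

theorem main' (h2 : S_SUD) (h3 : S_CONC) : S_GROW := by
  obtain ⟨c1, hc1, hsud⟩ := h2
  obtain ⟨C, hC, hconc⟩ := h3
  set r := max 2 (2 * (2 + C) / c1) with hr
  have hr2 : 2 ≤ r := le_max_left _ _
  have hr0 : 0 < r := by linarith
  refine ⟨r, c1 / 2, hr2, by positivity, fun ι τ _ _ N x D a δ b hN hδ hsep hne hdist hb => ?_⟩
  have hN0 : 0 < N := by omega
  haveI : NeZero N := ⟨hN0.ne'⟩
  have hinj : Function.Injective x := by
    intro i j hij
    by_contra h
    have h1 := hsep i j h
    rw [hij, sub_self] at h1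
    have : nrm (0 : ι → ℝ) = 0 := by unfold nrm; simp
    rw [this] at h1
    linarith
  set X : Finset τ := Finset.univ.image x with hX
  have hXne : X.Nonempty := ⟨x 0, Finset.mem_image_of_mem x (Finset.mem_univ 0)⟩
  have hXcard : X.card = N := by
    rw [hX, Finset.card_image_of_injective _ hinj, Finset.card_univ, Fintype.card_fin]
  have hs := hsud ι τ X a δ hδ (by omega) (by
    intro s hs t ht hst
    obtain ⟨i, -, rfl⟩ := Finset.mem_image.1 hs
    obtain ⟨j, -, rfl⟩ := Finset.mem_image.1 ht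
    exact hsep i j (fun h => hst (by rw [h])))
  rw [hXcard] at hs
  set U := Finset.univ.biUnion D with hU
  -- the fluctuations
  set Y : Fin N → (ι → ℝ) → ℝ := fun i g => mx (D i) (fun s => a s - a (x i)) g with hY
  set Z : Fin N → (ι → ℝ) → ℝ := fun i g => Y i g - EM (D i) (fun s => a s - a (x i)) with hZ
  have hYeq : ∀ i g, Y i g = mx (D i) a g - dotp (a (x i)) g := fun i g =>
    mx_shift (hne i) a (a (x i)) g
  have hEM : ∀ i, EM (D i) (fun s => a s - a (x i)) = EM (D i) a := by
    intro i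
    unfold EM
    have h1 : mx (D i) (fun t => a t - a (x i)) = fun g => mx (D i) a g - dotp (a (x i)) g :=
      funext fun g => mx_shift (hne i) a (a (x i)) g
    rw [h1, integral_sub (mx_int _ a) (dotp_int _), int_dotp, sub_zero]
  have hkey : ∀ g, ∃ i, mx X a g + b - mx U a g ≤ |Z i g| := by
    intro g
    obtain ⟨t, ht, hmax⟩ := Finset.exists_max_image X (fun t => dotp (a t) g) hXne
    obtain ⟨i, -, rfl⟩ := Finset.mem_image.1 ht
    refine ⟨i, ?_⟩
    have e1 : mx X a g ≤ dotp (a (x i)) g := mx_le_of hXne a g hmax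
    have e2 : mx (D i) a g ≤ mx U a g := mx_le_of (hne i) a g (fun t ht =>
      le_mx a (Finset.mem_biUnion.2 ⟨i, Finset.mem_univ i, ht⟩) g)
    have e3 := hYeq i g
    have e4 := neg_abs_le (Z i g)
    have e5 : Z i g = Y i g - EM (D i) a := by rw [hZ]; simp only; rw [hEM]
    have e6 := hb i
    rw [e5] at e4 ⊢
    linarith
  have hWint : Integrable (fun g => mx X a g + b - mx U a g) (gam ι) :=
    ((mx_int X a).add (integrable_const b)).sub (mx_int U a)
  have hσ : 0 < δ / r := by positivity
  have hmeas : ∀ i, Measurable (Z i) := by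
    intro i
    have h1 : Z i = fun g => (mx (D i) a g - dotp (a (x i)) g) -
        EM (D i) (fun s => a s - a (x i)) := by
      funext g; rw [hZ]; simp only; rw [hYeq]
    rw [h1]
    have hL : Pool.Agent.H320R2.LD.Lip (∑ t ∈ D i, nrm (a t)) (mx (D i) a) :=
      mx_lip (D i) a _ _ (Finset.sum_nonneg fun t _ => nrm_nonneg _)
        (fun t ht => Finset.single_le_sum (f := fun t => nrm (a t)) (fun t _ => nrm_nonneg _) ht)
        le_rfl
    have hm := (Pool.Agent.H320R2.LD.MGF.lip_continuous
      (Finset.sum_nonneg fun t _ => nrm_nonneg _) hL).measurable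
    exact (hm.sub (dotp_meas _)).sub_const _
  have hbound := max_le Z hN hmeas (fun g => mx X a g + b - mx U a g) hWint hkey C (δ / r) hC hσ
    (fun i l => hconc ι τ (D i) (fun s => a s - a (x i)) (δ / r) hσ.le (hdist i) l)
  have hEW : ∫ g, (mx X a g + b - mx U a g) ∂(gam ι) = EM X a + b - EM U a := by
    have a1 := integral_sub ((mx_int X a).add (integrable_const b)) (mx_int U a)
    have a2 := integral_add (mx_int X a) (integrable_const (μ := gam ι) b)
    simp only [Pi.add_apply] at a1 a2
    rw [a1, a2]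
    simp [EM]
  rw [hEW] at hbound
  have hlog : 0 ≤ √(Real.log N) := Real.sqrt_nonneg _
  have hfin : (2 + C) * (δ / r) * √(Real.log N) ≤ c1 / 2 * δ * √(Real.log N) := by
    apply mul_le_mul_of_nonneg_right _ hlog
    rw [mul_div_assoc', div_le_iff₀ hr0]
    have h1 : 2 * (2 + C) / c1 ≤ r := le_max_right _ _
    rw [div_le_iff₀ hc1] at h1
    nlinarith
  nlinarith

theorem main (_ : S_EMB) (h2 : S_SUD) (h3 : S_CONC) : S_GROW := main' h2 h3

end Pool.Agent.W782.CTGROW
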