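import Pool.Agent.W823.CT.Stm

/-!
# Lower tail of the maximum of a Gaussian vector
-/

namespace Pool.Agent.W782.CTLOWC

open MeasureTheory ProbabilityTheory Pool.Agent.W823.CT
open scoped ENNReal BigOperators

theorem zero_of_nrm {ι : Type} [Fintype ι] {a : ι → ℝ} (h : nrm a ≤ 0) : a = 0 := by
  unfold nrm at h
  have h1 : ∑ i, a i ^ 2 ≤ 0 := Real.sqrt_eq_zero'.1 (le_antisymm h (Real.sqrt_nonneg _))
  have h2 : ∑ i, a i ^ 2 = 0 := le_antisymm h1 (Finset.sum_nonneg fun i _ => sq_nonneg _)
  rw [Finset.sum_eq_zero_iff_of_nonneg (fun i _ => sq_nonneg _)] at h2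
  funext i
  simpa using h2 i (Finset.mem_univ i)

theorem mx_zero {ι τ : Type} [Fintype ι] (T : Finset τ) (a : τ → ι → ℝ)
    (h : ∀ t ∈ T, a t = 0) (g : ι → ℝ) : mx T a g = 0 := by
  unfold mx
  split_ifs with hT
  · apply le_antisymm
    · apply Finset.sup'_le
      intro t ht
      rw [h t ht]; simp [dotp]
    · obtain ⟨t, ht⟩ := hT
      refine le_trans ?_ (Finset.le_sup' (fun t => dotp (a t) g) ht)
      rw [h t ht]; simp [dotp]
  · rfl

theorem mx_cont {ι τ : Type} [Fintype ι] (T : Finset τ) (a : τ → ι → ℝ) :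
    Continuous (mx T a) := by
  unfold mx
  by_cases hT : T.Nonempty
  · simp only [hT, dite_true]
    refine Continuous.finset_sup'_apply hT (fun t _ => ?_)
    unfold dotp
    fun_prop
  · simp only [hT, dite_false]
    exact continuous_const

theorem main (h1 : S_CONC) : S_LOWC := by
  obtain ⟨C, hC, hc⟩ := h1
  refine ⟨√(32 * C), by positivity, fun ι τ _ T a σ hσ0 hσ hK => ?_⟩
  set M := EM T a with hM
  rcases hσ0.eq_or_lt with h0 | h0
  · have h2 : ∀ t ∈ T, a t = 0 := fun t ht => zero_of_nrm (by rw [h0]; exact hσ t ht)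
    have h3 : ∀ g, mx T a g = 0 := mx_zero T a h2
    have h4 : M = 0 := by rw [hM]; unfold EM; simp [h3]
    have h5 : {g | mx T a g < M / 2} = ∅ := by
      ext g; simp [h3, h4]
    rw [h5]; simp
  · have hMp : 0 < M := lt_of_lt_of_le (by positivity) hK
    have hσ2 : 0 < σ ^ 2 := by positivity
    set l := -M / (4 * C * σ ^ 2) with hl
    have hl0 : l < 0 := by
      rw [hl, neg_div]; have : 0 < M / (4 * C * σ ^ 2) := by positivity
      linarith
    have hint := hc ι τ T a σ hσ0 hσ l
    have hmeas : Measurable (fun g => ENNReal.ofReal (Real.exp (l * (mx T a g - EM T a)))) := by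
      have := (mx_cont T a).measurable
      fun_prop
    have hmk := mul_meas_ge_le_lintegral (μ := gam ι) hmeas
      (ENNReal.ofReal (Real.exp (M ^ 2 / (8 * C * σ ^ 2))))
    have hsub : {g | mx T a g < M / 2} ⊆ {g | ENNReal.ofReal (Real.exp (M ^ 2 / (8 * C * σ ^ 2))) ≤
        ENNReal.ofReal (Real.exp (l * (mx T a g - EM T a)))} := by
      intro g hg
      have hg' : mx T a g < M / 2 := hg
      apply ENNReal.ofReal_le_ofReal
      apply Real.exp_le_exp.2
      have e1 : M ^ 2 / (8 * C * σ ^ 2) = l * (-(M / 2)) := by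
        rw [hl]; field_simp; ring
      rw [e1]
      apply mul_le_mul_of_nonpos_left _ hl0.le
      rw [← hM]; linarith
    have h2 : ENNReal.ofReal (Real.exp (M ^ 2 / (8 * C * σ ^ 2))) * gam ι {g | mx T a g < M / 2} ≤
        ENNReal.ofReal (Real.exp (M ^ 2 / (16 * C * σ ^ 2))) := by
      refine (mul_le_mul_right (measure_mono hsub) _).trans (hmk.trans (hint.trans ?_))
      apply ENNReal.ofReal_le_ofReal
      apply Real.exp_le_exp.2
      apply le_of_eq
      rw [hl]; field_simp; ring
    have h3 : gam ι {g | mx T a g < M / 2} ≤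
        ENNReal.ofReal (Real.exp (-(M ^ 2 / (16 * C * σ ^ 2)))) := by
      have hpos : ENNReal.ofReal (Real.exp (M ^ 2 / (8 * C * σ ^ 2))) ≠ 0 := by
        simp [Real.exp_pos]
      have h4 := (ENNReal.le_div_iff_mul_le (Or.inl hpos) (Or.inl ENNReal.ofReal_ne_top)).2
        ((mul_comm _ _).trans_le h2)
      refine h4.trans (le_of_eq ?_)
      rw [← ENNReal.ofReal_div_of_pos (Real.exp_pos _), ← Real.exp_sub]
      congr 2
      field_simp
      ring
    refine h3.trans (ENNReal.ofReal_le_ofReal ?_)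
    have h5 : 2 ≤ M ^ 2 / (16 * C * σ ^ 2) := by
      rw [le_div_iff₀ (by positivity)]
      have h6 : (√(32 * C) * σ) ^ 2 ≤ M ^ 2 := pow_le_pow_left₀ (by positivity) hK 2
      rw [mul_pow, Real.sq_sqrt (by positivity)] at h6
      linarith
    calc Real.exp (-(M ^ 2 / (16 * C * σ ^ 2))) ≤ Real.exp (-2) :=
          Real.exp_le_exp.2 (by linarith)
      _ ≤ 1 / 4 := by
          rw [Real.exp_neg, inv_eq_one_div]
          apply one_div_le_one_div_of_le (by norm_num)
          have h7 : Real.exp 2 = Real.exp 1 * Real.exp 1 := by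
            rw [← Real.exp_add]; norm_num
          have h8 := Real.add_one_le_exp (1 : ℝ)
          rw [h7]; nlinarith

end Pool.Agent.W782.CTLOWC
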