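import Pool.Agent.W823.CT.Stm

/-!
# Lower bound for the cover time, assembly
-/

namespace Pool.Agent.W782.CTLOWER

open MeasureTheory ProbabilityTheory Pool.Agent.W823.CT
open scoped ENNReal BigOperators

theorem main (h1 : S_COVLE) (h2 : S_COVGE) (h3 : S_MASS) (h4 : S_LOWC) (h5 : S_DIAG)
    (h6 : S_EMB) : S_LOWER := by
  obtain ⟨K, hK, hlow⟩ := h4
  refine ⟨min (1 / K ^ 2) (1 / 3200), by positivity, fun V _ _ G _ o a hG hV ha => ?_⟩
  set M := EM Finset.univ a with hM
  have hM0 : 0 ≤ M := (h6 V V Finset.univ a).2.1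
  obtain ⟨x, -, hx⟩ := Finset.exists_max_image (Finset.univ : Finset V) (fun x => nrm (a x))
    ⟨o, Finset.mem_univ o⟩
  set σ := nrm (a x) with hσ
  have hσ0 : 0 ≤ σ := Real.sqrt_nonneg _
  set m : ℝ := (G.edgeFinset.card : ℝ) with hm
  have hm0 : 0 ≤ m := Nat.cast_nonneg _
  by_cases hc : M < K * σ
  · refine le_trans (ENNReal.ofReal_le_ofReal ?_) (h5 V G o a hG ha x)
    have e1 : M ^ 2 ≤ (K * σ) ^ 2 := pow_le_pow_left₀ hM0 hc.le 2
    calc min (1 / K ^ 2) (1 / 3200) * m * M ^ 2 ≤ (1 / K ^ 2) * m * (K * σ) ^ 2 := by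
          apply mul_le_mul _ e1 (by positivity) (by positivity)
          exact mul_le_mul_of_nonneg_right (min_le_left _ _) hm0
      _ = m * σ ^ 2 := by field_simp
  · rw [not_lt] at hc
    rcases hM0.eq_or_lt with h0 | h0
    · rw [← h0]; simp
    · rcases hm0.eq_or_lt with hm1 | hm1
      · rw [← hm1]; simp
      have hκ : (0 : ℝ) < 1600 / M ^ 2 := by positivity
      have hs : √(1600 / M ^ 2) = 40 / M := by
        rw [show (1600 : ℝ) / M ^ 2 = (40 / M) ^ 2 by ring]
        exact Real.sqrt_sq (by positivity)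
      have e1 := h1 V G (1600 / M ^ 2) o a hG hκ ha
      have e2 := h3 V o a (1600 / M ^ 2) hκ ha.1 ha.2.1
      have e3 := hlow V V Finset.univ a σ hσ0 hx hc
      rw [hs] at e2
      have hs2 : 20 / (40 / M) = M / 2 := by field_simp; norm_num
      rw [hs2] at e2
      have e4 : ENNReal.ofReal (cov G (1600 / M ^ 2) o) ≤ ENNReal.ofReal (1 / 2) := by
        rw [hs] at e1
        refine e1.trans (e2.trans ((add_le_add le_rfl e3).trans (le_of_eq ?_)))
        rw [← ENNReal.ofReal_add (by norm_num) (by norm_num)]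
        norm_num
      have e5 := h2 V G (1600 / M ^ 2) o a hG hV hκ ha
      have e6 : ENNReal.ofReal (1 / 2) ≤ ENNReal.ofReal (1600 / M ^ 2 / m) * Tsrw G := by
        have e7 : ENNReal.ofReal (1 / 2) + ENNReal.ofReal (1 / 2) ≤
            ENNReal.ofReal (1 / 2) + ENNReal.ofReal (1600 / M ^ 2 / m) * Tsrw G := by
          rw [← ENNReal.ofReal_add (by norm_num) (by norm_num)]
          refine le_trans (le_of_eq (by norm_num)) (e5.trans (add_le_add e4 le_rfl))
        exact (ENNReal.add_le_add_iff_left ENNReal.ofReal_ne_top).1 e7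
      have e8 : ENNReal.ofReal (M ^ 2 * m / 3200) ≤ Tsrw G := by
        have e9 : ENNReal.ofReal (M ^ 2 * m / 1600) * ENNReal.ofReal (1 / 2) ≤
            ENNReal.ofReal (M ^ 2 * m / 1600) * (ENNReal.ofReal (1600 / M ^ 2 / m) * Tsrw G) :=
          mul_le_mul_right e6 _
        rw [← mul_assoc, ← ENNReal.ofReal_mul (by positivity),
          ← ENNReal.ofReal_mul (by positivity)] at e9
        have e10 : M ^ 2 * m / 1600 * (1600 / M ^ 2 / m) = 1 := by field_simp
        rw [e10, ENNReal.ofReal_one, one_mul] at e9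
        refine le_trans (le_of_eq ?_) e9
        congr 1; ring
      refine le_trans (ENNReal.ofReal_le_ofReal ?_) e8
      calc min (1 / K ^ 2) (1 / 3200) * m * M ^ 2 ≤ (1 / 3200) * m * M ^ 2 := by
            apply mul_le_mul_of_nonneg_right _ (by positivity)
            exact mul_le_mul_of_nonneg_right (min_le_right _ _) hm0
        _ = _ := by ring

end Pool.Agent.W782.CTLOWER
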