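import Pool.Agent.W823.CT.Stm

/-!
# Removal of the mass
-/

namespace Pool.Agent.W782.CTMASS

open MeasureTheory ProbabilityTheory Pool.Agent.W823.CT Set
open scoped ENNReal BigOperators

instance {ι : Type} [Fintype ι] : IsProbabilityMeasure (gam ι) := by
  unfold gam; infer_instance

theorem mx_cont {ι τ : Type} [Fintype ι] (T : Finset τ) (a : τ → ι → ℝ) :
    Continuous (mx T a) := by
  unfold mx
  by_cases hT : T.Nonempty
  · simp only [hT, dite_true]
    refine Continuous.finset_sup'_apply hT (fun t _ => ?_)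
    unfold dotp
    fun_prop
  · simp only [hT, dite_false]
    exact continuous_const

theorem le_mx {ι τ : Type} [Fintype ι] {T : Finset τ} (a : τ → ι → ℝ) {t : τ} (ht : t ∈ T)
    (g : ι → ℝ) : dotp (a t) g ≤ mx T a g := by
  unfold mx
  rw [dif_pos ⟨t, ht⟩]
  exact Finset.le_sup' (fun t => dotp (a t) g) ht

theorem mx_lt_iff {ι τ : Type} [Fintype ι] {T : Finset τ} (hT : T.Nonempty) (a : τ → ι → ℝ)
    (g : ι → ℝ) {c : ℝ} : mx T a g < c ↔ ∀ t ∈ T, dotp (a t) g < c := by
  unfold mx
  rw [dif_pos hT]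
  exact Finset.sup'_lt_iff hT

theorem exp_half : Real.exp (1 / 2) ≤ 2 := by
  have h1 : Real.exp (1 / 2) ^ 2 = Real.exp 1 := by
    rw [← Real.exp_nat_mul]; norm_num
  have h2 := Real.exp_one_lt_d9
  have h3 := Real.exp_pos (1 / 2 : ℝ)
  nlinarith

/-- the tail of the second moment -/
theorem tail : ∫⁻ z in Ioi (20 : ℝ), ENNReal.ofReal (z ^ 2) ∂(gaussianReal 0 1) ≤
    ENNReal.ofReal (1 / 8) := by
  have h1 : ∀ z ∈ Ioi (20 : ℝ), ENNReal.ofReal (z ^ 2) ≤
      ENNReal.ofReal (24 / 400 * Real.exp (1 * z)) := by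
    intro z hz
    have hz' : 20 < z := hz
    apply ENNReal.ofReal_le_ofReal
    have h2 := Real.pow_div_factorial_le_exp z (by linarith) 4
    have h3 : ((Nat.factorial 4 : ℕ) : ℝ) = 24 := by norm_num [Nat.factorial]
    rw [h3, div_le_iff₀ (by norm_num)] at h2
    rw [one_mul]
    have h5 : 400 ≤ z ^ 2 := by nlinarith
    have h4 : 400 * z ^ 2 ≤ z ^ 4 := by
      calc 400 * z ^ 2 ≤ z ^ 2 * z ^ 2 := mul_le_mul_of_nonneg_right h5 (sq_nonneg z)
        _ = z ^ 4 := by ring
    linarith
  have hint := integrable_exp_mul_gaussianReal (μ := 0) (v := 1) 1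
  calc ∫⁻ z in Ioi (20 : ℝ), ENNReal.ofReal (z ^ 2) ∂(gaussianReal 0 1)
      ≤ ∫⁻ z in Ioi (20 : ℝ), ENNReal.ofReal (24 / 400 * Real.exp (1 * z)) ∂(gaussianReal 0 1) :=
        setLIntegral_mono' measurableSet_Ioi h1
    _ ≤ ∫⁻ z, ENNReal.ofReal (24 / 400 * Real.exp (1 * z)) ∂(gaussianReal 0 1) :=
        setLIntegral_le_lintegral _ _
    _ = ENNReal.ofReal (∫ z, 24 / 400 * Real.exp (1 * z) ∂(gaussianReal 0 1)) :=
        (ofReal_integral_eq_lintegral_ofReal (hint.const_mul _)
          (Filter.Eventually.of_forall fun z => by positivity)).symm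
    _ ≤ ENNReal.ofReal (1 / 8) := by
        apply ENNReal.ofReal_le_ofReal
        rw [integral_const_mul]
        have h5 : ∫ z, Real.exp (1 * z) ∂(gaussianReal 0 1) = Real.exp (1 / 2) := by
          have h6 := congrFun (mgf_id_gaussianReal (μ := 0) (v := 1)) 1
          unfold mgf at h6
          simp only [id_eq] at h6
          rw [h6]; norm_num
        rw [h5]
        have := exp_half
        linarith

/-- half of the second moment -/
theorem half_mom : 2 * ∫⁻ z in Ioi (0 : ℝ), ENNReal.ofReal (z ^ 2) ∂(gaussianReal 0 1) ≤ 1 := by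
  have hneg : MeasurePreserving (fun z : ℝ => -z) (gaussianReal 0 1) (gaussianReal 0 1) := by
    refine ⟨measurable_neg, ?_⟩
    have := gaussianReal_map_neg (μ := 0) (v := 1)
    rwa [neg_zero] at this
  have hm : Measurable (fun z : ℝ => ENNReal.ofReal (z ^ 2)) := by fun_prop
  have h1 : ∫⁻ z in Ioi (0 : ℝ), ENNReal.ofReal (z ^ 2) ∂(gaussianReal 0 1) =
      ∫⁻ z in Iio (0 : ℝ), ENNReal.ofReal (z ^ 2) ∂(gaussianReal 0 1) := by
    rw [← hneg.setLIntegral_comp_preimage measurableSet_Ioi hm]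
    have : (fun z : ℝ => -z) ⁻¹' Ioi 0 = Iio 0 := by ext z; simp
    rw [this]
    simp only [neg_sq]
  have hdisj : Disjoint (Ioi (0 : ℝ)) (Iio 0) := by
    rw [Set.disjoint_left]
    intro z hz hz'
    have h1 : (0 : ℝ) < z := hz
    have h2 : z < 0 := hz'
    linarith
  have h2 : 2 * ∫⁻ z in Ioi (0 : ℝ), ENNReal.ofReal (z ^ 2) ∂(gaussianReal 0 1) =
      ∫⁻ z in Ioi (0 : ℝ) ∪ Iio 0, ENNReal.ofReal (z ^ 2) ∂(gaussianReal 0 1) := by
    rw [lintegral_union measurableSet_Iio hdisj, ← h1, two_mul]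
  rw [h2]
  refine (setLIntegral_le_lintegral _ _).trans ?_
  have hmem : MemLp (fun z : ℝ => z) 2 (gaussianReal 0 1) := memLp_id_gaussianReal 2
  have hint : Integrable (fun z : ℝ => z ^ 2) (gaussianReal 0 1) := hmem.integrable_sq
  rw [← ofReal_integral_eq_lintegral_ofReal hint
    (Filter.Eventually.of_forall fun z => sq_nonneg z)]
  have h3 : ∫ z, z ^ 2 ∂(gaussianReal 0 1) = 1 := by
    have h4 := variance_fun_id_gaussianReal (μ := 0) (v := 1)
    rw [variance_eq_integral (by fun_prop)] at h4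
    simpa [integral_id_gaussianReal] using h4
  rw [h3]; simp

theorem main : S_MASS := by
  intro V _ _ o a κ hκ hao hxo
  have hV : (Finset.univ : Finset V).Nonempty := ⟨o, Finset.mem_univ o⟩
  have hκs : 0 < √κ := Real.sqrt_pos.2 hκ
  have hX0 : ∀ g, 0 ≤ mx Finset.univ a g := by
    intro g
    refine le_trans (le_of_eq ?_) (le_mx a (Finset.mem_univ o) g)
    unfold dotp
    simp [hao]
  have hXm : Measurable (mx Finset.univ a) := (mx_cont _ a).measurable
  have hdm : ∀ x, Measurable (dotp (a x)) := fun x => by unfold dotp; fun_prop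
  -- the reflection
  set ρ : (V → ℝ) → (V → ℝ) := fun g u => if u = o then g u else -g u with hρ
  have hρmp : MeasurePreserving ρ (gam V) (gam V) := by
    have hneg : MeasurePreserving (fun z : ℝ => -z) (gaussianReal 0 1) (gaussianReal 0 1) := by
      refine ⟨measurable_neg, ?_⟩
      have := gaussianReal_map_neg (μ := 0) (v := 1)
      rwa [neg_zero] at this
    have h1 : ∀ u : V, MeasurePreserving (fun z : ℝ => if u = o then z else -z)
        (gaussianReal 0 1) (gaussianReal 0 1) := by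
      intro u
      by_cases h : u = o
      · simp only [h, if_true]; exact MeasurePreserving.id _
      · simp only [h, if_false]; exact hneg
    exact measurePreserving_pi (fun _ => gaussianReal 0 1) (fun _ => gaussianReal 0 1) h1
  have hρo : ∀ g, ρ g o = g o := fun g => by rw [hρ]; simp
  have hρd : ∀ g x, dotp (a x) (ρ g) = -dotp (a x) g := by
    intro g x
    unfold dotp
    rw [← Finset.sum_neg_distrib]
    refine Finset.sum_congr rfl fun u _ => ?_
    by_cases h : u = o
    · rw [h, hxo]; simp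
    · rw [hρ]; simp only [h, if_false]; ring
  set A : Set (V → ℝ) := {g | ∀ x, 0 < g o / √κ + dotp (a x) g} with hA
  have hAm : MeasurableSet A := by
    have : A = ⋂ x, {g | 0 < g o / √κ + dotp (a x) g} := by ext g; simp [hA]
    rw [this]
    refine MeasurableSet.iInter fun x => ?_
    exact measurableSet_lt measurable_const (((measurable_pi_apply o).div_const _).add (hdm x))
  have hsq : Measurable (fun g : V → ℝ => ENNReal.ofReal (g o ^ 2)) := by fun_prop
  have hpre : ρ ⁻¹' A = {g | mx Finset.univ a g < g o / √κ} := by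
    ext g
    rw [mem_preimage, hA, mem_ofPred_eq, mem_ofPred_eq, mx_lt_iff hV]
    simp only [hρo, hρd, Finset.mem_univ, forall_true_left]
    exact forall_congr' fun x => by constructor <;> intro h <;> linarith
  have hstep1 : ∫⁻ g in A, ENNReal.ofReal (g o ^ 2) ∂(gam V) =
      ∫⁻ g in {g | mx Finset.univ a g < g o / √κ}, ENNReal.ofReal (g o ^ 2) ∂(gam V) := by
    rw [← hρmp.setLIntegral_comp_preimage hAm hsq, hpre]
    simp only [hρo]
  rw [hstep1]
  -- the splitting
  set S1 : Set (V → ℝ) := {g | 20 < g o} with hS1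
  set S2 : Set (V → ℝ) := {g | 0 < g o ∧ mx Finset.univ a g < 20 / √κ} with hS2
  have hsub : {g | mx Finset.univ a g < g o / √κ} ⊆ S1 ∪ S2 := by
    intro g hg
    have hg' : mx Finset.univ a g < g o / √κ := hg
    by_cases h : 20 < g o
    · exact Or.inl h
    · right
      have h1 : 0 < g o / √κ := lt_of_le_of_lt (hX0 g) hg'
      refine ⟨by rwa [div_pos_iff_of_pos_right hκs] at h1, lt_of_lt_of_le hg' ?_⟩
      exact div_le_div_of_nonneg_right (not_lt.1 h) hκs.le
  have hev : MeasurePreserving (fun g : V → ℝ => g o) (gam V) (gaussianReal 0 1) :=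
    measurePreserving_eval (fun _ : V => gaussianReal 0 1) o
  have hz2 : Measurable (fun z : ℝ => ENNReal.ofReal (z ^ 2)) := by fun_prop
  have hI1 : ∫⁻ g in S1, ENNReal.ofReal (g o ^ 2) ∂(gam V) ≤ ENNReal.ofReal (1 / 8) := by
    have h1 : ∫⁻ g in S1, ENNReal.ofReal (g o ^ 2) ∂(gam V) =
        ∫⁻ z in Ioi (20 : ℝ), ENNReal.ofReal (z ^ 2) ∂(gaussianReal 0 1) :=
      hev.setLIntegral_comp_preimage measurableSet_Ioi hz2
    rw [h1]; exact tail
  -- independence
  set ext : ((({o} : Finset V)ᶜ : Finset V) → ℝ) → V → ℝ := fun h u =>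
    if hu : u ∈ (({o} : Finset V)ᶜ : Finset V) then h ⟨u, hu⟩ else 0 with hext
  have hextm : Measurable ext := by
    rw [measurable_pi_iff]
    intro u
    rw [hext]
    by_cases hu : u ∈ (({o} : Finset V)ᶜ : Finset V)
    · simp only [hu, dite_true]; exact measurable_pi_apply _
    · simp only [hu, dite_false]; exact measurable_const
  have hXext : ∀ g : V → ℝ, mx Finset.univ a (ext fun u => g u) = mx Finset.univ a g := by
    intro g
    have h1 : ∀ x, dotp (a x) (ext fun u => g u) = dotp (a x) g := by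
      intro x
      unfold dotp
      refine Finset.sum_congr rfl fun u _ => ?_
      by_cases hu : u = o
      · rw [hu, hxo]; simp
      · rw [hext]; simp [hu]
    unfold mx
    simp only [h1]
  have hind : IndepFun (fun g : V → ℝ => g o) (fun g : V → ℝ => mx Finset.univ a g) (gam V) := by
    have h1 : iIndepFun (fun (i : V) (g : V → ℝ) => g i) (gam V) :=
      iIndepFun_pi (μ := fun _ : V => gaussianReal 0 1) (X := fun _ x => x)
        (fun _ => measurable_id.aemeasurable)
    have h2 := h1.indepFun_finset {o} ({o} : Finset V)ᶜ (by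
      rw [Finset.disjoint_left]; intro x hx; simp at hx ⊢; exact hx) (fun i => measurable_pi_apply i)
    have hm0 : Measurable (fun h : ({o} : Finset V) → ℝ => h ⟨o, Finset.mem_singleton_self o⟩) :=
      measurable_pi_apply (X := fun _ : ({o} : Finset V) => ℝ) ⟨o, Finset.mem_singleton_self o⟩
    have h3 := h2.comp (φ := fun h : ({o} : Finset V) → ℝ => h ⟨o, Finset.mem_singleton_self o⟩)
      (ψ := fun h => mx Finset.univ a (ext h)) hm0 (hXm.comp hextm)
    have h4 : ((fun h : (({o} : Finset V)ᶜ : Finset V) → ℝ => mx Finset.univ a (ext h)) ∘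
        fun (g : V → ℝ) (i : (({o} : Finset V)ᶜ : Finset V)) => g i) =
        fun g : V → ℝ => mx Finset.univ a g := by
      funext g; exact hXext g
    rw [h4] at h3
    exact h3
  have hI2 : 2 * ∫⁻ g in S2, ENNReal.ofReal (g o ^ 2) ∂(gam V) ≤
      gam V {g | mx Finset.univ a g < 20 / √κ} := by
    have hm1 : MeasurableSet {g : V → ℝ | 0 < g o} :=
      measurableSet_lt measurable_const (measurable_pi_apply o)
    have hm2 : MeasurableSet {g : V → ℝ | mx Finset.univ a g < 20 / √κ} :=
      measurableSet_lt hXm measurable_const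
    have hS2m : MeasurableSet S2 := hm1.inter hm2
    set F : (V → ℝ) → ℝ≥0∞ := fun g => (Ioi (0 : ℝ)).indicator (fun z => ENNReal.ofReal (z ^ 2))
      (g o) with hF
    set H : (V → ℝ) → ℝ≥0∞ := fun g => (Iio (20 / √κ)).indicator (fun _ => (1 : ℝ≥0∞))
      (mx Finset.univ a g) with hH
    have hfm : Measurable ((Ioi (0 : ℝ)).indicator (fun z => ENNReal.ofReal (z ^ 2))) :=
      hz2.indicator measurableSet_Ioi
    have hhm : Measurable ((Iio (20 / √κ)).indicator (fun _ => (1 : ℝ≥0∞))) :=
      measurable_const.indicator measurableSet_Iio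
    have h1 : ∫⁻ g in S2, ENNReal.ofReal (g o ^ 2) ∂(gam V) = ∫⁻ g, F g * H g ∂(gam V) := by
      rw [← lintegral_indicator hS2m]
      refine lintegral_congr fun g => ?_
      rw [hF, hH]
      simp only [Set.indicator_apply, mem_Ioi, mem_Iio, hS2, mem_ofPred_eq]
      by_cases h : 0 < g o <;> by_cases h' : mx Finset.univ a g < 20 / √κ <;> simp [h, h']
    have h2 : ∫⁻ g, F g * H g ∂(gam V) = (∫⁻ g, F g ∂(gam V)) * ∫⁻ g, H g ∂(gam V) := by
      have := lintegral_mul_eq_lintegral_mul_lintegral_of_indepFun (μ := gam V)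
        (f := F) (g := H) (hfm.comp (measurable_pi_apply o)) (hhm.comp hXm)
        (hind.comp hfm hhm)
      simpa using this
    have h3 : ∫⁻ g, F g ∂(gam V) = ∫⁻ z in Ioi (0 : ℝ), ENNReal.ofReal (z ^ 2) ∂(gaussianReal 0 1) := by
      rw [← lintegral_indicator measurableSet_Ioi]
      exact hev.lintegral_comp hfm
    have h4 : ∫⁻ g, H g ∂(gam V) = gam V {g | mx Finset.univ a g < 20 / √κ} := by
      have h5 : H = {g | mx Finset.univ a g < 20 / √κ}.indicator (fun _ => (1 : ℝ≥0∞)) := by
        funext g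
        rw [hH]
        simp only [Set.indicator_apply, mem_Iio, mem_ofPred_eq]
      rw [h5, lintegral_indicator hm2]
      simp
    rw [h1, h2, h3, h4, ← mul_assoc]
    calc _ ≤ 1 * gam V {g | mx Finset.univ a g < 20 / √κ} := mul_le_mul_left half_mom _
      _ = _ := one_mul _
  calc 2 * ∫⁻ g in {g | mx Finset.univ a g < g o / √κ}, ENNReal.ofReal (g o ^ 2) ∂(gam V)
      ≤ 2 * ∫⁻ g in S1 ∪ S2, ENNReal.ofReal (g o ^ 2) ∂(gam V) :=
        mul_le_mul_right (lintegral_mono_set hsub) _
    _ ≤ 2 * (∫⁻ g in S1, ENNReal.ofReal (g o ^ 2) ∂(gam V) +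
        ∫⁻ g in S2, ENNReal.ofReal (g o ^ 2) ∂(gam V)) :=
        mul_le_mul_right (lintegral_union_le _ _ _) _
    _ = 2 * ∫⁻ g in S1, ENNReal.ofReal (g o ^ 2) ∂(gam V) +
        2 * ∫⁻ g in S2, ENNReal.ofReal (g o ^ 2) ∂(gam V) := mul_add _ _ _
    _ ≤ ENNReal.ofReal (1 / 4) + gam V {g | mx Finset.univ a g < 20 / √κ} := by
        refine add_le_add ?_ hI2
        refine (mul_le_mul_right hI1 _).trans (le_of_eq ?_)
        rw [show (2 : ℝ≥0∞) = ENNReal.ofReal 2 by simp, ← ENNReal.ofReal_mul (by norm_num)]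
        norm_num

end Pool.Agent.W782.CTMASS
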