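import Pool.Agent.W823.CT.Stm

/-!
# Orthants
-/

namespace Pool.Agent.W782.CTORTH

open MeasureTheory ProbabilityTheory Pool.Agent.W823.CT Set
open scoped ENNReal BigOperators

theorem one_dim : (volume : Measure ℝ).map (fun x => |x|) =
    (2 : NNReal) • (volume : Measure ℝ).restrict (Ioi 0) := by
  ext s hs
  have hab : Measurable (fun x : ℝ => |x|) := by fun_prop
  rw [Measure.map_apply hab hs, Measure.smul_apply, Measure.restrict_apply hs, ENNReal.smul_def, smul_eq_mul]
  have h1 : volume ((fun x : ℝ => |x|) ⁻¹' s) =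
      volume ((fun x : ℝ => |x|) ⁻¹' s ∩ Ioi 0) + volume ((fun x : ℝ => |x|) ⁻¹' s \ Ioi 0) :=
    (measure_inter_add_sdiff _ measurableSet_Ioi).symm
  have h2 : (fun x : ℝ => |x|) ⁻¹' s ∩ Ioi 0 = s ∩ Ioi 0 := by
    ext x
    simp only [mem_inter_iff, mem_preimage, mem_Ioi]
    constructor
    · rintro ⟨h, h'⟩; rw [abs_of_pos h'] at h; exact ⟨h, h'⟩
    · rintro ⟨h, h'⟩; rw [abs_of_pos h']; exact ⟨h, h'⟩
  have h3 : volume ((fun x : ℝ => |x|) ⁻¹' s \ Ioi 0) =
      volume ((fun x : ℝ => -x) ⁻¹' (s ∩ Ioi 0)) := by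
    apply measure_congr
    have h4 : ∀ᵐ x : ℝ, x ≠ 0 := by
      rw [ae_iff]
      simp
    filter_upwards [h4] with x hx
    apply propext
    show (|x| ∈ s ∧ ¬ (0 < x)) ↔ (-x ∈ s ∧ 0 < -x)
    constructor
    · rintro ⟨h, h'⟩
      have hx' : x < 0 := lt_of_le_of_ne (not_lt.1 h') hx
      rw [abs_of_neg hx'] at h
      exact ⟨h, by linarith⟩
    · rintro ⟨h, h'⟩
      have hx' : x < 0 := by linarith
      rw [abs_of_neg hx']
      exact ⟨h, by linarith⟩
  have h5 : volume ((fun x : ℝ => -x) ⁻¹' (s ∩ Ioi 0)) = volume (s ∩ Ioi 0) :=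
    Measure.measure_preimage_neg _ _
  rw [h1, h2, h3, h5, ENNReal.coe_ofNat, two_mul]

theorem main : S_ORTH := by
  intro V _ _ f hf
  have hmap : (volume : Measure (V → ℝ)).map (fun φ x => |φ x|) =
      (2 : ℝ≥0∞) ^ Fintype.card V • (volume : Measure (V → ℝ)).restrict {φ | ∀ x, 0 < φ x} := by
    have hsf : ∀ _ : V, SigmaFinite ((volume : Measure ℝ).map (fun x => |x|)) := by
      intro _
      rw [one_dim]; infer_instance
    rw [volume_pi]
    have hpm := Measure.pi_map_pi (μ := fun _ : V => (volume : Measure ℝ))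
      (f := fun _ x => |x|) (hμ := hsf) (fun _ => by fun_prop)
    rw [hpm]
    have h0 : (fun _ : V => (volume : Measure ℝ).map (fun x => |x|)) =
      fun _ : V => (2 : NNReal) • (volume : Measure ℝ).restrict (Ioi 0) := funext fun _ => one_dim
    rw [h0]
    apply Measure.pi_eq
    intro s hs
    have hset : {φ : V → ℝ | ∀ x, 0 < φ x} = univ.pi fun _ => Ioi 0 := by
      ext φ; simp
    have hmeas : MeasurableSet (univ.pi s) := MeasurableSet.univ_pi hs
    rw [Measure.smul_apply, Measure.restrict_apply hmeas, hset, ← Set.pi_inter_distrib,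
      Measure.pi_pi]
    simp only [Measure.smul_apply, ENNReal.smul_def, smul_eq_mul, ENNReal.coe_ofNat]
    rw [Finset.prod_mul_distrib, Finset.prod_const, Finset.card_univ]
    congr 1
    refine Finset.prod_congr rfl fun i _ => ?_
    rw [Measure.restrict_apply (hs i)]
  have habs : Measurable (fun (φ : V → ℝ) (x : V) => |φ x|) := by fun_prop
  have h1 : ∫⁻ φ : V → ℝ, f (fun x => |φ x|) =
      ∫⁻ φ, f φ ∂((volume : Measure (V → ℝ)).map (fun φ x => |φ x|)) :=
    (lintegral_map hf habs).symm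
  rw [h1, hmap, lintegral_smul_measure, smul_eq_mul]

end Pool.Agent.W782.CTORTH
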