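import Pool.Agent.W782.RR_Chord

set_option autoImplicit false
open MeasureTheory Set Filter Topology Metric Module
open scoped ENNReal NNReal RealInnerProductSpace

/-!
The potential of the equilibrium density of the ball is constant inside the ball.
-/

namespace Pool.Agent.W782.RR

open Pool.Agent.Helper88.RB Pool.Agent.W784.RR

/-- polar coordinates (as in `H829RQ.POL_polar`) -/
theorem polar (m : ℕ) (f : E (m + 1) → ℝ≥0∞) (hf : Measurable f) :
    ∫⁻ x, f x = ∫⁻ θ : sphere (0 : E (m + 1)) 1,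
      (∫⁻ r in Ioi (0:ℝ), ENNReal.ofReal (r ^ m) * f (r • (θ : E (m + 1))))
      ∂((volume : Measure (E (m + 1))).toSphere) := by
  have hfr : finrank ℝ (E (m + 1)) - 1 = m := by
    rw [finrank_euclideanSpace_fin]; rfl
  have h1 : ∫⁻ x, f x = ∫⁻ x : ({0}ᶜ : Set (E (m + 1))), f x
      ∂((volume : Measure (E (m + 1))).comap (↑)) := by
    rw [lintegral_subtype_comap (measurableSet_singleton (0 : E (m + 1))).compl,
      restrict_compl_singleton]
  have hmp := (volume : Measure (E (m + 1))).measurePreserving_homeomorphUnitSphereProd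
  rw [hfr] at hmp
  have h2 := hmp.lintegral_comp_emb (Homeomorph.measurableEmbedding _)
    (fun p => f ((p.2 : ℝ) • (p.1 : E (m + 1))))
  have h3 : ∀ x : ({0}ᶜ : Set (E (m + 1))), f (((homeomorphUnitSphereProd (E (m + 1)) x).2 : ℝ) •
      ((homeomorphUnitSphereProd (E (m + 1)) x).1 : E (m + 1))) = f x := by
    intro x
    have := (homeomorphUnitSphereProd (E (m + 1))).symm_apply_apply x
    have h4 : ((homeomorphUnitSphereProd (E (m + 1)) x).2 : ℝ) •
        ((homeomorphUnitSphereProd (E (m + 1)) x).1 : E (m + 1)) = x := by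
      conv_rhs => rw [← this]
      rfl
    simp only [h4]
  simp only [h3] at h2
  have hm2 : Measurable (fun p : sphere (0 : E (m + 1)) 1 × Ioi (0:ℝ) =>
      f ((p.2 : ℝ) • (p.1 : E (m + 1)))) := by
    apply hf.comp
    exact (measurable_subtype_coe.comp measurable_snd).smul
      (measurable_subtype_coe.comp measurable_fst)
  rw [h1, h2, lintegral_prod _ hm2.aemeasurable]
  refine lintegral_congr fun θ => ?_
  unfold Measure.volumeIoiPow
  have hm3 : Measurable (fun r : Ioi (0:ℝ) => f ((r : ℝ) • (θ : E (m + 1)))) :=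
    hf.comp (measurable_subtype_coe.smul_const _)
  rw [lintegral_withDensity_eq_lintegral_mul _ (by fun_prop) hm3]
  rw [← lintegral_subtype_comap measurableSet_Ioi]
  rfl

lemma two_sided (F : ℝ → ℝ≥0∞) :
    (∫⁻ r in Ioi (0:ℝ), F r) + (∫⁻ r in Ioi (0:ℝ), F (-r)) = ∫⁻ t, F t := by
  have h4 : (fun t : ℝ => -t) '' Ioi 0 = Iio (0:ℝ) := by simp
  have h1 : ∫⁻ r in Ioi (0:ℝ), F (-r) = ∫⁻ r in Iio (0:ℝ), F r := by
    rw [← h4, lintegral_image_eq_lintegral_abs_deriv_mul measurableSet_Ioi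
      (f' := fun _ => -1) (fun x _ => (hasDerivAt_neg x).hasDerivWithinAt)
      (neg_injective.injOn)]
    simp
  rw [h1, setLIntegral_congr Iio_ae_eq_Iic]
  have h2 : (Iic (0:ℝ)) = (Ioi (0:ℝ))ᶜ := by simp
  rw [h2, lintegral_add_compl _ measurableSet_Ioi]

lemma dens_measurable (n : ℕ) (q : ℝ) : Measurable (dens n q) := by
  unfold dens
  apply Measurable.ite
  · exact measurableSet_lt (by fun_prop) measurable_const
  · fun_prop
  · exact measurable_const

/-- the universal constant -/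
noncomputable def KK (σ : ℝ) : ℝ≥0∞ := ∫⁻ y in Ioi (0:ℝ), ENNReal.ofReal (y ^ (-σ) * (1 + y)⁻¹)

lemma line_integral (m : ℕ) (q : ℝ) (x θ : E (m + 1)) (hx : ‖x‖ < 1) (hθ : ‖θ‖ = 1) :
    ∫⁻ t : ℝ, ENNReal.ofReal (|t| ^ ((m : ℝ) - q)) * dens (m + 1) q (x + t • θ)
      = KK ((((m + 1 : ℕ) : ℝ) - q) / 2) := by
  set σ : ℝ := (((m + 1 : ℕ) : ℝ) - q) / 2 with hσ
  set c : ℝ := inner ℝ x θ with hc
  have he : 0 < 1 - ‖x‖ ^ 2 := by
    have := norm_nonneg x
    nlinarith
  set s : ℝ := Real.sqrt (c ^ 2 + (1 - ‖x‖ ^ 2)) with hs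
  have hs2 : s ^ 2 = c ^ 2 + (1 - ‖x‖ ^ 2) := Real.sq_sqrt (by positivity)
  have hsc : |c| < s := by
    apply Real.lt_sqrt_of_sq_lt
    rw [sq_abs]
    linarith
  have hc1 : 0 < c + s := by
    have := neg_abs_le c
    linarith
  have hc2 : 0 < -c + s := by
    have := le_abs_self c
    linarith
  unfold KK
  rw [← chord_eq hc1 hc2, ← lintegral_indicator measurableSet_Ioo]
  apply lintegral_congr
  intro t
  have h1 : 1 - ‖x + t • θ‖ ^ 2 = (t + (c + s)) * (-c + s - t) := by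
    rw [norm_add_sq_real, norm_smul, inner_smul_right, ← hc, hθ, mul_one, Real.norm_eq_abs,
      sq_abs]
    linear_combination (-1 : ℝ) * hs2
  have h2 : ‖x + t • θ‖ < 1 ↔ t ∈ Ioo (-(c + s)) (-c + s) := by
    have h3 : ‖x + t • θ‖ < 1 ↔ 0 < 1 - ‖x + t • θ‖ ^ 2 := by
      constructor
      · intro h
        have := norm_nonneg (x + t • θ)
        nlinarith
      · intro h
        by_contra hcon
        push Not at hcon
        nlinarith
    rw [h3, h1, mem_Ioo]
    constructor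
    · intro h
      rcases pos_and_pos_or_neg_and_neg_of_mul_pos h with ⟨h4, h5⟩ | ⟨h4, h5⟩
      · exact ⟨by linarith, by linarith⟩
      · exfalso; linarith
    · rintro ⟨h4, h5⟩
      exact mul_pos (by linarith) (by linarith)
  unfold dens
  by_cases h3 : ‖x + t • θ‖ < 1
  · rw [if_pos h3, indicator_of_mem (h2.mp h3), h1, ← ENNReal.ofReal_mul (by positivity)]
    congr 3
    rw [hσ]; push_cast; ring
  · rw [if_neg h3, indicator_of_notMem (fun h => h3 (h2.mpr h)), mul_zero]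

lemma pot_eq (m : ℕ) (q : ℝ) (x : E (m + 1)) (hx : ‖x‖ < 1) :
    (∫⁻ w, dens (m + 1) q w * (ENNReal.ofReal (dist x w)) ^ (-q)) +
    (∫⁻ w, dens (m + 1) q w * (ENNReal.ofReal (dist x w)) ^ (-q)) =
    KK ((((m + 1 : ℕ) : ℝ) - q) / 2) * (volume : Measure (E (m + 1))).toSphere univ := by
  have hd := dens_measurable (m + 1) q
  have h1 : ∫⁻ w, dens (m + 1) q w * (ENNReal.ofReal (dist x w)) ^ (-q)
      = ∫⁻ v, dens (m + 1) q (x + v) * (ENNReal.ofReal ‖v‖) ^ (-q) := by
    rw [← lintegral_add_left_eq_self _ x]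
    apply lintegral_congr
    intro v
    rw [dist_eq_norm]
    congr 3
    rw [← norm_neg]; congr 1; abel
  have h2 : ∫⁻ v, dens (m + 1) q (x + v) * (ENNReal.ofReal ‖v‖) ^ (-q)
      = ∫⁻ v, dens (m + 1) q (x + -v) * (ENNReal.ofReal ‖v‖) ^ (-q) := by
    rw [← lintegral_neg_eq_self]
    simp only [norm_neg]
  have hm1 : Measurable (fun v : E (m + 1) => dens (m + 1) q (x + v)
      * (ENNReal.ofReal ‖v‖) ^ (-q)) := by
    apply Measurable.mul
    · exact hd.comp (by fun_prop)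
    · fun_prop
  have hm2 : Measurable (fun v : E (m + 1) => dens (m + 1) q (x + -v)
      * (ENNReal.ofReal ‖v‖) ^ (-q)) := by
    apply Measurable.mul
    · exact hd.comp (by fun_prop)
    · fun_prop
  have h3 : ∀ (e : ℝ) (θ : sphere (0 : E (m + 1)) 1),
      ∫⁻ r in Ioi (0:ℝ), ENNReal.ofReal (r ^ m) * (dens (m + 1) q (x + e • (r • (θ : E (m + 1))))
      * (ENNReal.ofReal ‖r • (θ : E (m + 1))‖) ^ (-q)) =
      ∫⁻ r in Ioi (0:ℝ), ENNReal.ofReal (|r| ^ ((m : ℝ) - q)) *
        dens (m + 1) q (x + (e * r) • (θ : E (m + 1))) := by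
    intro e θ
    apply setLIntegral_congr_fun measurableSet_Ioi
    intro r hr
    have hr' : 0 < r := hr
    have hθ : ‖(θ : E (m + 1))‖ = 1 := by
      have := θ.2
      simpa using this
    simp only
    rw [norm_smul, hθ, mul_one, Real.norm_eq_abs, abs_of_pos hr', smul_smul,
      ENNReal.ofReal_rpow_of_pos hr', Real.rpow_sub hr', Real.rpow_natCast, Real.rpow_neg hr'.le,
      div_eq_mul_inv, ENNReal.ofReal_mul (by positivity)]
    ring
  have h4 : ∫⁻ w, dens (m + 1) q w * (ENNReal.ofReal (dist x w)) ^ (-q)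
      = ∫⁻ θ : sphere (0 : E (m + 1)) 1, (∫⁻ r in Ioi (0:ℝ), ENNReal.ofReal (|r| ^ ((m : ℝ) - q)) *
        dens (m + 1) q (x + r • (θ : E (m + 1)))) ∂((volume : Measure (E (m + 1))).toSphere) := by
    rw [h1, polar m _ hm1]
    apply lintegral_congr
    intro θ
    have := h3 1 θ
    simpa using this
  have h5 : ∫⁻ w, dens (m + 1) q w * (ENNReal.ofReal (dist x w)) ^ (-q)
      = ∫⁻ θ : sphere (0 : E (m + 1)) 1, (∫⁻ r in Ioi (0:ℝ), ENNReal.ofReal (|-r| ^ ((m : ℝ) - q)) *
        dens (m + 1) q (x + (-r) • (θ : E (m + 1)))) ∂((volume : Measure (E (m + 1))).toSphere) := by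
    rw [h1, h2, polar m _ hm2]
    apply lintegral_congr
    intro θ
    have := h3 (-1) θ
    simpa using this
  conv_lhs =>
    congr
    · rw [h4]
    · rw [h5]
  rw [← lintegral_add_left]
  · have h6 : ∀ θ : sphere (0 : E (m + 1)) 1,
        (∫⁻ r in Ioi (0:ℝ), ENNReal.ofReal (|r| ^ ((m : ℝ) - q)) *
          dens (m + 1) q (x + r • (θ : E (m + 1)))) +
        (∫⁻ r in Ioi (0:ℝ), ENNReal.ofReal (|-r| ^ ((m : ℝ) - q)) *
          dens (m + 1) q (x + (-r) • (θ : E (m + 1)))) = KK ((((m + 1 : ℕ) : ℝ) - q) / 2) := by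
      intro θ
      rw [two_sided (fun r : ℝ => ENNReal.ofReal (|r| ^ ((m : ℝ) - q)) *
          dens (m + 1) q (x + r • (θ : E (m + 1))))]
      exact line_integral m q x θ hx (by simpa using θ.2)
    simp only [h6]
    rw [lintegral_const]
  · apply Measurable.lintegral_prod_right'
      (f := fun p : sphere (0 : E (m + 1)) 1 × ℝ => ENNReal.ofReal (|p.2| ^ ((m : ℝ) - q)) *
        dens (m + 1) q (x + p.2 • (p.1 : E (m + 1))))
    apply Measurable.mul
    · fun_prop
    · apply hd.comp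
      exact measurable_const.add (measurable_snd.smul (measurable_subtype_coe.comp measurable_fst))

lemma KK_ne_zero (σ : ℝ) : KK σ ≠ 0 := by
  unfold KK
  intro h
  rw [lintegral_eq_zero_iff (by fun_prop), Filter.EventuallyEq,
    ae_restrict_iff' measurableSet_Ioi] at h
  have h2 : ∀ᵐ y : ℝ, y ∉ Ioi (0:ℝ) := by
    filter_upwards [h] with y hy hy'
    have h3 := hy hy'
    have h4 : 0 < y := hy'
    simp only [Pi.zero_apply, ENNReal.ofReal_eq_zero] at h3
    have : 0 < y ^ (-σ) * (1 + y)⁻¹ := by positivity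
    linarith
  have h3 := ae_iff.mp h2
  have h4 : {a : ℝ | ¬ a ∉ Ioi (0:ℝ)} = Ioi 0 := by ext; simp
  rw [h4, Real.volume_Ioi] at h3
  exact ENNReal.top_ne_zero h3

lemma KK_ne_top {σ : ℝ} (h0 : 0 < σ) (h1 : σ < 1) : KK σ ≠ ∞ := by
  unfold KK
  have h2 : Ioi (0:ℝ) = Ioc 0 1 ∪ Ioi 1 := (Ioc_union_Ioi_eq_Ioi zero_le_one).symm
  rw [h2]
  refine ne_top_of_le_ne_top ?_ (lintegral_union_le _ _ _)
  refine ENNReal.add_ne_top.mpr ⟨?_, ?_⟩
  · have h3 : IntegrableOn (fun x : ℝ => x ^ (-σ)) (Ioc 0 1) := by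
      rw [← intervalIntegrable_iff_integrableOn_Ioc_of_le zero_le_one]
      exact intervalIntegral.intervalIntegrable_rpow' (by linarith)
    refine ne_top_of_le_ne_top h3.lintegral_lt_top.ne ?_
    apply setLIntegral_mono (by fun_prop)
    intro y hy
    apply ENNReal.ofReal_le_ofReal
    have hy0 : 0 < y := hy.1
    have : (1 + y)⁻¹ ≤ 1 := inv_le_one_of_one_le₀ (by linarith)
    exact mul_le_of_le_one_right (by positivity) this
  · have h3 : IntegrableOn (fun x : ℝ => x ^ (-σ - 1)) (Ioi 1) :=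
      integrableOn_Ioi_rpow_of_lt (by linarith) one_pos
    refine ne_top_of_le_ne_top h3.lintegral_lt_top.ne ?_
    apply setLIntegral_mono (by fun_prop)
    intro y hy
    apply ENNReal.ofReal_le_ofReal
    have hy0 : 0 < y := lt_trans one_pos hy
    have : (1 + y)⁻¹ ≤ y⁻¹ := inv_anti₀ hy0 (by linarith)
    rw [Real.rpow_sub hy0, Real.rpow_one, div_eq_mul_inv]
    exact mul_le_mul_of_nonneg_left this (by positivity)

theorem PInside : Pool.Agent.W784.RR.PInside := by
  intro n q hn hq hnq hqn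
  obtain ⟨m, rfl⟩ : ∃ m, n = m + 1 := ⟨n - 1, by omega⟩
  have hσ0 : 0 < (((m + 1 : ℕ) : ℝ) - q) / 2 := by linarith
  have hσ1 : (((m + 1 : ℕ) : ℝ) - q) / 2 < 1 := by linarith
  have hS0 : (volume : Measure (E (m + 1))).toSphere univ ≠ 0 := by
    rw [Measure.toSphere_apply_univ, finrank_euclideanSpace_fin]
    exact mul_ne_zero (by simp) (measure_ball_pos _ _ one_pos).ne'
  have hS1 : (volume : Measure (E (m + 1))).toSphere univ ≠ ∞ := measure_ne_top _ _
  have h0 := pot_eq m q 0 (by simp)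
  refine ⟨?_, ?_, ?_⟩
  · intro h
    rw [h, add_zero] at h0
    exact (mul_ne_zero (KK_ne_zero _) hS0) h0.symm
  · intro h
    rw [h, top_add] at h0
    exact (ENNReal.mul_ne_top (KK_ne_top hσ0 hσ1) hS1) h0.symm
  · intro x hx
    have h1 := pot_eq m q x hx
    rw [← h0, ← two_mul, ← two_mul] at h1
    exact (ENNReal.mul_right_inj (by norm_num) (by norm_num)).mp h1

end Pool.Agent.W782.RR
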