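import Pool.Agent.W784.RR.Defs

set_option autoImplicit false
open MeasureTheory Set Filter Topology
open scoped ENNReal NNReal

/-!
The one-variable mixture identity.
-/

namespace Pool.Agent.W782.RR.Mix

open Pool.Agent.W784.RR

/-- continuous extension of `Ec` to the line -/
noncomputable def ec (n : ℕ) (q κ : ℝ) : ℝ := Ec n q (max κ 0)

lemma ec_cont (hC : PCalc) {n : ℕ} {q : ℝ} (hq : 0 < q) (hqn : q < n) : Continuous (ec n q) := by
  obtain ⟨-, -, -, -, hc, -⟩ := hC n q hq hqn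
  unfold ec
  exact hc.comp_continuous (by fun_prop) (fun x => mem_Ici.mpr (le_max_right _ _))

lemma ec_eq {n : ℕ} {q κ : ℝ} (h : 0 ≤ κ) : ec n q κ = Ec n q κ := by
  unfold ec; rw [max_eq_left h]

/-- the mixing function -/
noncomputable def g (n : ℕ) (q θ r : ℝ) : ℝ :=
  θ ^ (((n : ℝ) - q) / 2) * (θ + (1 - θ) * r ^ 2) ^ (-(n : ℝ) / 2)

/-- minus its derivative -/
noncomputable def c (n : ℕ) (q θ r : ℝ) : ℝ :=
  θ ^ (((n : ℝ) - q) / 2) * n * (1 - θ) * r * (θ + (1 - θ) * r ^ 2) ^ (-(n : ℝ) / 2 - 1)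

lemma B_pos {θ : ℝ} (h0 : 0 < θ) (h1 : θ < 1) (r : ℝ) : 0 < θ + (1 - θ) * r ^ 2 := by
  have : 0 < 1 - θ := by linarith
  positivity

lemma g_deriv {n : ℕ} {q θ : ℝ} (h0 : 0 < θ) (h1 : θ < 1) (r : ℝ) :
    HasDerivAt (g n q θ) (-c n q θ r) r := by
  have hB := B_pos h0 h1 r
  have h2 : HasDerivAt (fun r : ℝ => θ + (1 - θ) * r ^ 2) ((1 - θ) * (2 * r)) r := by
    have := ((hasDerivAt_pow 2 r).const_mul (1 - θ)).const_add θ
    simpa using this
  have h3 := (h2.rpow_const (p := -(n : ℝ) / 2) (Or.inl hB.ne')).const_mul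
    (θ ^ (((n : ℝ) - q) / 2))
  refine h3.congr_deriv ?_
  unfold c
  ring

lemma g_cont {n : ℕ} {q θ : ℝ} (h0 : 0 < θ) (h1 : θ < 1) : Continuous (g n q θ) :=
  continuous_iff_continuousAt.mpr fun r => (g_deriv h0 h1 r).continuousAt

lemma c_cont {n : ℕ} {q θ : ℝ} (h0 : 0 < θ) (h1 : θ < 1) : Continuous (c n q θ) := by
  unfold c
  apply Continuous.mul (by fun_prop)
  apply Continuous.rpow_const (by fun_prop)
  intro r
  exact Or.inl (B_pos h0 h1 r).ne'

/-- the argument -/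
noncomputable def kap (θ t ρ : ℝ) : ℝ :=
  ρ * Real.sqrt ((1 - θ) * t ^ 2 + θ) / (t * Real.sqrt (θ + (1 - θ) * ρ ^ 2))

lemma kap_deriv {θ t : ℝ} (h0 : 0 < θ) (h1 : θ < 1) (ht : 0 < t) (ρ : ℝ) :
    HasDerivAt (kap θ t) (Real.sqrt ((1 - θ) * t ^ 2 + θ) * θ /
      (t * (Real.sqrt (θ + (1 - θ) * ρ ^ 2) * (θ + (1 - θ) * ρ ^ 2)))) ρ := by
  have hB := B_pos h0 h1 ρ
  have hsB : 0 < Real.sqrt (θ + (1 - θ) * ρ ^ 2) := Real.sqrt_pos.mpr hB
  have h2 : HasDerivAt (fun r : ℝ => θ + (1 - θ) * r ^ 2) ((1 - θ) * (2 * ρ)) ρ := by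
    have := ((hasDerivAt_pow 2 ρ).const_mul (1 - θ)).const_add θ
    simpa using this
  have h3 := h2.sqrt hB.ne'
  have h4 := ((hasDerivAt_id ρ).mul_const (Real.sqrt ((1 - θ) * t ^ 2 + θ))).fun_div
    (h3.const_mul t) (by positivity)
  refine h4.congr_deriv ?_
  have h5 : Real.sqrt (θ + (1 - θ) * ρ ^ 2) ^ 2 = θ + (1 - θ) * ρ ^ 2 := Real.sq_sqrt hB.le
  set s := Real.sqrt (θ + (1 - θ) * ρ ^ 2) with hs
  have h6 : θ + (1 - θ) * ρ ^ 2 = s ^ 2 := h5.symm
  rw [h6]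
  simp only [id, one_mul]
  field_simp
  linear_combination (Real.sqrt ((1 - θ) * t ^ 2 + θ)) * h5

lemma kap_sq {θ t : ℝ} (h0 : 0 < θ) (h1 : θ < 1) (ht : 0 < t) (ρ : ℝ) :
    1 - kap θ t ρ ^ 2 = θ * (1 - (ρ / t) ^ 2) * (θ + (1 - θ) * ρ ^ 2)⁻¹ := by
  have hB := B_pos h0 h1 ρ
  have hA := B_pos h0 h1 t
  have hA' : 0 < (1 - θ) * t ^ 2 + θ := by linarith
  unfold kap
  rw [div_pow, mul_pow, mul_pow, Real.sq_sqrt hA'.le, Real.sq_sqrt hB.le]
  obtain ⟨B, hBd⟩ : ∃ B, B = θ + (1 - θ) * ρ ^ 2 := ⟨_, rfl⟩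
  rw [← hBd] at hB ⊢
  field_simp
  rw [hBd]
  ring

lemma key {n : ℕ} {q θ t ρ : ℝ} (h0 : 0 < θ) (h1 : θ < 1) (hρ : 0 < ρ) (hρt : ρ < t) :
    ((1 - θ) * t ^ 2 + θ) ^ (-q / 2) * (wt n q (kap θ t ρ) *
      (Real.sqrt ((1 - θ) * t ^ 2 + θ) * θ /
      (t * (Real.sqrt (θ + (1 - θ) * ρ ^ 2) * (θ + (1 - θ) * ρ ^ 2))))) =
    g n q θ ρ * (wt n q (ρ / t) * t⁻¹) := by
  have ht : 0 < t := hρ.trans hρt
  have hB := B_pos h0 h1 ρ
  have hA' := B_pos h0 h1 t
  have hA : 0 < (1 - θ) * t ^ 2 + θ := by linarith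
  have hs : 0 < 1 - (ρ / t) ^ 2 := by
    have h2 : ρ / t < 1 := (div_lt_one ht).mpr hρt
    have h3 : 0 < ρ / t := by positivity
    nlinarith
  unfold wt
  rw [kap_sq h0 h1 ht]
  have hk : kap θ t ρ = (ρ / t) * ((1 - θ) * t ^ 2 + θ) ^ ((1:ℝ) / 2) *
      (θ + (1 - θ) * ρ ^ 2) ^ (-(1:ℝ) / 2) := by
    unfold kap
    have e1 : (-(1:ℝ) / 2) = -(1 / 2) := by ring
    rw [e1, Real.rpow_neg hB.le, ← Real.sqrt_eq_rpow, ← Real.sqrt_eq_rpow]
    have : 0 < Real.sqrt (θ + (1 - θ) * ρ ^ 2) := Real.sqrt_pos.mpr hB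
    field_simp
  rw [hk]
  unfold g
  set A := (1 - θ) * t ^ 2 + θ with hAd
  set B := θ + (1 - θ) * ρ ^ 2 with hBd
  set S := 1 - (ρ / t) ^ 2 with hSd
  set x := ρ / t with hx
  have hx0 : 0 < x := by positivity
  rw [Real.sqrt_eq_rpow, Real.sqrt_eq_rpow, Real.mul_rpow (by positivity) (by positivity),
    Real.mul_rpow (by positivity) (by positivity), Real.mul_rpow (by positivity) (by positivity),
    Real.mul_rpow (by positivity) (by positivity), ← Real.rpow_mul hA.le, ← Real.rpow_mul hB.le,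
    Real.inv_rpow hB.le, ← Real.rpow_neg hB.le]
  have eA : A ^ (-q / 2) * A ^ ((1:ℝ) / 2 * (q - 1)) * A ^ ((1:ℝ) / 2) = 1 := by
    rw [← Real.rpow_add hA, ← Real.rpow_add hA]
    have : -q / 2 + 1 / 2 * (q - 1) + 1 / 2 = 0 := by ring
    rw [this, Real.rpow_zero]
  have eB : B ^ (-(1:ℝ) / 2 * (q - 1)) * B ^ (-(((n : ℝ) - q) / 2 - 1)) *
      (B ^ ((1:ℝ) / 2) * B)⁻¹ = B ^ (-(n : ℝ) / 2) := by
    have e1 : (B ^ ((1:ℝ) / 2) * B)⁻¹ = B ^ (-(3:ℝ) / 2) := by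
      have : B ^ ((1:ℝ) / 2) * B = B ^ ((3:ℝ) / 2) := by
        nth_rewrite 2 [← Real.rpow_one B]
        rw [← Real.rpow_add hB]; norm_num
      rw [this, ← Real.rpow_neg hB.le]; congr 1; norm_num
    rw [e1, ← Real.rpow_add hB, ← Real.rpow_add hB]
    congr 1; ring
  have eθ : θ ^ (((n : ℝ) - q) / 2 - 1) * θ = θ ^ (((n : ℝ) - q) / 2) := by
    nth_rewrite 2 [← Real.rpow_one θ]
    rw [← Real.rpow_add h0]; congr 1; ring
  rw [← eB, ← eθ]
  calc _ = (A ^ (-q / 2) * A ^ ((1:ℝ) / 2 * (q - 1)) * A ^ ((1:ℝ) / 2)) *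
        ((θ ^ (((n : ℝ) - q) / 2 - 1) * θ) * (B ^ (-(1:ℝ) / 2 * (q - 1)) *
          B ^ (-(((n : ℝ) - q) / 2 - 1)) * (B ^ ((1:ℝ) / 2) * B)⁻¹) *
          (x ^ (q - 1) * S ^ (((n : ℝ) - q) / 2 - 1) * t⁻¹)) := by
        field_simp
    _ = _ := by rw [eA, one_mul]

lemma kap_cont {θ t : ℝ} (h0 : 0 < θ) (h1 : θ < 1) (ht : 0 < t) : Continuous (kap θ t) :=
  continuous_iff_continuousAt.mpr fun r => (kap_deriv h0 h1 ht r).continuousAt

/-- the identity on `(0, t]` -/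
lemma ident (hC : PCalc) {n : ℕ} {q θ t ρ : ℝ} (hq : 0 < q) (hqn : q < n) (h0 : 0 < θ)
    (h1 : θ < 1) (hρ : 0 < ρ) (hρt : ρ ≤ t) :
    g n q θ ρ * Ec n q (ρ / t) + ∫ r in (0:ℝ)..ρ, c n q θ r * ec n q (r / t) =
      ((1 - θ) * t ^ 2 + θ) ^ (-q / 2) * Ec n q (kap θ t ρ) := by
  have ht : 0 < t := hρ.trans_le hρt
  have hc := ec_cont hC hq hqn
  obtain ⟨hBc, -, hE0, -, -, -, -, hEd, -⟩ := hC n q hq hqn
  have hcc : Continuous (fun r => c n q θ r * ec n q (r / t)) :=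
    (c_cont h0 h1).mul (hc.comp (by fun_prop))
  set Φ : ℝ → ℝ := fun ρ => g n q θ ρ * ec n q (ρ / t)
    + (∫ r in (0:ℝ)..ρ, c n q θ r * ec n q (r / t))
    - ((1 - θ) * t ^ 2 + θ) ^ (-q / 2) * ec n q (kap θ t ρ) with hΦ
  have hid : ∀ x, HasDerivAt (fun ρ => ∫ r in (0:ℝ)..ρ, c n q θ r * ec n q (r / t))
      (c n q θ x * ec n q (x / t)) x := fun x =>
    intervalIntegral.integral_hasDerivAt_right (hcc.intervalIntegrable _ _)
      (hcc.stronglyMeasurableAtFilter _ _) hcc.continuousAt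
  have hicont : Continuous (fun ρ => ∫ r in (0:ℝ)..ρ, c n q θ r * ec n q (r / t)) :=
    continuous_iff_continuousAt.mpr fun r => (hid r).continuousAt
  have hΦc : Continuous Φ := by
    apply Continuous.sub
    · apply Continuous.add
      · exact (g_cont h0 h1).mul (hc.comp (by fun_prop))
      · exact hicont
    · exact continuous_const.mul (hc.comp (kap_cont h0 h1 ht))
  have hec : ∀ x ∈ Ioo (0:ℝ) 1, HasDerivAt (ec n q) (wt n q x / Bc n q) x := by
    intro x hx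
    apply (hEd x hx).congr_of_eventuallyEq
    filter_upwards [lt_mem_nhds hx.1] with y hy
    exact ec_eq hy.le
  have hΦd : ∀ x ∈ Ioo (0:ℝ) ρ, HasDerivAt Φ 0 x := by
    intro x hx
    have hx0 : 0 < x := hx.1
    have hxt : x < t := hx.2.trans_le hρt
    have hxt1 : x / t ∈ Ioo (0:ℝ) 1 := ⟨by positivity, (div_lt_one ht).mpr hxt⟩
    have hB := B_pos h0 h1 x
    have hA' := B_pos h0 h1 t
    have hA : 0 < (1 - θ) * t ^ 2 + θ := by linarith
    have hk0 : 0 < kap θ t x := by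
      unfold kap
      have := Real.sqrt_pos.mpr hA
      have := Real.sqrt_pos.mpr hB
      positivity
    have hk1 : kap θ t x < 1 := by
      have h2 := kap_sq h0 h1 ht x
      have h3 : 0 < 1 - (x / t) ^ 2 := by nlinarith [hxt1.1, hxt1.2]
      have h4 : 0 < 1 - kap θ t x ^ 2 := by
        rw [h2]; exact mul_pos (mul_pos h0 h3) (inv_pos.mpr hB)
      nlinarith
    have d1 : HasDerivAt (fun ρ => ec n q (ρ / t)) (wt n q (x / t) / Bc n q * t⁻¹) x := by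
      have := (hec _ hxt1).comp x ((hasDerivAt_id x).div_const t)
      simpa [Function.comp_def, one_div] using this
    have d2 : HasDerivAt (fun ρ => ec n q (kap θ t ρ)) (wt n q (kap θ t x) / Bc n q *
        (Real.sqrt ((1 - θ) * t ^ 2 + θ) * θ /
      (t * (Real.sqrt (θ + (1 - θ) * x ^ 2) * (θ + (1 - θ) * x ^ 2))))) x :=
      (hec _ ⟨hk0, hk1⟩).comp x (kap_deriv h0 h1 ht x)
    have d3 := (((g_deriv (n := n) (q := q) h0 h1 x).mul d1).add (hid x)).sub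
      (d2.const_mul (((1 - θ) * t ^ 2 + θ) ^ (-q / 2)))
    refine d3.congr_deriv ?_
    have hk := key (n := n) (q := q) h0 h1 hx0 hxt
    have : (-c n q θ x * ec n q (x / t) + g n q θ x * (wt n q (x / t) / Bc n q * t⁻¹) +
        c n q θ x * ec n q (x / t) - ((1 - θ) * t ^ 2 + θ) ^ (-q / 2) *
        (wt n q (kap θ t x) / Bc n q * (Real.sqrt ((1 - θ) * t ^ 2 + θ) * θ /
          (t * (Real.sqrt (θ + (1 - θ) * x ^ 2) * (θ + (1 - θ) * x ^ 2)))))) =
        (g n q θ x * (wt n q (x / t) * t⁻¹) - ((1 - θ) * t ^ 2 + θ) ^ (-q / 2) *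
        (wt n q (kap θ t x) * (Real.sqrt ((1 - θ) * t ^ 2 + θ) * θ /
          (t * (Real.sqrt (θ + (1 - θ) * x ^ 2) * (θ + (1 - θ) * x ^ 2)))))) / Bc n q := by
      ring
    rw [this, hk, sub_self, zero_div]
  obtain ⟨y, hy, hy2⟩ := exists_hasDerivAt_eq_slope Φ (fun _ => 0) hρ hΦc.continuousOn hΦd
  have h2 : Φ ρ = Φ 0 := by
    have h3 : (Φ ρ - Φ 0) / (ρ - 0) = 0 := hy2.symm
    rw [div_eq_zero_iff] at h3
    rcases h3 with h3 | h3
    · linarith
    · linarith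
  have h3 : Φ 0 = 0 := by
    have e0 : ec n q 0 = 0 := by rw [ec_eq le_rfl]; exact hE0
    have ek : kap θ t 0 = 0 := by simp [kap]
    simp only [hΦ, zero_div, intervalIntegral.integral_same, ek, e0]
    ring
  rw [h3] at h2
  simp only [hΦ] at h2
  have e1 : ec n q (ρ / t) = Ec n q (ρ / t) := ec_eq (by positivity)
  have e2 : ec n q (kap θ t ρ) = Ec n q (kap θ t ρ) := ec_eq (by unfold kap; positivity)
  rw [e1, e2] at h2
  linarith

lemma real_ident (hC : PCalc) {n : ℕ} {q θ t l R : ℝ} (hq : 0 < q) (hqn : q < n) (h0 : 0 < θ)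
    (h1 : θ < 1) (hl : 0 < l) (hR : 0 < R) (ht : 0 < t)
    (hR2 : R ^ 2 = l ^ 2 * (θ + (1 - θ) * R ^ 2)) :
    g n q θ R * Ec n q (R / t) + ∫ r in (0:ℝ)..R, c n q θ r * ec n q (r / t) =
      ((1 - θ) * t ^ 2 + θ) ^ (-q / 2) * Ec n q (l * Real.sqrt ((1 - θ) * t ^ 2 + θ) / t) := by
  have hc := ec_cont hC hq hqn
  have hcc : Continuous (fun r => c n q θ r * ec n q (r / t)) :=
    (c_cont h0 h1).mul (hc.comp (by fun_prop))
  obtain ⟨hBc, -, hE0, hE1, -, -, -, hEd, -⟩ := hC n q hq hqn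
  have hBR := B_pos h0 h1 R
  have hBt := B_pos h0 h1 t
  have hA : 0 < (1 - θ) * t ^ 2 + θ := by linarith
  by_cases hRt : R ≤ t
  · rw [ident hC hq hqn h0 h1 hR hRt]
    congr 2
    unfold kap
    have h2 : R = l * Real.sqrt (θ + (1 - θ) * R ^ 2) := by
      rw [← Real.sqrt_sq hl.le, ← Real.sqrt_mul (by positivity), ← hR2, Real.sqrt_sq hR.le]
    have h3 : 0 < Real.sqrt (θ + (1 - θ) * R ^ 2) := Real.sqrt_pos.mpr hBR
    nth_rewrite 1 [h2]
    field_simp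
  · push Not at hRt
    have h2 := ident hC hq hqn h0 h1 ht le_rfl
    have h3 : kap θ t t = 1 := by
      unfold kap
      have e : (1 - θ) * t ^ 2 + θ = θ + (1 - θ) * t ^ 2 := by ring
      rw [e]
      have := Real.sqrt_pos.mpr hBt
      exact div_self (by positivity)
    rw [h3, hE1 1 le_rfl, div_self ht.ne', hE1 1 le_rfl] at h2
    have h4 : Ec n q (R / t) = 1 := hE1 _ (by rw [le_div_iff₀ ht]; linarith)
    have h5 : ∫ r in (t:ℝ)..R, c n q θ r * ec n q (r / t) = g n q θ t - g n q θ R := by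
      have h6 : ∫ r in (t:ℝ)..R, c n q θ r * ec n q (r / t) = ∫ r in (t:ℝ)..R, c n q θ r := by
        apply intervalIntegral.integral_congr
        intro r hr
        rw [uIcc_of_le hRt.le] at hr
        have hr0 : 0 < r := ht.trans_le hr.1
        simp only
        rw [ec_eq (by positivity), hE1 _ (by rw [le_div_iff₀ ht]; linarith [hr.1]), mul_one]
      rw [h6]
      have h7 := intervalIntegral.integral_eq_sub_of_hasDerivAt (a := t) (b := R)
        (f := fun r => -g n q θ r) (f' := c n q θ)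
        (fun x _ => by
          have := (g_deriv (n := n) (q := q) h0 h1 x).fun_neg
          rwa [neg_neg] at this) ((c_cont h0 h1).intervalIntegrable _ _)
      rw [h7]; ring
    have h8 : ∫ r in (0:ℝ)..R, c n q θ r * ec n q (r / t)
        = (∫ r in (0:ℝ)..t, c n q θ r * ec n q (r / t))
          + ∫ r in (t:ℝ)..R, c n q θ r * ec n q (r / t) :=
      (intervalIntegral.integral_add_adjacent_intervals (hcc.intervalIntegrable _ _)
        (hcc.intervalIntegrable _ _)).symm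
    have h9 : Ec n q (l * Real.sqrt ((1 - θ) * t ^ 2 + θ) / t) = 1 := by
      apply hE1
      rw [le_div_iff₀ ht, one_mul]
      have e1 : t ^ 2 ≤ l ^ 2 * ((1 - θ) * t ^ 2 + θ) := by
        -- t^2 < R^2
        have e2 : t ^ 2 < R ^ 2 := by nlinarith
        have e3 : 0 < 1 - l ^ 2 * (1 - θ) := by
          by_contra hcon
          push Not at hcon
          nlinarith [mul_pos (pow_pos hl 2) h0, mul_nonneg (sub_nonneg.mpr h1.le) (sq_nonneg l), sq_nonneg R]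
        nlinarith
      calc t = Real.sqrt (t ^ 2) := (Real.sqrt_sq ht.le).symm
        _ ≤ Real.sqrt (l ^ 2 * ((1 - θ) * t ^ 2 + θ)) := Real.sqrt_le_sqrt e1
        _ = l * Real.sqrt ((1 - θ) * t ^ 2 + θ) := by
          rw [Real.sqrt_mul (by positivity), Real.sqrt_sq hl.le]
    rw [h4, h8, h5, h9]
    linarith

theorem mix (hC : PCalc) : PMix := by
  intro n q hn hq hqn θ l h0 h1 hl hl1
  have hl2 : l ^ 2 < 1 := by nlinarith
  have hden : 0 < 1 - l ^ 2 * (1 - θ) := by nlinarith [mul_pos (pow_pos hl 2) h0]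
  set R := Real.sqrt (θ * l ^ 2 / (1 - l ^ 2 * (1 - θ))) with hR
  have hR0 : 0 < R := Real.sqrt_pos.mpr (by positivity)
  have hRsq : R ^ 2 = θ * l ^ 2 / (1 - l ^ 2 * (1 - θ)) := Real.sq_sqrt (by positivity)
  have hR1 : R < 1 := by
    have : R ^ 2 < 1 := by
      rw [hRsq, div_lt_one hden]
      nlinarith
    nlinarith
  have hR2 : R ^ 2 = l ^ 2 * (θ + (1 - θ) * R ^ 2) := by
    rw [hRsq]
    field_simp
    ring
  refine ⟨R, hR0, hR1, fun t ht => ?_⟩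
  have hc := ec_cont hC hq hqn
  obtain ⟨hBc, -, hE0, hE1, -, -, hE01, hEd, -⟩ := hC n q hq hqn
  have hcc : Continuous (fun r => c n q θ r * ec n q (r / t)) :=
    (c_cont h0 h1).mul (hc.comp (by fun_prop))
  have h2 := real_ident hC hq hqn h0 h1 hl hR0 ht hR2
  have hcnn : ∀ r, 0 < r → 0 ≤ c n q θ r := by
    intro r hr
    unfold c
    have := B_pos h0 h1 r
    have : 0 < 1 - θ := by linarith
    positivity
  have h3 : ∫⁻ r in Ioo 0 R, ENNReal.ofReal (θ ^ (((n : ℝ) - q) / 2) * n * (1 - θ) * r *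
          (θ + (1 - θ) * r ^ 2) ^ (-(n : ℝ) / 2 - 1)) * ENNReal.ofReal (Ec n q (r / t))
      = ENNReal.ofReal (∫ r in (0:ℝ)..R, c n q θ r * ec n q (r / t)) := by
    rw [intervalIntegral.integral_of_le hR0.le, ofReal_integral_eq_lintegral_ofReal
      (hcc.integrableOn_Ioc) ?_]
    · rw [setLIntegral_congr Ioo_ae_eq_Ioc]
      apply setLIntegral_congr_fun measurableSet_Ioc
      intro r hr
      have hr0 : 0 < r := hr.1
      simp only
      rw [ENNReal.ofReal_mul (hcnn r hr0), ec_eq (by positivity)]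
      rfl
    · rw [Filter.EventuallyLE, ae_restrict_iff' measurableSet_Ioc]
      refine ae_of_all _ fun r hr => ?_
      have hr0 : 0 < r := hr.1
      rw [ec_eq (by positivity)]
      exact mul_nonneg (hcnn r hr0) (hE01 _ (by positivity)).1
  have hg : 0 ≤ g n q θ R := by
    unfold g
    have := B_pos h0 h1 R
    positivity
  rw [h3, ← h2]
  have h4 : (θ ^ (((n : ℝ) - q) / 2) * (θ + (1 - θ) * R ^ 2) ^ (-(n : ℝ) / 2)) = g n q θ R := rfl
  rw [h4, ← ENNReal.ofReal_mul hg, ← ENNReal.ofReal_add]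
  · exact mul_nonneg hg (hE01 _ (by positivity)).1
  · apply intervalIntegral.integral_nonneg hR0.le
    intro r hr
    rcases hr.1.eq_or_lt with h | h
    · rw [← h]; simp [c]
    · rw [ec_eq (by positivity)]
      exact mul_nonneg (hcnn r h) (hE01 _ (by positivity)).1

end Pool.Agent.W782.RR.Mix
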