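import Mathlib
import Pool.Agent.W744.NG.Stubs
import Pool.Agent.H359R3.MX10

set_option autoImplicit false

/-!
# Measurable families of almost everywhere invertible maps
-/

namespace Pool.Agent.W782.NGReal

open MeasureTheory Set Filter Topology
open scoped ENNReal symmDiff
open Pool.H359R3 Pool.H359R3.IX Pool.Agent.W744.NG

theorem meas_eq {Z Y : Type} [MeasurableSpace Z] [MeasurableSpace Y] [StandardBorelSpace Y]
    {f g : Z → Y} (hf : Measurable f) (hg : Measurable g) : MeasurableSet {z | f z = g z} := by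
  obtain ⟨e, he⟩ := exists_measurableEmbedding_real Y
  have h1 : {z | f z = g z} = {z | e (f z) = e (g z)} := by
    ext z
    exact ⟨fun h => congrArg e h, fun h => he.injective h⟩
  rw [h1]
  exact measurableSet_eq_fun (he.measurable.comp hf) (he.measurable.comp hg)

/-- Schroeder-Bernstein, with control of the map -/
theorem sb {Z : Type} [MeasurableSpace Z] [StandardBorelSpace Z] (F G : Z → Z)
    (hF : MeasurableEmbedding F) (hG : MeasurableEmbedding G) :
    ∃ h : Z → Z, Measurable h ∧ Function.Bijective h ∧ ∀ z, h z = F z ∨ G (h z) = z := by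
  classical
  set A : Set Z := ⋃ n : ℕ, (G ∘ F)^[n] '' (range G)ᶜ with hA
  have hGF : MeasurableEmbedding (G ∘ F) := hG.comp hF
  have hit : ∀ n : ℕ, MeasurableEmbedding ((G ∘ F)^[n]) := by
    intro n
    induction n with
    | zero => exact MeasurableEmbedding.id
    | succ n ih => rw [Function.iterate_succ]; exact ih.comp hGF
  have hAm : MeasurableSet A := by
    refine MeasurableSet.iUnion fun n => ?_
    exact (hit n).measurableSet_image' hG.measurableSet_range.compl
  have hA0 : ∀ z, z ∉ A → z ∈ range G := by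
    intro z hz
    by_contra h
    exact hz (mem_iUnion.2 ⟨0, z, h, rfl⟩)
  have hAc : ∀ z, z ∈ A → G (F z) ∈ A := by
    intro z hz
    obtain ⟨n, w, hw, rfl⟩ := mem_iUnion.1 hz
    refine mem_iUnion.2 ⟨n + 1, w, hw, ?_⟩
    rw [Function.iterate_succ_apply']
    rfl
  have hAd : ∀ w, G w ∈ A → ∃ z ∈ A, w = F z := by
    intro w hw
    obtain ⟨n, v, hv, hvw⟩ := mem_iUnion.1 hw
    cases n with
    | zero => exact absurd ⟨w, hvw.symm⟩ hv
    | succ n =>
      rw [Function.iterate_succ_apply'] at hvw
      exact ⟨(G ∘ F)^[n] v, mem_iUnion.2 ⟨n, v, hv, rfl⟩, (hG.injective hvw).symm⟩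
  choose! k hk using hA0
  set h : Z → Z := fun z => if z ∈ A then F z else k z with hh
  have h1 : ∀ z, z ∈ A → h z = F z := fun z hz => by rw [hh]; simp [hz]
  have h2 : ∀ z, z ∉ A → G (h z) = z := fun z hz => by
    rw [hh]; simp only [hz, if_false]; exact hk z hz
  refine ⟨h, ?_, ⟨?_, ?_⟩, fun z => ?_⟩
  · intro s hs
    have h3 : h ⁻¹' s = (F ⁻¹' s ∩ A) ∪ (G '' s ∩ Aᶜ) := by
      ext z
      by_cases hz : z ∈ A
      · simp only [mem_preimage, mem_union, mem_inter_iff, hz, mem_compl_iff, not_true_eq_false,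
          and_false, or_false, and_true, h1 z hz]
      · simp only [mem_preimage, mem_union, mem_inter_iff, hz, mem_compl_iff, not_false_eq_true,
          and_true, and_false, false_or]
        constructor
        · intro hs'; exact ⟨h z, hs', h2 z hz⟩
        · rintro ⟨w, hw, hwz⟩
          have : h z = w := hG.injective ((h2 z hz).trans hwz.symm)
          rw [this]; exact hw
    rw [h3]
    exact ((hF.measurable hs).inter hAm).union ((hG.measurableSet_image' hs).inter hAm.compl)
  · intro z z' hzz
    by_cases hz : z ∈ A <;> by_cases hz' : z' ∈ A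
    · rw [h1 z hz, h1 z' hz'] at hzz; exact hF.injective hzz
    · exfalso
      apply hz'
      rw [← h2 z' hz', ← hzz, h1 z hz]
      exact hAc z hz
    · exfalso
      apply hz
      rw [← h2 z hz, hzz, h1 z' hz']
      exact hAc z' hz'
    · rw [← h2 z hz, ← h2 z' hz', hzz]
  · intro w
    by_cases hw : G w ∈ A
    · obtain ⟨z, hz, hwz⟩ := hAd w hw
      exact ⟨z, by rw [h1 z hz, hwz]⟩
    · exact ⟨G w, hG.injective (h2 _ hw)⟩
  · by_cases hz : z ∈ A
    · exact Or.inl (h1 z hz)
    · exact Or.inr (h2 z hz)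

theorem main : S_Real := by
  classical
  intro X Y _ _ _ _ μ ν _ _ _ S R hS hR hSmp hRS hSR
  -- the null set and the embedding
  obtain ⟨C, hCm, hC0, hCc⟩ := Pool.H359R3.MX.exists_null ν
  haveI : StandardBorelSpace C := hCm.standardBorel
  have hCc' : ¬ Countable C := fun h => hCc (Set.countable_coe_iff.1 h)
  let e : Y ≃ᵐ C := PolishSpace.measurableEquivOfNotCountable
    (Pool.H359R3.MX.not_countable_of_prob ν) hCc'
  let i : Y → Y := fun y => (e y : Y)
  have hiC : ∀ y, i y ∈ C := fun y => (e y).2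
  have hiinj : Function.Injective i := fun a b h => e.injective (Subtype.ext h)
  have him : Measurable i := measurable_subtype_coe.comp e.measurable
  -- the good sets
  set G1 : Set (X × Y) := {z | R (z.1, S z) = z.2 ∧ z.2 ∉ C ∧ S z ∉ C} with hG1
  set G2 : Set (X × Y) := {z | S (z.1, R z) = z.2 ∧ R z ∉ C} with hG2
  have hG1m : MeasurableSet G1 :=
    (meas_eq (hR.comp (measurable_fst.prodMk hS)) measurable_snd).inter
      ((measurable_snd hCm).compl.inter (hS hCm).compl)
  have hG2m : MeasurableSet G2 :=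
    (meas_eq (hS.comp (measurable_fst.prodMk hR)) measurable_snd).inter (hR hCm).compl
  -- the injections
  set F : X × Y → X × Y := fun z => (z.1, if z ∈ G1 then S z else i z.2) with hF
  set G : X × Y → X × Y := fun z => (z.1, if z ∈ G2 then R z else i z.2) with hG
  have hFm : Measurable F :=
    measurable_fst.prodMk (Measurable.ite hG1m hS (him.comp measurable_snd))
  have hGm : Measurable G :=
    measurable_fst.prodMk (Measurable.ite hG2m hR (him.comp measurable_snd))
  have hFinj : Function.Injective F := by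
    rintro ⟨x, y⟩ ⟨x', y'⟩ h
    simp only [hF, Prod.mk.injEq] at h
    obtain ⟨h1, h2⟩ := h
    subst h1
    by_cases hz : (x, y) ∈ G1 <;> by_cases hz' : (x, y') ∈ G1
    · simp only [hz, hz', if_true] at h2
      have a1 : R (x, S (x, y)) = y := hz.1
      have a2 : R (x, S (x, y')) = y' := hz'.1
      rw [← a1, h2, a2]
    · simp only [hz, hz', if_true, if_false] at h2
      have a1 : S (x, y) ∉ C := hz.2.2
      exact absurd (h2 ▸ hiC y') a1
    · simp only [hz, hz', if_true, if_false] at h2
      have a1 : S (x, y') ∉ C := hz'.2.2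
      exact absurd (h2 ▸ hiC y) a1
    · simp only [hz, hz', if_false] at h2
      rw [hiinj h2]
  have hGinj : Function.Injective G := by
    rintro ⟨x, y⟩ ⟨x', y'⟩ h
    simp only [hG, Prod.mk.injEq] at h
    obtain ⟨h1, h2⟩ := h
    subst h1
    by_cases hz : (x, y) ∈ G2 <;> by_cases hz' : (x, y') ∈ G2
    · simp only [hz, hz', if_true] at h2
      have a1 : S (x, R (x, y)) = y := hz.1
      have a2 : S (x, R (x, y')) = y' := hz'.1
      rw [← a1, h2, a2]
    · simp only [hz, hz', if_true, if_false] at h2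
      have a1 : R (x, y) ∉ C := hz.2
      exact absurd (h2 ▸ hiC y') a1
    · simp only [hz, hz', if_true, if_false] at h2
      have a1 : R (x, y') ∉ C := hz'.2
      exact absurd (h2 ▸ hiC y) a1
    · simp only [hz, hz', if_false] at h2
      rw [hiinj h2]
  obtain ⟨h, hhm, hhb, hhp⟩ := sb F G (hFm.measurableEmbedding hFinj) (hGm.measurableEmbedding hGinj)
  have hfst : ∀ z, (h z).1 = z.1 := by
    intro z
    rcases hhp z with h1 | h1
    · rw [h1]
    · have : (G (h z)).1 = z.1 := by rw [h1]
      exact this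
  set φ : X × Y → Y := fun z => (h z).2 with hφ
  have hheq : ∀ z, h z = (z.1, φ z) := fun z => Prod.ext (hfst z) rfl
  have hφm : Measurable φ := measurable_snd.comp hhm
  have hφS : ∀ z ∈ G1, φ z = S z := by
    rintro ⟨x, y⟩ hz
    rcases hhp (x, y) with h1 | h1
    · show (h (x, y)).2 = _
      rw [h1, hF]; simp [hz]
    · -- `G (x, S z) = z`
      have h2 : (x, S (x, y)) ∈ G2 := by
        have a1 : R (x, S (x, y)) = y := hz.1
        refine ⟨?_, ?_⟩
        · show S (x, R (x, S (x, y))) = S (x, y)
          rw [a1]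
        · show R (x, S (x, y)) ∉ C
          rw [a1]; exact hz.2.1
      have h3 : G (x, S (x, y)) = (x, y) := by
        rw [hG]; simp only [h2, if_true]
        rw [show R (x, S (x, y)) = y from hz.1]
      have h4 := hGinj (h1.trans h3.symm)
      show (h (x, y)).2 = _
      rw [h4]
  have hφbij : ∀ x, Function.Bijective (fun y => φ (x, y)) := by
    intro x
    constructor
    · intro y y' hyy
      have h1 : h (x, y) = h (x, y') := by
        rw [hheq, hheq]
        exact Prod.ext rfl hyy
      exact (Prod.ext_iff.1 (hhb.1 h1)).2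
    · intro w
      obtain ⟨⟨x', y⟩, hz⟩ := hhb.2 (x, w)
      have h1 := hfst (x', y)
      rw [hz] at h1
      have h2 : x = x' := h1
      subst h2
      exact ⟨y, by show (h (x, y)).2 = w; rw [hz]⟩
  have hφxm : ∀ x, Measurable (fun y => φ (x, y)) := fun x => hφm.comp measurable_prodMk_left
  -- the bad set of `x`
  have hgood : ∀ᵐ x ∂μ, MeasurePreserving (fun y => φ (x, y)) ν ν ∧ ∀ᵐ y ∂ν, φ (x, y) = S (x, y) := by
    filter_upwards [hSmp, hRS] with x hx1 hx2
    have h1 : ∀ᵐ y ∂ν, φ (x, y) = S (x, y) := by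
      have a1 : ∀ᵐ y ∂ν, y ∉ C := measure_eq_zero_iff_ae_notMem.1 hC0
      have a2 : ∀ᵐ y ∂ν, S (x, y) ∉ C := hx1.quasiMeasurePreserving.ae a1
      filter_upwards [a1, a2, hx2] with y b1 b2 b3
      exact hφS (x, y) ⟨b3, b1, b2⟩
    refine ⟨⟨hφxm x, ?_⟩, h1⟩
    rw [Measure.map_congr h1]
    exact hx1.map_eq
  set N : Set X := toMeasurable μ {x | ¬ (MeasurePreserving (fun y => φ (x, y)) ν ν ∧
    ∀ᵐ y ∂ν, φ (x, y) = S (x, y))} with hN
  have hNm : MeasurableSet N := measurableSet_toMeasurable _ _
  have hN0 : μ N = 0 := by rw [hN, measure_toMeasurable]; exact hgood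
  have hNgood : ∀ x, x ∉ N → MeasurePreserving (fun y => φ (x, y)) ν ν ∧
      ∀ᵐ y ∂ν, φ (x, y) = S (x, y) := by
    intro x hx
    by_contra hc
    exact hx (subset_toMeasurable μ _ hc)
  let E : X → (Y ≃ᵐ Y) := fun x =>
    { toEquiv := Equiv.ofBijective _ (hφbij x)
      measurable_toFun := hφxm x
      measurable_invFun := by
        have hemb : MeasurableEmbedding (fun y => φ (x, y)) :=
          (hφxm x).measurableEmbedding (hφbij x).1
        intro s hs
        have h1 : (Equiv.ofBijective _ (hφbij x)).symm ⁻¹' s = (fun y => φ (x, y)) '' s := by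
          rw [← Equiv.image_eq_preimage_symm]
          rfl
        show MeasurableSet ((Equiv.ofBijective _ (hφbij x)).symm ⁻¹' s)
        rw [h1]
        exact hemb.measurableSet_image' hs }
  have hE : ∀ x y, E x y = φ (x, y) := fun x y => rfl
  let Φ0 : X → AU ν := fun x => if hx : x ∈ N then ⟨MeasurableEquiv.refl Y, MeasurePreserving.id ν⟩
    else ⟨E x, (hNgood x hx).1⟩
  have hΦ0 : ∀ x y, (Φ0 x).1 y = if x ∈ N then y else φ (x, y) := by
    intro x y
    by_cases hx : x ∈ N
    · simp only [Φ0, hx, dite_true, if_true]; rfl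
    · simp only [Φ0, hx, dite_false, if_false]; rfl
  refine ⟨⟨Φ0, ?_⟩, ?_⟩
  · have h1 : (fun z : X × Y => (Φ0 z.1).1 z.2) = fun z => if z ∈ Prod.fst ⁻¹' N then z.2 else φ z := by
      funext z
      rw [hΦ0]; rfl
    rw [h1]
    exact Measurable.ite (measurable_fst hNm) measurable_snd hφm
  · have h1 : ∀ᵐ x ∂μ, x ∉ N := measure_eq_zero_iff_ae_notMem.1 hN0
    filter_upwards [h1] with x hx
    filter_upwards [(hNgood x hx).2] with y hy
    show (Φ0 x).1 y = S (x, y)
    rw [hΦ0, if_neg hx, hy]

end Pool.Agent.W782.NGReal
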