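import Mathlib
import Pool.Agent.W782.NGReal

set_option autoImplicit false

/-!
# Automorphisms of the product over the identity are cocycles
-/

namespace Pool.Agent.W782.NGVert

open MeasureTheory Set Filter Topology ProbabilityTheory
open scoped ENNReal symmDiff
open Pool.H359R3 Pool.H359R3.IX Pool.Agent.W744.NG Pool.Agent.W782.NGReal

/-- measurable families of maps preserving the measure, from the product -/
theorem fib_mp {X Y : Type} [MeasurableSpace X] [StandardBorelSpace X] [MeasurableSpace Y]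
    [StandardBorelSpace Y] (μ : Measure X) (ν : Measure Y) [IsProbabilityMeasure μ]
    [IsProbabilityMeasure ν] (S : X × Y → Y) (hS : Measurable S)
    (h : (μ.prod ν).map (fun z => (z.1, S z)) = μ.prod ν) :
    ∀ᵐ x ∂μ, MeasurePreserving (fun y => S (x, y)) ν ν := by
  let κ : Kernel X Y := ((Kernel.id : Kernel X X) ×ₖ (Kernel.const X ν)).map S
  have hκ : ∀ x, κ x = ν.map (fun y => S (x, y)) := by
    intro x
    have h1 : κ x = (((Kernel.id : Kernel X X) ×ₖ (Kernel.const X ν)) x).map S :=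
      Kernel.map_apply _ hS x
    rw [h1, Kernel.prod_apply, Kernel.id_apply, Kernel.const_apply, Measure.dirac_prod,
      Measure.map_map hS measurable_prodMk_left]
    rfl
  have : IsMarkovKernel κ := Kernel.IsMarkovKernel.map _ hS
  have h2 : μ ⊗ₘ κ = μ ⊗ₘ (Kernel.const X ν) := by
    rw [Measure.compProd_const, ← h]
    ext s hs
    have hm : Measurable (fun z : X × Y => (z.1, S z)) := measurable_fst.prodMk hS
    rw [Measure.compProd_apply hs, Measure.map_apply hm hs, Measure.prod_apply (hm hs)]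
    refine lintegral_congr fun x => ?_
    have hSx : Measurable (fun y => S (x, y)) := hS.comp measurable_prodMk_left
    rw [hκ, Measure.map_apply hSx (measurable_prodMk_left hs)]
    rfl
  have h3 := Kernel.ae_eq_of_compProd_eq h2
  filter_upwards [h3] with x hx
  refine ⟨hS.comp measurable_prodMk_left, ?_⟩
  rw [← hκ, hx, Kernel.const_apply]

theorem main (hReal : S_Real) : S_Vert := by
  intro X Y _ _ _ _ μ ν _ _ _ S hS1
  have hSm : Measurable (fun z => (S.1 z).2) := measurable_snd.comp S.1.measurable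
  have hRm : Measurable (fun z => (S.1.symm z).2) := measurable_snd.comp S.1.symm.measurable
  have hSe : ∀ᵐ z ∂(μ.prod ν), S.1 z = (z.1, (S.1 z).2) := by
    filter_upwards [hS1] with z hz
    exact Prod.ext hz rfl
  have hsymm : MeasurePreserving (⇑S.1.symm) (μ.prod ν) (μ.prod ν) := S.2.symm S.1
  have hRe : ∀ᵐ z ∂(μ.prod ν), S.1.symm z = (z.1, (S.1.symm z).2) := by
    have h1 := hsymm.quasiMeasurePreserving.ae hS1
    filter_upwards [h1] with z hz
    rw [S.1.apply_symm_apply] at hz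
    exact Prod.ext hz.symm rfl
  have hRS : ∀ᵐ z ∂(μ.prod ν), (S.1.symm (z.1, (S.1 z).2)).2 = z.2 := by
    filter_upwards [hSe] with z hz
    rw [← hz, S.1.symm_apply_apply]
  have hSR : ∀ᵐ z ∂(μ.prod ν), (S.1 (z.1, (S.1.symm z).2)).2 = z.2 := by
    filter_upwards [hRe] with z hz
    rw [← hz, S.1.apply_symm_apply]
  have hmp : ∀ᵐ x ∂μ, MeasurePreserving (fun y => (S.1 (x, y)).2) ν ν := by
    refine fib_mp μ ν (fun z => (S.1 z).2) hSm ?_
    rw [← Measure.map_congr hSe]
    exact S.2.map_eq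
  obtain ⟨Φ, hΦ⟩ := hReal X Y μ ν (fun z => (S.1 z).2) (fun z => (S.1.symm z).2) hSm hRm hmp
    (Measure.ae_ae_of_ae_prod hRS) (Measure.ae_ae_of_ae_prod hSR)
  refine ⟨Φ, ?_⟩
  have hset : MeasurableSet {z : X × Y | (Φ.1 z.1).1 z.2 = (S.1 z).2} := meas_eq Φ.2 hSm
  have h1 : ∀ᵐ z ∂(μ.prod ν), z ∈ {z : X × Y | (Φ.1 z.1).1 z.2 = (S.1 z).2} :=
    (Measure.ae_prod_mem_iff_ae_ae_mem hset).2 hΦ
  filter_upwards [h1, hSe] with z hz1 hz2
  have hz1' : (Φ.1 z.1).1 z.2 = (S.1 z).2 := hz1
  rw [hz1']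
  exact hz2

end Pool.Agent.W782.NGVert
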