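import Pool.Agent.W518.PR.Stm

/-! PR-KER (helper782): the kernel of the first differential of a Cech complex. -/

set_option autoImplicit false

open Pool.Agent.H907R3 Pool.Agent.W518.PR

namespace Pool.Agent.W782.PRKer

theorem main : S_ker := by
  intro P _ F _ _ W hW hHV
  let f0 : (W ∅) →ₗ[P] cochains W 0 :=
    { toFun := fun w => ⟨fun _ => (w : F), fun k => hW (Finset.empty_subset _) w.2⟩
      map_add' := fun a b => rfl
      map_smul' := fun p a => rfl }
  let f : (W ∅) →ₗ[P] (cech W hW).X 0 := f0
  have hf : ∀ w, f w ∈ LinearMap.ker ((cech W hW).d 0) := by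
    intro w
    refine LinearMap.mem_ker.2 (Subtype.ext ?_)
    change dd (fun _ : Fin 1 → Fin 6 => (w : F)) = 0
    funext k
    simp [dd, Fin.sum_univ_succ]
  let g : (W ∅) →ₗ[P] LinearMap.ker ((cech W hW).d 0) := f.codRestrict _ hf
  have hg : Function.Bijective g := by
    constructor
    · intro a b hab
      have h1 : f0 a = f0 b := congrArg Subtype.val hab
      have h2 : (f0 a).1 = (f0 b).1 := congrArg Subtype.val h1
      exact Subtype.ext (congrFun h2 (fun _ => 0))
    · rintro ⟨c, hc⟩
      have hc0 : (cech W hW).d 0 c = 0 := hc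
      have hc' : dd (show cochains W 0 from c).1 = 0 :=
        congrArg (fun z => (show cochains W 1 from z).1) hc0
      obtain ⟨b, hb, hbc⟩ := hHV (show cochains W 0 from c).1 (show cochains W 0 from c).2 hc'
      have hb0 := hb (fun a => Fin.elim0 a)
      have him : img (fun a : Fin 0 => (Fin.elim0 a : Fin 6)) = ∅ := by
        simp [img]
      rw [him] at hb0
      refine ⟨⟨b (fun a => Fin.elim0 a), hb0⟩, ?_⟩
      apply Subtype.ext
      apply Subtype.ext
      funext k
      change b (fun a => Fin.elim0 a) = (show cochains W 0 from c).1 k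
      rw [← hbc]
      simp only [dd, Fin.sum_univ_succ, Fin.sum_univ_zero]
      rw [Subsingleton.elim (k ∘ (0 : Fin 1).succAbove) (fun a => Fin.elim0 a)]
      simp
  exact ⟨LinearEquiv.ofBijective g hg, fun w k => rfl⟩

end Pool.Agent.W782.PRKer
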