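import Pool.Agent.W997.NL.Stm2

/-!
# NL-LIVE: computations are pebblings
-/

set_option autoImplicit false

namespace Pool.Agent.W782.NLLIVE

open Finset
open Pool.Agent.W997.NL
open Pool.Agent.W997.SR (Dag Net)
open Pool.Agent.W997.SR.Dag (value lives net mem_lives)
open Pool.Agent.W997.TS (DBP bit)

variable {G : Dag} {k : ℕ} [NeZero k]

/-- the node `v` is evaluated in the state with index `t - 1` -/
def Ev (P : DBP (G.Var k) k) (z : G.Γ → Fin k) (l : List P.State) (t : ℕ) (v : G.Γ) : Prop :=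
  ∃ s q, t = s + 1 ∧ l[s]? = some q ∧ P.query q = (net G k).pos z v

open Classical in
/-- The configurations. -/
noncomputable def Cf (P : DBP (G.Var k) k) (z : G.Γ → Fin k) (l : List P.State) (t : ℕ) :
    Finset G.Γ := univ.filter (fun v => (net G k).Live P z v (l.drop t) ∨ Ev P z l t v)

theorem mem_Cf (P : DBP (G.Var k) k) (z : G.Γ → Fin k) (l : List P.State) (t : ℕ) (v : G.Γ) :
    v ∈ Cf P z l t ↔ (net G k).Live P z v (l.drop t) ∨ Ev P z l t v := by
  classical
  unfold Cf
  rw [mem_filter]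
  exact ⟨fun h => h.2, fun h => ⟨mem_univ _, h⟩⟩

theorem pos_inj' (z : G.Γ → Fin k) {v v' : G.Γ} (h : (net G k).pos z v = (net G k).pos z v') :
    v = v' := by
  have h1 := congrArg (net G k).nodeOf h
  rwa [(net G k).nodeOf_pos, (net G k).nodeOf_pos] at h1

omit [NeZero k] in
theorem drop_eq (P : DBP (G.Var k) k) (l : List P.State) (t : ℕ) (q : P.State)
    (h : l[t]? = some q) : l.drop t = q :: l.drop (t + 1) := by
  obtain ⟨h1, h2⟩ := List.getElem?_eq_some_iff.1 h
  rw [List.drop_eq_getElem_cons h1, h2]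

theorem step (P : DBP (G.Var k) k) (z : G.Γ → Fin k) (l : List P.State) (t : ℕ) (v : G.Γ)
    (h1 : v ∈ Cf P z l (t + 1)) (h2 : v ∉ Cf P z l t) :
    ∃ q, l[t]? = some q ∧ P.query q = (net G k).pos z v := by
  rw [mem_Cf] at h1 h2
  rcases h1 with h1 | ⟨s, q, hs, hq, hv⟩
  · cases hq : l[t]? with
    | none =>
      have h3 : l.length ≤ t := List.getElem?_eq_none_iff.1 hq
      have h4 : l.drop (t + 1) = [] := List.drop_eq_nil_of_le (by omega)
      rw [h4] at h1
      exact h1.elim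
    | some q =>
      by_cases hv : P.query q = (net G k).pos z v
      · exact ⟨q, rfl, hv⟩
      · exfalso
        apply h2
        left
        rw [drop_eq P l t q hq]
        exact Or.inr ⟨hv, h1⟩
  · have : t = s := by omega
    subst this
    exact ⟨q, hq, hv⟩

theorem legal (P : DBP (G.Var k) k) (z : G.Γ → Fin k) (l : List P.State) :
    Legal G (Cf P z l) := by
  intro t v h1 h2 c hc
  obtain ⟨q, hq, hv⟩ := step P z l t v h1 h2
  rw [mem_Cf]
  left
  rw [drop_eq P l t q hq]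
  exact Or.inl ⟨v, hc, hv⟩

theorem placed_le {I : Type} [Fintype I] (P : DBP (G.Var k) k) (z : G.Γ → Fin k)
    (l : List P.State) (a b : ℕ) (f : I → G.Γ) (hf : Function.Injective f) :
    placed (Cf P z l) a b f ≤ b - a := by
  classical
  unfold placed
  set S := univ.filter (fun j => ∃ t, a ≤ t ∧ t < b ∧ f j ∉ Cf P z l t ∧ f j ∈ Cf P z l (t + 1))
    with hS
  have h1 : ∀ j ∈ S, ∃ t, a ≤ t ∧ t < b ∧ f j ∉ Cf P z l t ∧ f j ∈ Cf P z l (t + 1) :=
    fun j hj => (mem_filter.1 hj).2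
  have h2 : ∀ j : I, ∃ t, j ∈ S → a ≤ t ∧ t < b ∧ f j ∉ Cf P z l t ∧ f j ∈ Cf P z l (t + 1) := by
    intro j
    by_cases hj : j ∈ S
    · obtain ⟨t, ht⟩ := h1 j hj
      exact ⟨t, fun _ => ht⟩
    · exact ⟨0, fun h => absurd h hj⟩
  choose g hg using h2
  have h3 : S.card ≤ (Finset.Ico a b).card := by
    refine Finset.card_le_card_of_injOn g ?_ ?_
    · intro j hj
      have h4 := hg j hj
      exact Finset.mem_coe.2 (Finset.mem_Ico.2 ⟨h4.1, h4.2.1⟩)
    · intro j hj j' hj' hjj
      obtain ⟨-, -, h5, h6⟩ := hg j hj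
      obtain ⟨-, -, h7, h8⟩ := hg j' hj'
      obtain ⟨q, hq, hv⟩ := step P z l _ _ h6 h5
      obtain ⟨q', hq', hv'⟩ := step P z l _ _ h8 h7
      rw [← hjj, hq] at hq'
      have h9 : q = q' := Option.some.inj hq'
      rw [← h9, hv] at hv'
      exact hf (pos_inj' z hv')
  rwa [Nat.card_Ico] at h3

theorem live_parent (P : DBP (G.Var k) k) (z : G.Γ → Fin k) (c : G.Γ) : ∀ l : List P.State,
    (net G k).Live P z c l → ∃ a, c ∈ G.kid a
  | [], h => h.elim
  | q :: l, h => by
    rcases h with ⟨a, ha, -⟩ | h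
    · exact ⟨a, ha⟩
    · exact live_parent P z c l h.2

theorem placed_out {I : Type} [Fintype I] (G : IOG I) (P : DBP (G.G.Var k) k)
    (z : G.G.Γ → Fin k) (l : List P.State)
    (h : ∀ j, ∃ q ∈ l, P.query q = (net G.G k).pos z (G.out j)) :
    placed (Cf P z l) 0 l.length G.out = Fintype.card I := by
  classical
  unfold placed
  rw [← Finset.card_univ]
  congr 1
  rw [Finset.filter_eq_self]
  intro j _
  have hex : ∃ t : ℕ, ∃ q, l[t]? = some q ∧ P.query q = (net G.G k).pos z (G.out j) := by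
    obtain ⟨q, hq, hv⟩ := h j
    obtain ⟨t, ht⟩ := List.mem_iff_getElem?.1 hq
    exact ⟨t, q, ht, hv⟩
  obtain ⟨q, hq, hv⟩ := Nat.find_spec hex
  refine ⟨Nat.find hex, Nat.zero_le _, (List.getElem?_eq_some_iff.1 hq).1, ?_, ?_⟩
  · intro hc
    rw [mem_Cf] at hc
    rcases hc with hc | ⟨s, q', hs, hq', hv'⟩
    · obtain ⟨a, ha⟩ := live_parent P z _ _ hc
      exact G.out_top j a ha
    · exact Nat.find_min hex (by omega) ⟨q', hq', hv'⟩
  · rw [mem_Cf]
    right
    exact ⟨Nat.find hex, q, rfl, hq, hv⟩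

theorem card_Cf_zero (P : DBP (G.Var k) k) (z : G.Γ → Fin k) (l : List P.State) :
    Cf P z l 0 ⊆ lives P z l := by
  intro v hv
  rw [mem_Cf] at hv
  rw [mem_lives]
  rcases hv with hv | ⟨s, q, hs, -⟩
  · simpa using hv
  · omega

theorem card_Cf (P : DBP (G.Var k) k) (z : G.Γ → Fin k) (l : List P.State) (t : ℕ) :
    (Cf P z l t).card ≤ (lives P z (l.drop t)).card + 1 := by
  classical
  have h1 : Cf P z l t ⊆ lives P z (l.drop t) ∪ univ.filter (fun v => Ev P z l t v) := by
    intro v hv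
    rw [mem_Cf] at hv
    rw [mem_union, mem_lives, mem_filter]
    rcases hv with hv | hv
    · exact Or.inl hv
    · exact Or.inr ⟨mem_univ _, hv⟩
  have h2 : (univ.filter (fun v => Ev P z l t v)).card ≤ 1 := by
    rw [Finset.card_le_one]
    intro v hv v' hv'
    obtain ⟨s, q, hs, hq, hv⟩ := (mem_filter.1 hv).2
    obtain ⟨s', q', hs', hq', hv'⟩ := (mem_filter.1 hv').2
    have h3 : s = s' := by omega
    rw [← h3, hq] at hq'
    have h4 : q = q' := Option.some.inj hq'
    rw [← h4, hv] at hv'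
    exact pos_inj' z hv'
  exact (card_le_card h1).trans ((card_union_le _ _).trans (by omega))

theorem main : Pool.Agent.W997.NL.S_LIVE := by
  intro I _ G u hu hI hQ k _ P z l hl
  by_cases h0 : 2 * u < (lives P z l).card
  · exact ⟨l, List.suffix_rfl, by omega⟩
  · obtain ⟨a, b, -, hab, -, ht, hp⟩ := hQ (Cf P z l) (legal P z l) 0 l.length (Nat.zero_le _)
      ((card_le_card (card_Cf_zero P z l)).trans (not_lt.1 h0))
      (by rw [placed_out G P z l hl]; exact hI)
    have h1 := placed_le P z l a b G.inp G.inp_inj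
    have h2 := ht (a + 1) (by omega) (by omega)
    exact ⟨l.drop (a + 1), List.drop_suffix _ _, h2.trans (card_Cf P z l (a + 1))⟩

end Pool.Agent.W782.NLLIVE
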