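import Pool.Agent.W983.PL.Stm

/-!
# MP_fe6d1a_gt: POS, positions of the image arcs
-/
set_option autoImplicit false
open Set Topology

namespace Pool.Agent.W782.PCPos
open Pool.Agent.W983.PL

theorem pos (h : S_BC) : S_POS := by
  intro F Z η ρ hF hC
  obtain ⟨h1, h2, h3⟩ := h
  have hη0 : ∀ k, -bb k ≤ η k ∧ η k ≤ bb k ∧ 0 < η k := by
    intro k
    cases k with
    | zero =>
      obtain ⟨a, b⟩ := hC.e0
      exact ⟨by linarith, b.le, a⟩
    | succ k =>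
      obtain ⟨a, b⟩ := hC.eS k
      obtain ⟨c1, c2, c3, c4, c5, c6⟩ := h1 k
      exact ⟨by linarith, b.le, by linarith⟩
  have hρ0 : ∀ k, -bb k ≤ ρ k - 1 ∧ ρ k - 1 < 0 := by
    intro k
    cases k with
    | zero =>
      obtain ⟨a, b⟩ := hC.r0
      exact ⟨by linarith, by linarith⟩
    | succ k =>
      obtain ⟨a, b⟩ := hC.rS k
      obtain ⟨c1, c2, c3, c4, c5, c6⟩ := h1 k
      exact ⟨by linarith, by linarith⟩
  have hLa : ∀ k, F k (-bb k) = 1 / 2 - cc k := by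
    intro k
    obtain ⟨c1, c2, c3, c4, c5, c6⟩ := h1 k
    rw [hF.L k (-bb k) le_rfl (by linarith)]
    ring
  have hLb : ∀ k, F k (bb k) = 1 / 2 - bb k := by
    intro k
    obtain ⟨c1, c2, c3, c4, c5, c6⟩ := h1 k
    rw [hF.Y k (bb k) le_rfl (by linarith)]
    ring
  have hTa : ∀ k, F k (cc k) = 1 / 2 + bb k := by
    intro k
    obtain ⟨c1, c2, c3, c4, c5, c6⟩ := h1 k
    rw [hF.T k (cc k) le_rfl (by linarith)]
    ring
  have hTb : ∀ k, F k (1 - cc k) = 1 / 2 + cc k := by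
    intro k
    obtain ⟨c1, c2, c3, c4, c5, c6⟩ := h1 k
    rw [hF.R k (1 - cc k) le_rfl (by linarith)]
    ring
  have hm : ∀ k, StrictMono (F k) := fun k => (F k).strictMono
  have hηlt : ∀ k, η k < η (k + 1) := by
    intro k
    obtain ⟨a, b⟩ := hC.eS k
    obtain ⟨c1, c2, c3, c4, c5, c6⟩ := h1 k
    have := (hη0 k).2.1
    linarith
  have hρlt : ∀ k, ρ (k + 1) < ρ k := by
    intro k
    obtain ⟨a, b⟩ := hC.rS k
    obtain ⟨c1, c2, c3, c4, c5, c6⟩ := h1 k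
    have := (hρ0 k).1
    linarith
  refine ⟨?_, ?_, hηlt, hρlt, ?_, ?_, ?_⟩
  · intro k
    refine ⟨?_, ?_, ?_⟩
    · rw [← hLa k]
      exact (hm k).monotone (hρ0 k).1
    · exact (hm k) (by linarith [(hρ0 k).2, (hη0 k).2.2])
    · rw [← hLb k]
      exact (hm k).monotone (hη0 k).2.1
  · intro k
    obtain ⟨a, b⟩ := hC.eS k
    obtain ⟨a', b'⟩ := hC.rS k
    obtain ⟨c1, c2, c3, c4, c5, c6⟩ := h1 k
    have d4 := (h1 (k + 1)).2.2.2.1
    refine ⟨?_, ?_, ?_⟩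
    · rw [← hTa k]
      exact (hm k).monotone a.le
    · exact (hm k) (by linarith)
    · rw [← hTb k]
      exact (hm k).monotone b'.le
  · intro k
    obtain ⟨c1, c2, c3, c4, c5, c6⟩ := h1 k
    exact ⟨(hη0 k).2.2, by linarith [(hη0 k).2.1]⟩
  · intro k
    obtain ⟨c1, c2, c3, c4, c5, c6⟩ := h1 k
    exact ⟨by linarith [(hρ0 k).1], by linarith [(hρ0 k).2]⟩
  · intro ε hε
    obtain ⟨N, hN⟩ := h3 ε hε
    refine ⟨N + 1, ?_⟩
    intro k hk
    obtain ⟨j, rfl⟩ : ∃ j, k = j + 1 := ⟨k - 1, by omega⟩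
    have hj := hN j (by omega)
    obtain ⟨a, b⟩ := hC.eS j
    obtain ⟨a', b'⟩ := hC.rS j
    obtain ⟨c1, c2, c3, c4, c5, c6⟩ := h1 j
    exact ⟨by linarith, by linarith⟩

end Pool.Agent.W782.PCPos
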