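import Pool.Agent.W782.BkDec

/-!
# Weighted positivity in a half-plane (polar coordinates)
-/

namespace Pool.Agent.W782.BkCoer

open MeasureTheory Set Pool.Agent.W792.Bk Pool.Agent.W782.BkDec
open scoped ContDiff Topology

/-- Logarithmic polar coordinates. -/
noncomputable def Ψ (c : ℝ × ℝ) (z : ℝ × ℝ) : ℝ × ℝ :=
  (c.1 + Real.exp z.1 * Real.cos z.2, c.2 + Real.exp z.1 * Real.sin z.2)

/-- The inverse on a half-plane. -/
noncomputable def Φ (c : ℝ × ℝ) (ψ : ℝ) (z : ℝ × ℝ) : ℝ × ℝ :=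
  (Real.log (sq c z) / 2,
    ψ + Real.arctan ((-(z.1 - c.1) * Real.sin ψ + (z.2 - c.2) * Real.cos ψ) /
      ((z.1 - c.1) * Real.cos ψ + (z.2 - c.2) * Real.sin ψ)))

/-- The strip. -/
def T (ψ : ℝ) : Set (ℝ × ℝ) := univ ×ˢ Ioo (ψ - Real.pi / 2) (ψ - Real.pi / 2 + Real.pi)

/-- The half-plane. -/
def Hf (c : ℝ × ℝ) (ψ : ℝ) : Set (ℝ × ℝ) :=
  {z | 0 < (z.1 - c.1) * Real.cos ψ + (z.2 - c.2) * Real.sin ψ}

theorem T_open (ψ : ℝ) : IsOpen (T ψ) := isOpen_univ.prod isOpen_Ioo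

theorem Ψ_contDiff (c : ℝ × ℝ) : ContDiff ℝ ∞ (Ψ c) := by
  unfold Ψ; fun_prop

theorem sq_Ψ (c z : ℝ × ℝ) : sq c (Ψ c z) = Real.exp (2 * z.1) := by
  unfold W792.Bk.sq Ψ
  have h1 := Real.cos_sq_add_sin_sq z.2
  have h2 : Real.exp (2 * z.1) = Real.exp z.1 ^ 2 := by
    rw [← Real.exp_nat_mul]; norm_num
  rw [h2]
  simp only [add_sub_cancel_left]
  calc _ = Real.exp z.1 ^ 2 * (Real.cos z.2 ^ 2 + Real.sin z.2 ^ 2) := by ring
    _ = _ := by rw [h1, mul_one]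

theorem rot1 (c z : ℝ × ℝ) (ψ : ℝ) : ((Ψ c z).1 - c.1) * Real.cos ψ +
    ((Ψ c z).2 - c.2) * Real.sin ψ = Real.exp z.1 * Real.cos (z.2 - ψ) := by
  unfold Ψ
  rw [Real.cos_sub]
  ring

theorem rot2 (c z : ℝ × ℝ) (ψ : ℝ) : -((Ψ c z).1 - c.1) * Real.sin ψ +
    ((Ψ c z).2 - c.2) * Real.cos ψ = Real.exp z.1 * Real.sin (z.2 - ψ) := by
  unfold Ψ
  rw [Real.sin_sub]
  ring

theorem cos_pos_of {ψ : ℝ} {z : ℝ × ℝ} (hz : z ∈ T ψ) : 0 < Real.cos (z.2 - ψ) := by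
  obtain ⟨-, h1, h2⟩ := hz
  apply Real.cos_pos_of_mem_Ioo
  constructor <;> linarith

theorem Ψ_mem {c : ℝ × ℝ} {ψ : ℝ} {z : ℝ × ℝ} (hz : z ∈ T ψ) : Ψ c z ∈ Hf c ψ := by
  show 0 < ((Ψ c z).1 - c.1) * Real.cos ψ + ((Ψ c z).2 - c.2) * Real.sin ψ
  rw [rot1]
  exact mul_pos (Real.exp_pos _) (cos_pos_of hz)

theorem Φ_Ψ {c : ℝ × ℝ} {ψ : ℝ} {z : ℝ × ℝ} (hz : z ∈ T ψ) : Φ c ψ (Ψ c z) = z := by
  unfold Φ
  rw [sq_Ψ, rot1, rot2, Real.log_exp]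
  have h0 := cos_pos_of hz
  obtain ⟨-, h1, h2⟩ := hz
  refine Prod.ext (by simp) ?_
  simp only
  have h3 : Real.exp z.1 * Real.sin (z.2 - ψ) / (Real.exp z.1 * Real.cos (z.2 - ψ)) =
      Real.tan (z.2 - ψ) := by
    rw [Real.tan_eq_sin_div_cos]
    have := Real.exp_pos z.1
    field_simp
  rw [h3, Real.arctan_tan (by linarith) (by linarith)]
  ring

theorem Φ_mem {c : ℝ × ℝ} {ψ : ℝ} (z : ℝ × ℝ) : Φ c ψ z ∈ T ψ := by
  refine ⟨trivial, ?_, ?_⟩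
  · have := Real.neg_pi_div_two_lt_arctan
      ((-(z.1 - c.1) * Real.sin ψ + (z.2 - c.2) * Real.cos ψ) /
      ((z.1 - c.1) * Real.cos ψ + (z.2 - c.2) * Real.sin ψ))
    simp only [Φ]
    linarith
  · have := Real.arctan_lt_pi_div_two
      ((-(z.1 - c.1) * Real.sin ψ + (z.2 - c.2) * Real.cos ψ) /
      ((z.1 - c.1) * Real.cos ψ + (z.2 - c.2) * Real.sin ψ))
    simp only [Φ]
    linarith

theorem Ψ_Φ {c : ℝ × ℝ} {ψ : ℝ} {z : ℝ × ℝ} (hz : z ∈ Hf c ψ) : Ψ c (Φ c ψ z) = z := by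
  have hz' : 0 < (z.1 - c.1) * Real.cos ψ + (z.2 - c.2) * Real.sin ψ := hz
  unfold Φ Ψ
  simp only
  set X' := (z.1 - c.1) * Real.cos ψ + (z.2 - c.2) * Real.sin ψ with hX
  set Y' := -(z.1 - c.1) * Real.sin ψ + (z.2 - c.2) * Real.cos ψ with hY
  have hcs := Real.cos_sq_add_sin_sq ψ
  have hs : sq c z = X' ^ 2 + Y' ^ 2 := by
    unfold W792.Bk.sq
    rw [hX, hY]
    calc (z.1 - c.1) ^ 2 + (z.2 - c.2) ^ 2 =
          ((z.1 - c.1) ^ 2 + (z.2 - c.2) ^ 2) * (Real.cos ψ ^ 2 + Real.sin ψ ^ 2) := by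
          rw [hcs, mul_one]
      _ = _ := by ring
  have hsp : 0 < sq c z := by rw [hs]; positivity
  have he : Real.exp (Real.log (sq c z) / 2) = Real.sqrt (X' ^ 2 + Y' ^ 2) := by
    rw [← hs, Real.sqrt_eq_rpow, Real.rpow_def_of_pos hsp]
    congr 1; ring
  have hr : 0 < Real.sqrt (X' ^ 2 + Y' ^ 2) := Real.sqrt_pos.2 (by positivity)
  have h1 : Real.sqrt (1 + (Y' / X') ^ 2) = Real.sqrt (X' ^ 2 + Y' ^ 2) / X' := by
    rw [eq_div_iff hz'.ne', ← Real.sqrt_sq hz'.le, ← Real.sqrt_mul (by positivity),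
      Real.sqrt_sq hz'.le]
    congr 1
    field_simp
  have hc : Real.cos (Real.arctan (Y' / X')) = X' / Real.sqrt (X' ^ 2 + Y' ^ 2) := by
    rw [Real.cos_arctan, h1, one_div, inv_div]
  have hsn : Real.sin (Real.arctan (Y' / X')) = Y' / Real.sqrt (X' ^ 2 + Y' ^ 2) := by
    rw [Real.sin_arctan, h1]
    field_simp
  rw [he, Real.cos_add, Real.sin_add, hc, hsn]
  have e1 : Real.sqrt (X' ^ 2 + Y' ^ 2) * (Real.cos ψ * (X' / Real.sqrt (X' ^ 2 + Y' ^ 2)) -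
      Real.sin ψ * (Y' / Real.sqrt (X' ^ 2 + Y' ^ 2))) = Real.cos ψ * X' - Real.sin ψ * Y' := by
    field_simp
  have e2 : Real.sqrt (X' ^ 2 + Y' ^ 2) * (Real.sin ψ * (X' / Real.sqrt (X' ^ 2 + Y' ^ 2)) +
      Real.cos ψ * (Y' / Real.sqrt (X' ^ 2 + Y' ^ 2))) = Real.sin ψ * X' + Real.cos ψ * Y' := by
    field_simp
  rw [e1, e2]
  refine Prod.ext ?_ ?_
  · simp only
    rw [hX, hY]
    calc _ = c.1 + (z.1 - c.1) * (Real.cos ψ ^ 2 + Real.sin ψ ^ 2) := by ring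
      _ = _ := by rw [hcs]; ring
  · simp only
    rw [hX, hY]
    calc _ = c.2 + (z.2 - c.2) * (Real.cos ψ ^ 2 + Real.sin ψ ^ 2) := by ring
      _ = _ := by rw [hcs]; ring

theorem image_T (c : ℝ × ℝ) (ψ : ℝ) : Ψ c '' T ψ = Hf c ψ := by
  ext z
  constructor
  · rintro ⟨w, hw, rfl⟩
    exact Ψ_mem hw
  · intro hz
    exact ⟨Φ c ψ z, Φ_mem z, Ψ_Φ hz⟩

theorem injOn_T (c : ℝ × ℝ) (ψ : ℝ) : InjOn (Ψ c) (T ψ) := by
  intro z hz w hw h
  rw [← Φ_Ψ (c := c) hz, ← Φ_Ψ (c := c) hw, h]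

theorem Φ_cont (c : ℝ × ℝ) (ψ : ℝ) : ContinuousOn (Φ c ψ) (Hf c ψ) := by
  have h0 : ∀ z ∈ Hf c ψ, z ≠ c := by
    rintro z hz rfl
    have : 0 < (z.1 - z.1) * Real.cos ψ + (z.2 - z.2) * Real.sin ψ := hz
    simp at this
  unfold Φ
  refine ContinuousOn.prodMk ?_ ?_
  · refine ContinuousOn.div_const ?_ 2
    exact (continuous_sq c).continuousOn.log (fun z hz => (sq_pos' (h0 z hz)).ne')
  · refine continuousOn_const.add (Real.continuous_arctan.comp_continuousOn ?_)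
    refine ContinuousOn.div (by fun_prop) (by fun_prop) (fun z hz => ?_)
    have : 0 < (z.1 - c.1) * Real.cos ψ + (z.2 - c.2) * Real.sin ψ := hz
    exact this.ne'

/-! ### the change of variables -/

/-- The derivative of `Ψ`. -/
noncomputable def dΨ (z : ℝ × ℝ) : ℝ × ℝ →L[ℝ] ℝ × ℝ :=
  (Matrix.toLin (.finTwoProd ℝ) (.finTwoProd ℝ)
    !![Real.exp z.1 * Real.cos z.2, Real.exp z.1 * (-Real.sin z.2);
      Real.exp z.1 * Real.sin z.2, Real.exp z.1 * Real.cos z.2]).toContinuousLinearMap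

theorem dΨ_det (z : ℝ × ℝ) : (dΨ z).det = Real.exp (2 * z.1) := by
  have h2 : Real.exp (2 * z.1) = Real.exp z.1 ^ 2 := by
    rw [← Real.exp_nat_mul]; norm_num
  have h1 := Real.cos_sq_add_sin_sq z.2
  unfold dΨ
  simp only [LinearMap.det_toContinuousLinearMap, LinearMap.det_toLin,
    Matrix.det_fin_two_of]
  rw [h2]
  calc _ = Real.exp z.1 ^ 2 * (Real.cos z.2 ^ 2 + Real.sin z.2 ^ 2) := by ring
    _ = _ := by rw [h1, mul_one]

theorem dΨ_apply (z w : ℝ × ℝ) : dΨ z w = (Real.exp z.1 * Real.cos z.2 * w.1 -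
    Real.exp z.1 * Real.sin z.2 * w.2, Real.exp z.1 * Real.sin z.2 * w.1 +
    Real.exp z.1 * Real.cos z.2 * w.2) := by
  unfold dΨ
  rw [Matrix.toLin_finTwoProd_toContinuousLinearMap]
  ext <;> simp
  ring

theorem hasFDerivAt_Ψ (c z : ℝ × ℝ) : HasFDerivAt (Ψ c) (dΨ z) z := by
  have h1 : HasFDerivAt (fun z : ℝ × ℝ => Real.exp z.1)
      (Real.exp z.1 • ContinuousLinearMap.fst ℝ ℝ ℝ) z :=
    (Real.hasDerivAt_exp z.1).comp_hasFDerivAt z hasFDerivAt_fst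
  have h2 : HasFDerivAt (fun z : ℝ × ℝ => Real.cos z.2)
      (-Real.sin z.2 • ContinuousLinearMap.snd ℝ ℝ ℝ) z :=
    (Real.hasDerivAt_cos z.2).comp_hasFDerivAt z hasFDerivAt_snd
  have h3 : HasFDerivAt (fun z : ℝ × ℝ => Real.sin z.2)
      (Real.cos z.2 • ContinuousLinearMap.snd ℝ ℝ ℝ) z :=
    (Real.hasDerivAt_sin z.2).comp_hasFDerivAt z hasFDerivAt_snd
  have h4 := ((h1.mul h2).const_add c.1).prodMk ((h1.mul h3).const_add c.2)
  refine HasFDerivAt.congr_fderiv h4 ?_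
  apply ContinuousLinearMap.ext
  intro w
  rw [dΨ_apply]
  ext <;> simp <;> ring

theorem chg (c : ℝ × ℝ) (ψ : ℝ) (F : ℝ × ℝ → ℝ) (hF : ∀ z, z ∉ Hf c ψ → F z = 0) :
    ∫ z, F z = ∫ z in T ψ, Real.exp (2 * z.1) * F (Ψ c z) := by
  rw [← setIntegral_eq_integral_of_forall_compl_eq_zero hF, ← image_T,
    integral_image_eq_integral_abs_det_fderiv_smul volume (T_open ψ).measurableSet
      (fun z _ => (hasFDerivAt_Ψ c z).hasFDerivWithinAt) (injOn_T c ψ) F]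
  refine setIntegral_congr_fun (T_open ψ).measurableSet (fun z _ => ?_)
  simp only [smul_eq_mul]
  rw [dΨ_det, abs_of_pos (Real.exp_pos _)]

/-! ### derivatives of `u ∘ Ψ` -/

theorem dx_comp (c : ℝ × ℝ) {u : ℝ × ℝ → ℝ} (hu : ContDiff ℝ ∞ u) :
    dx (fun z => u (Ψ c z)) = fun z => Real.exp z.1 * (Real.cos z.2 * dx u (Ψ c z) +
      Real.sin z.2 * dy u (Ψ c z)) := by
  funext z
  have h1 : HasFDerivAt (fun z => u (Ψ c z)) ((fderiv ℝ u (Ψ c z)).comp (dΨ z)) z :=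
    (differentiable_of hu (Ψ c z)).hasFDerivAt.comp z (hasFDerivAt_Ψ c z)
  show fderiv ℝ (fun z => u (Ψ c z)) z (1, 0) = _
  rw [h1.fderiv]
  simp only [ContinuousLinearMap.comp_apply, dΨ_apply]
  have h2 : ((Real.exp z.1 * Real.cos z.2 * 1 - Real.exp z.1 * Real.sin z.2 * 0,
      Real.exp z.1 * Real.sin z.2 * 1 + Real.exp z.1 * Real.cos z.2 * 0) : ℝ × ℝ) =
      (Real.exp z.1 * Real.cos z.2) • ((1 : ℝ), (0 : ℝ)) +
      (Real.exp z.1 * Real.sin z.2) • ((0 : ℝ), (1 : ℝ)) := by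
    ext <;> simp
  rw [h2, map_add, map_smul, map_smul]
  simp only [dx, dy, smul_eq_mul]
  ring

theorem dy_comp (c : ℝ × ℝ) {u : ℝ × ℝ → ℝ} (hu : ContDiff ℝ ∞ u) :
    dy (fun z => u (Ψ c z)) = fun z => Real.exp z.1 * (-Real.sin z.2 * dx u (Ψ c z) +
      Real.cos z.2 * dy u (Ψ c z)) := by
  funext z
  have h1 : HasFDerivAt (fun z => u (Ψ c z)) ((fderiv ℝ u (Ψ c z)).comp (dΨ z)) z :=
    (differentiable_of hu (Ψ c z)).hasFDerivAt.comp z (hasFDerivAt_Ψ c z)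
  show fderiv ℝ (fun z => u (Ψ c z)) z (0, 1) = _
  rw [h1.fderiv]
  simp only [ContinuousLinearMap.comp_apply, dΨ_apply]
  have h2 : ((Real.exp z.1 * Real.cos z.2 * 0 - Real.exp z.1 * Real.sin z.2 * 1,
      Real.exp z.1 * Real.sin z.2 * 0 + Real.exp z.1 * Real.cos z.2 * 1) : ℝ × ℝ) =
      (Real.exp z.1 * -Real.sin z.2) • ((1 : ℝ), (0 : ℝ)) +
      (Real.exp z.1 * Real.cos z.2) • ((0 : ℝ), (1 : ℝ)) := by
    ext <;> simp
  rw [h2, map_add, map_smul, map_smul]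
  simp only [dx, dy, smul_eq_mul]
  ring

theorem dx_of {f : ℝ × ℝ → ℝ} {f' : ℝ × ℝ →L[ℝ] ℝ} {z : ℝ × ℝ} (h : HasFDerivAt f f' z) :
    dx f z = f' (1, 0) := by unfold dx; rw [h.fderiv]

theorem dy_of {f : ℝ × ℝ → ℝ} {f' : ℝ × ℝ →L[ℝ] ℝ} {z : ℝ × ℝ} (h : HasFDerivAt f f' z) :
    dy f z = f' (0, 1) := by unfold dy; rw [h.fderiv]

theorem lap_comp (c : ℝ × ℝ) {u : ℝ × ℝ → ℝ} (hu : ContDiff ℝ ∞ u) :
    lap (fun z => u (Ψ c z)) = fun z => Real.exp (2 * z.1) * lap u (Ψ c z) := by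
  have hX := dx_contDiff hu
  have hY := dy_contDiff hu
  have hΨ := Ψ_contDiff c
  have cE : ContDiff ℝ ∞ (fun z : ℝ × ℝ => Real.exp z.1) := by fun_prop
  have cC : ContDiff ℝ ∞ (fun z : ℝ × ℝ => Real.cos z.2) := by fun_prop
  have cS : ContDiff ℝ ∞ (fun z : ℝ × ℝ => Real.sin z.2) := by fun_prop
  have cS' : ContDiff ℝ ∞ (fun z : ℝ × ℝ => -Real.sin z.2) := by fun_prop
  have cX : ContDiff ℝ ∞ (fun z : ℝ × ℝ => dx u (Ψ c z)) := hX.comp hΨ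
  have cY : ContDiff ℝ ∞ (fun z : ℝ × ℝ => dy u (Ψ c z)) := hY.comp hΨ
  have h1 : ∀ z : ℝ × ℝ, HasFDerivAt (fun z : ℝ × ℝ => Real.exp z.1)
      (Real.exp z.1 • ContinuousLinearMap.fst ℝ ℝ ℝ) z := fun z =>
    (Real.hasDerivAt_exp z.1).comp_hasFDerivAt z hasFDerivAt_fst
  have h2 : ∀ z : ℝ × ℝ, HasFDerivAt (fun z : ℝ × ℝ => Real.cos z.2)
      (-Real.sin z.2 • ContinuousLinearMap.snd ℝ ℝ ℝ) z := fun z =>
    (Real.hasDerivAt_cos z.2).comp_hasFDerivAt z hasFDerivAt_snd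
  have h3 : ∀ z : ℝ × ℝ, HasFDerivAt (fun z : ℝ × ℝ => Real.sin z.2)
      (Real.cos z.2 • ContinuousLinearMap.snd ℝ ℝ ℝ) z := fun z =>
    (Real.hasDerivAt_sin z.2).comp_hasFDerivAt z hasFDerivAt_snd
  have e1 : dx (fun z : ℝ × ℝ => Real.exp z.1) = fun z => Real.exp z.1 := by
    funext z; rw [dx_of (h1 z)]; simp
  have e2 : dy (fun z : ℝ × ℝ => Real.exp z.1) = fun _ => 0 := by
    funext z; rw [dy_of (h1 z)]; simp
  have e3 : dx (fun z : ℝ × ℝ => Real.cos z.2) = fun _ => 0 := by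
    funext z; rw [dx_of (h2 z)]; simp
  have e4 : dy (fun z : ℝ × ℝ => Real.cos z.2) = fun z => -Real.sin z.2 := by
    funext z; rw [dy_of (h2 z)]; simp
  have e5 : dx (fun z : ℝ × ℝ => Real.sin z.2) = fun _ => 0 := by
    funext z; rw [dx_of (h3 z)]; simp
  have e6 : dy (fun z : ℝ × ℝ => Real.sin z.2) = fun z => Real.cos z.2 := by
    funext z; rw [dy_of (h3 z)]; simp
  have e7 : dy (fun z : ℝ × ℝ => -Real.sin z.2) = fun z => -Real.cos z.2 := by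
    funext z
    have h4 : HasFDerivAt (fun z : ℝ × ℝ => -Real.sin z.2)
      (-(Real.cos z.2 • ContinuousLinearMap.snd ℝ ℝ ℝ)) z := (h3 z).neg
    rw [dy_of h4]; simp
  funext z
  unfold lap
  rw [dx_comp c hu, dy_comp c hu, dx_mul cE ((cC.mul cX).add (cS.mul cY)),
    dy_mul cE ((cS'.mul cX).add (cC.mul cY)), dx_add (cC.mul cX) (cS.mul cY),
    dy_add (cS'.mul cX) (cC.mul cY), dx_mul cC cX, dx_mul cS cY, dy_mul cS' cX, dy_mul cC cY,
    dx_comp c hX, dx_comp c hY, dy_comp c hX, dy_comp c hY, e1, e2, e3, e4, e5, e7]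
  have hc1 : Real.exp (2 * z.1) = Real.exp z.1 ^ 2 := by
    rw [← Real.exp_nat_mul]; norm_num
  have hc2 := Real.cos_sq_add_sin_sq z.2
  rw [hc1]
  simp only
  have : Real.exp z.1 ^ 2 * (dx (dx u) (Ψ c z) + dy (dy u) (Ψ c z)) =
      Real.exp z.1 ^ 2 * ((Real.cos z.2 ^ 2 + Real.sin z.2 ^ 2) * dx (dx u) (Ψ c z) +
        (Real.cos z.2 ^ 2 + Real.sin z.2 ^ 2) * dy (dy u) (Ψ c z)) := by
    rw [hc2]; ring
  rw [this]
  ring

theorem grad_comp (c : ℝ × ℝ) {u : ℝ × ℝ → ℝ} (hu : ContDiff ℝ ∞ u) (z : ℝ × ℝ) :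
    dx (fun z => u (Ψ c z)) z ^ 2 + dy (fun z => u (Ψ c z)) z ^ 2 =
      Real.exp (2 * z.1) * (dx u (Ψ c z) ^ 2 + dy u (Ψ c z) ^ 2) := by
  rw [dx_comp c hu, dy_comp c hu]
  have hc1 : Real.exp (2 * z.1) = Real.exp z.1 ^ 2 := by
    rw [← Real.exp_nat_mul]; norm_num
  have hc2 := Real.cos_sq_add_sin_sq z.2
  rw [hc1]
  calc _ = Real.exp z.1 ^ 2 * ((Real.cos z.2 ^ 2 + Real.sin z.2 ^ 2) *
        (dx u (Ψ c z) ^ 2 + dy u (Ψ c z) ^ 2)) := by ring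
    _ = _ := by rw [hc2, one_mul]

/-! ### local equality -/

theorem dx_congr {f g : ℝ × ℝ → ℝ} {z : ℝ × ℝ} (h : f =ᶠ[𝓝 z] g) : dx f =ᶠ[𝓝 z] dx g := by
  filter_upwards [h.fderiv (𝕜 := ℝ)] with w hw
  unfold dx; rw [hw]

theorem dy_congr {f g : ℝ × ℝ → ℝ} {z : ℝ × ℝ} (h : f =ᶠ[𝓝 z] g) : dy f =ᶠ[𝓝 z] dy g := by
  filter_upwards [h.fderiv (𝕜 := ℝ)] with w hw
  unfold dy; rw [hw]

theorem lap_congr {f g : ℝ × ℝ → ℝ} {z : ℝ × ℝ} (h : f =ᶠ[𝓝 z] g) : lap f z = lap g z := by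
  unfold lap
  rw [(dx_congr (dx_congr h)).eq_of_nhds, (dy_congr (dy_congr h)).eq_of_nhds]

theorem main (hform : S_form) : S_coer := by
  obtain ⟨C, hC, hf⟩ := hform
  refine ⟨C, hC, fun κ δ a b c u hκ0 hκ1 hδ hab hu => ?_⟩
  obtain ⟨huc, huK, hus⟩ := hu
  -- the angle
  obtain ⟨ρ, ψ, hρ, ha, hb⟩ : ∃ ρ ψ : ℝ, 0 < ρ ∧ -a = ρ * Real.cos ψ ∧ -b = ρ * Real.sin ψ := by
    set w : ℂ := ⟨-a, -b⟩
    have hw : w ≠ 0 := by
      intro h0
      have h1 : w.re = 0 := by rw [h0]; rfl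
      have h2 : w.im = 0 := by rw [h0]; rfl
      rcases hab with h | h
      · exact h (by simpa [w] using h1)
      · exact h (by simpa [w] using h2)
    exact ⟨‖w‖, w.arg, norm_pos_iff.2 hw, (Complex.norm_mul_cos_arg w).symm,
      (Complex.norm_mul_sin_arg w).symm⟩
  have hhalf : half c a b = Hf c ψ := by
    ext z
    show a * (z.1 - c.1) + b * (z.2 - c.2) < 0 ↔
      0 < (z.1 - c.1) * Real.cos ψ + (z.2 - c.2) * Real.sin ψ
    have h1 : a * (z.1 - c.1) + b * (z.2 - c.2) =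
        -(ρ * ((z.1 - c.1) * Real.cos ψ + (z.2 - c.2) * Real.sin ψ)) := by
      have ha' : a = -(ρ * Real.cos ψ) := by linarith
      have hb' : b = -(ρ * Real.sin ψ) := by linarith
      rw [ha', hb']; ring
    rw [h1, neg_lt_zero]
    constructor
    · intro h; exact (mul_pos_iff_of_pos_left hρ).1 h
    · intro h; positivity
  rw [hhalf] at hus
  have hcu : c ∉ tsupport u := by
    intro h
    have : 0 < (c.1 - c.1) * Real.cos ψ + (c.2 - c.2) * Real.sin ψ := hus h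
    simp at this
  -- the weight and the function `v`
  have hδ2 : 0 < δ ^ 2 := by positivity
  set w : ℝ × ℝ → ℝ := wt c κ δ with hw
  have hwc : ContDiff ℝ ∞ w := P_contDiff c hδ2 (-κ / 2)
  set v : ℝ × ℝ → ℝ := fun z => w z * u z with hv
  have hvc : ContDiff ℝ ∞ v := hwc.mul huc
  have hwΨ : ∀ z, w (Ψ c z) = (δ ^ 2 + Real.exp (2 * z.1)) ^ (-κ / 2) := by
    intro z
    rw [hw]; unfold wt; rw [sq_Ψ]
  -- the function `U`
  classical
  set U : ℝ × ℝ → ℝ := fun z => if z ∈ T ψ then u (Ψ c z) else 0 with hU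
  set K := Φ c ψ '' tsupport u with hK
  have hKc : IsCompact K := huK.isCompact.image_of_continuousOn ((Φ_cont c ψ).mono hus)
  have hKT : K ⊆ T ψ := by
    rintro _ ⟨z, hz, rfl⟩
    exact Φ_mem z
  have hU0 : ∀ z, z ∉ K → U z = 0 := by
    intro z hz
    rw [hU]; simp only
    split_ifs with h
    · by_contra h1
      exact hz ⟨Ψ c z, subset_tsupport u h1, Φ_Ψ h⟩
    · rfl
  have hUloc : ∀ z ∈ T ψ, U =ᶠ[𝓝 z] fun z => u (Ψ c z) := by
    intro z hz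
    filter_upwards [(T_open ψ).mem_nhds hz] with y hy
    rw [hU]; simp only [if_pos hy]
  have hUcd : ContDiff ℝ ∞ U := by
    rw [contDiff_iff_contDiffAt]
    intro z
    by_cases hz : z ∈ T ψ
    · exact (huc.comp (Ψ_contDiff c)).contDiffAt.congr_of_eventuallyEq (hUloc z hz)
    · have h1 : U =ᶠ[𝓝 z] fun _ => 0 := by
        filter_upwards [hKc.isClosed.isOpen_compl.mem_nhds (fun h => hz (hKT h))] with y hy
        exact hU0 y hy
      exact contDiffAt_const.congr_of_eventuallyEq h1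
  have hUts : tsupport U ⊆ K := by
    refine closure_minimal (fun z hz => ?_) hKc.isClosed
    by_contra h
    exact hz (hU0 z h)
  have hUT : U ∈ Tst (univ ×ˢ Ioo (ψ - Real.pi / 2) (ψ - Real.pi / 2 + Real.pi)) :=
    ⟨hUcd, HasCompactSupport.intro hKc hU0, hUts.trans hKT⟩
  have hmain := hf κ δ (ψ - Real.pi / 2) U hκ0 hκ1 hδ hUT
  have hout : ∀ z, z ∉ T ψ → z ∉ tsupport U := fun z hz h => hz (hKT (hUts h))
  -- left-hand side
  have hL : ∫ z, wt c κ δ z * en c u z = ∫ z : ℝ × ℝ,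
      (δ ^ 2 + Real.exp (2 * z.1)) ^ (-κ / 2) * Real.exp (-2 * z.1) *
        (lap U z ^ 2 + dx U z ^ 2 + dy U z ^ 2 + U z ^ 2) := by
    rw [chg c ψ (fun z => wt c κ δ z * en c u z) (fun z hz => by
      have h1 : z ∉ tsupport u := fun h => hz (hus h)
      rw [(en_adm huc huK hcu).zero z h1, mul_zero])]
    rw [← setIntegral_eq_integral_of_forall_compl_eq_zero (s := T ψ) (f := fun z : ℝ × ℝ =>
      (δ ^ 2 + Real.exp (2 * z.1)) ^ (-κ / 2) * Real.exp (-2 * z.1) *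
        (lap U z ^ 2 + dx U z ^ 2 + dy U z ^ 2 + U z ^ 2)) (fun z hz => by
      have h1 := hout z hz
      rw [lap_zero h1, dx_zero h1, dy_zero h1, image_eq_zero_of_notMem_tsupport h1]; simp)]
    refine setIntegral_congr_fun (T_open ψ).measurableSet (fun z hz => ?_)
    beta_reduce
    have hl := hUloc z hz
    rw [lap_congr hl, (dx_congr hl).eq_of_nhds, (dy_congr hl).eq_of_nhds, hl.eq_of_nhds]
    have hg := grad_comp c huc z
    rw [lap_comp c huc]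
    have hwz : wt c κ δ (Ψ c z) = (δ ^ 2 + Real.exp (2 * z.1)) ^ (-κ / 2) := hwΨ z
    rw [hwz]
    unfold en
    rw [sq_Ψ]
    simp only
    have e1 : Real.exp (-2 * z.1) = (Real.exp (2 * z.1))⁻¹ := by
      rw [← Real.exp_neg]; congr 1; ring
    rw [e1]
    have hE := Real.exp_pos (2 * z.1)
    set E := Real.exp (2 * z.1)
    have e2 : (E * lap u (Ψ c z)) ^ 2 + dx (fun z => u (Ψ c z)) z ^ 2 +
        dy (fun z => u (Ψ c z)) z ^ 2 + u (Ψ c z) ^ 2 = (E * lap u (Ψ c z)) ^ 2 +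
        E * (dx u (Ψ c z) ^ 2 + dy u (Ψ c z) ^ 2) + u (Ψ c z) ^ 2 := by
      rw [← hg]; ring
    rw [e2]
    field_simp
  -- right-hand side
  have hR : Dq u (fun z => wt c κ δ z * u z) = ∫ z : ℝ × ℝ, Real.exp (-2 * z.1) * lap U z *
        lap (fun z => (δ ^ 2 + Real.exp (2 * z.1)) ^ (-κ / 2) * U z) z := by
    unfold Dq
    rw [chg c ψ (fun z => lap u z * lap (fun z => wt c κ δ z * u z) z) (fun z hz => by
      have h1 : z ∉ tsupport u := fun h => hz (hus h)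
      rw [lap_zero h1, zero_mul])]
    rw [← setIntegral_eq_integral_of_forall_compl_eq_zero (s := T ψ) (f := fun z : ℝ × ℝ =>
      Real.exp (-2 * z.1) * lap U z *
        lap (fun z => (δ ^ 2 + Real.exp (2 * z.1)) ^ (-κ / 2) * U z) z) (fun z hz => by
      have h1 := hout z hz
      rw [lap_zero h1]; simp)]
    refine setIntegral_congr_fun (T_open ψ).measurableSet (fun z hz => ?_)
    beta_reduce
    have hl := hUloc z hz
    have hl2 : (fun z : ℝ × ℝ => (δ ^ 2 + Real.exp (2 * z.1)) ^ (-κ / 2) * U z) =ᶠ[𝓝 z]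
        fun z => v (Ψ c z) := by
      filter_upwards [hl] with y hy
      rw [hy, hv]; simp only
      rw [hwΨ]
    rw [lap_congr hl, lap_congr hl2, lap_comp c huc, lap_comp c hvc]
    have e1 : Real.exp (-2 * z.1) = (Real.exp (2 * z.1))⁻¹ := by
      rw [← Real.exp_neg]; congr 1; ring
    rw [e1]
    have hE := Real.exp_pos (2 * z.1)
    have e2 : lap (fun z => wt c κ δ z * u z) (Ψ c z) = lap v (Ψ c z) := rfl
    rw [e2]
    field_simp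
  rw [hL, hR]
  exact hmain

end Pool.Agent.W782.BkCoer
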