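import Pool.Agent.W782.BkDec

/-!
# Cutting off a function near a point
-/

namespace Pool.Agent.W782.BkCut

open MeasureTheory Set Pool.Agent.W792.Bk Pool.Agent.W782.BkDec
open scoped ContDiff

/-- Radial functions. -/
def Rd (S : ℝ → ℝ) (c : ℝ × ℝ) (k l : ℝ) (z : ℝ × ℝ) : ℝ := S (k * sq c z + l)

theorem Rd_contDiff {S : ℝ → ℝ} (hS : ContDiff ℝ ∞ S) (c : ℝ × ℝ) (k l : ℝ) :
    ContDiff ℝ ∞ (Rd S c k l) := by
  unfold Rd W792.Bk.sq
  fun_prop

theorem Rd_hasFDerivAt {S : ℝ → ℝ} (hS : ContDiff ℝ ∞ S) (c : ℝ × ℝ) (k l : ℝ) (z : ℝ × ℝ) :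
    HasFDerivAt (Rd S c k l) (deriv S (k * sq c z + l) • (k •
      ((2 * (z.1 - c.1)) • ContinuousLinearMap.fst ℝ ℝ ℝ +
      (2 * (z.2 - c.2)) • ContinuousLinearMap.snd ℝ ℝ ℝ))) z := by
  have h1 := ((hasFDerivAt_sq c z).const_mul k).add_const l
  have h2 : HasDerivAt S (deriv S (k * sq c z + l)) (k * sq c z + l) :=
    (hS.differentiable (by simp) _).hasDerivAt
  exact h2.comp_hasFDerivAt z h1

theorem dx_Rd {S : ℝ → ℝ} (hS : ContDiff ℝ ∞ S) (c : ℝ × ℝ) (k l : ℝ) :
    dx (Rd S c k l) = fun z => (2 * k) * ((z.1 - c.1) * Rd (deriv S) c k l z) := by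
  funext z
  unfold dx
  rw [(Rd_hasFDerivAt hS c k l z).fderiv]
  simp [Rd]
  ring

theorem dy_Rd {S : ℝ → ℝ} (hS : ContDiff ℝ ∞ S) (c : ℝ × ℝ) (k l : ℝ) :
    dy (Rd S c k l) = fun z => (2 * k) * ((z.2 - c.2) * Rd (deriv S) c k l z) := by
  funext z
  unfold dy
  rw [(Rd_hasFDerivAt hS c k l z).fderiv]
  simp [Rd]
  ring

theorem contDiff_deriv {S : ℝ → ℝ} (hS : ContDiff ℝ ∞ S) : ContDiff ℝ ∞ (deriv S) :=
  (contDiff_infty_iff_deriv.1 hS).2

theorem lap_Rd {S : ℝ → ℝ} (hS : ContDiff ℝ ∞ S) (c : ℝ × ℝ) (k l : ℝ) :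
    lap (Rd S c k l) = fun z => 4 * k ^ 2 * (sq c z * Rd (deriv (deriv S)) c k l z) +
      4 * k * Rd (deriv S) c k l z := by
  have l1 : ContDiff ℝ ∞ (fun z : ℝ × ℝ => z.1 - c.1) := by fun_prop
  have l2 : ContDiff ℝ ∞ (fun z : ℝ × ℝ => z.2 - c.2) := by fun_prop
  have hS' := contDiff_deriv hS
  have hP := Rd_contDiff hS' c k l
  funext z
  unfold lap
  rw [dx_Rd hS, dy_Rd hS, dx_cmul _ (l1.mul hP), dy_cmul _ (l2.mul hP), dx_mul l1 hP,
    dy_mul l2 hP, dx_lin, dy_lin, dx_Rd hS', dy_Rd hS']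
  unfold W792.Bk.sq
  ring

theorem S_bound : ∃ B : ℝ, 0 < B ∧ ∀ x ∈ Icc (-1 : ℝ) 2, |deriv Real.smoothTransition x| ≤ B ∧
    |deriv (deriv Real.smoothTransition) x| ≤ B := by
  have hS : ContDiff ℝ ∞ Real.smoothTransition := Real.smoothTransition.contDiff
  have h1 := (contDiff_deriv hS).continuous
  have h2 := (contDiff_deriv (contDiff_deriv hS)).continuous
  obtain ⟨B1, hB1⟩ := isCompact_Icc.exists_bound_of_continuousOn (s := Icc (-1 : ℝ) 2)
    h1.continuousOn
  obtain ⟨B2, hB2⟩ := isCompact_Icc.exists_bound_of_continuousOn (s := Icc (-1 : ℝ) 2)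
    h2.continuousOn
  refine ⟨max (max B1 B2) 1, by positivity, fun x hx => ⟨?_, ?_⟩⟩
  · exact (hB1 x hx).trans ((le_max_left _ _).trans (le_max_left _ _))
  · exact (hB2 x hx).trans ((le_max_right _ _).trans (le_max_left _ _))

theorem S_one {x : ℝ} (hx : 1 < x) : Real.smoothTransition x = 1 ∧
    deriv Real.smoothTransition x = 0 ∧ deriv (deriv Real.smoothTransition) x = 0 := by
  have h1 : Real.smoothTransition =ᶠ[nhds x] fun _ => 1 := by
    filter_upwards [lt_mem_nhds hx] with y hy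
    exact Real.smoothTransition.one_of_one_le hy.le
  have h2 : deriv Real.smoothTransition =ᶠ[nhds x] fun _ => 0 := by
    have := h1.deriv
    simpa using this
  refine ⟨h1.eq_of_nhds, h2.eq_of_nhds, ?_⟩
  have := h2.deriv.eq_of_nhds
  simpa using this

theorem comb {x y w L G V B : ℝ} (hy : y ^ 2 ≤ 11 * B ^ 2 * G) (hw : w ^ 2 ≤ 300 * B ^ 2 * V)
    (hx : x ^ 2 ≤ L ^ 2) (hL : 0 ≤ L ^ 2) (hG : 0 ≤ G) (hV : 0 ≤ V) :
    3 * (x ^ 2 + (2 * y) ^ 2 + w ^ 2) ≤ (3 + 1000 * B ^ 2) * (L ^ 2 + G + V) := by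
  have n4 : 0 ≤ B ^ 2 := sq_nonneg B
  have n5 := mul_nonneg n4 hL
  have n6 := mul_nonneg n4 hG
  have n7 := mul_nonneg n4 hV
  nlinarith

theorem main : S_cut := by
  obtain ⟨B, hB, hBd⟩ := S_bound
  have hS : ContDiff ℝ ∞ Real.smoothTransition := Real.smoothTransition.contDiff
  refine ⟨3 + 1000 * B ^ 2, by positivity, fun c δ u hδ hu hK hc => ?_⟩
  have hδ2 : 0 < δ ^ 2 := by positivity
  set k := 8 / (5 * δ ^ 2) with hk
  have hkp : 0 < k := by positivity
  have hkδ : k * δ ^ 2 = 8 / 5 := by rw [hk]; field_simp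
  set m := Rd Real.smoothTransition c k (-(2 / 5)) with hm
  have hmc : ContDiff ℝ ∞ m := Rd_contDiff hS c k _
  set v : ℝ × ℝ → ℝ := fun z => m z * u z with hv
  have hvc : ContDiff ℝ ∞ v := hmc.mul hu
  have hts : tsupport v ⊆ tsupport u := closure_mono (by
    intro z hz
    simp only [Function.mem_support, hv] at hz ⊢
    exact right_ne_zero_of_mul hz)
  have hvK : HasCompactSupport v := hK.mono' ((subset_tsupport v).trans hts)
  have hfar : ∀ z, δ ^ 2 ≤ sq c z → m z = 1 ∧ dx m z = 0 ∧ dy m z = 0 ∧ lap m z = 0 := by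
    intro z hz
    have hx : 1 < k * sq c z + -(2 / 5) := by nlinarith
    obtain ⟨h1, h2, h3⟩ := S_one hx
    refine ⟨h1, ?_, ?_, ?_⟩
    · rw [hm, dx_Rd hS]; simp [Rd, h2]
    · rw [hm, dy_Rd hS]; simp [Rd, h2]
    · rw [hm, lap_Rd hS]; simp [Rd, h2, h3]
  have hlapfar : ∀ z, δ ^ 2 ≤ sq c z → lap v z = lap u z := by
    intro z hz
    obtain ⟨h1, h2, h3, h4⟩ := hfar z hz
    rw [hv, lap_mul hmc hu]
    simp [h1, h2, h3, h4]
  have hdxfar : ∀ z, δ ^ 2 ≤ sq c z → dx v z = dx u z := by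
    intro z hz
    obtain ⟨h1, h2, h3, h4⟩ := hfar z hz
    rw [hv, dx_mul hmc hu]
    simp [h1, h2]
  have hdyfar : ∀ z, δ ^ 2 ≤ sq c z → dy v z = dy u z := by
    intro z hz
    obtain ⟨h1, h2, h3, h4⟩ := hfar z hz
    rw [hv, dy_mul hmc hu]
    simp [h1, h3]
  set A : Set (ℝ × ℝ) := {z | sq c z < δ ^ 2} with hA
  have hmeas : MeasurableSet A := (isOpen_lt (continuous_sq c) continuous_const).measurableSet
  have hen := en_adm hu hK hc
  have hIen : 0 ≤ ∫ z in A, en c u z := integral_nonneg (en_nonneg c u)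
  -- pointwise estimate inside
  have hin : ∀ z ∈ A, lap v z * lap v z ≤ (3 + 1000 * B ^ 2) * en c u z := by
    intro z hz
    by_cases hzu : z ∈ tsupport u
    · have hzc : z ≠ c := fun h => hc (h ▸ hzu)
      have hs := sq_pos' hzc
      have hsδ : sq c z < δ ^ 2 := hz
      have hx : k * sq c z + -(2 / 5) ∈ Icc (-1 : ℝ) 2 := by
        constructor
        · nlinarith [mul_pos hkp hs]
        · nlinarith [mul_lt_mul_of_pos_left hsδ hkp]
      obtain ⟨hb1, hb2⟩ := hBd _ hx
      have hm1 : m z ^ 2 ≤ 1 := by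
        have h0 : 0 ≤ m z := Real.smoothTransition.nonneg _
        have h1 : m z ≤ 1 := Real.smoothTransition.le_one _
        nlinarith
      have hmx : dx m z = (2 * k) * ((z.1 - c.1) * deriv Real.smoothTransition
          (k * sq c z + -(2 / 5))) := by rw [hm, dx_Rd hS]; rfl
      have hmy : dy m z = (2 * k) * ((z.2 - c.2) * deriv Real.smoothTransition
          (k * sq c z + -(2 / 5))) := by rw [hm, dy_Rd hS]; rfl
      have hml : lap m z = 4 * k ^ 2 * (sq c z * deriv (deriv Real.smoothTransition)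
          (k * sq c z + -(2 / 5))) + 4 * k * deriv Real.smoothTransition
          (k * sq c z + -(2 / 5)) := by rw [hm, lap_Rd hS]; rfl
      set s1 := deriv Real.smoothTransition (k * sq c z + -(2 / 5))
      set s2 := deriv (deriv Real.smoothTransition) (k * sq c z + -(2 / 5))
      have hse : sq c z = (z.1 - c.1) ^ 2 + (z.2 - c.2) ^ 2 := rfl
      have hks : k * sq c z ≤ 8 / 5 := by
        rw [← hkδ]; exact mul_le_mul_of_nonneg_left hsδ.le hkp.le
      have hks0 : 0 < k * sq c z := mul_pos hkp hs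
      have hs1 : s1 ^ 2 ≤ B ^ 2 := by
        rw [← sq_abs]; exact pow_le_pow_left₀ (abs_nonneg _) hb1 2
      have hlm : lap m z ^ 2 ≤ 300 * B ^ 2 / sq c z ^ 2 := by
        have h1 : |lap m z * sq c z| ≤ 17 * B := by
          have e1 : lap m z * sq c z = 4 * (k * sq c z) ^ 2 * s2 + 4 * (k * sq c z) * s1 := by
            rw [hml]; ring
          rw [e1]
          refine (abs_add_le _ _).trans ?_
          rw [abs_mul (4 * (k * sq c z) ^ 2) s2, abs_mul (4 * (k * sq c z)) s1,
            abs_of_nonneg (by positivity : 0 ≤ 4 * (k * sq c z) ^ 2),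
            abs_of_nonneg (by positivity : 0 ≤ 4 * (k * sq c z))]
          have h2 : 4 * (k * sq c z) ^ 2 ≤ 4 * (8 / 5) ^ 2 := by
            have := pow_le_pow_left₀ hks0.le hks 2
            linarith
          have h3 : 4 * (k * sq c z) * |s1| ≤ 4 * (8 / 5) * B :=
            mul_le_mul (by linarith) hb1 (abs_nonneg _) (by norm_num)
          have h4 : 4 * (k * sq c z) ^ 2 * |s2| ≤ 4 * (8 / 5) ^ 2 * B :=
            mul_le_mul h2 hb2 (abs_nonneg _) (by norm_num)
          nlinarith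
        have h2 : (lap m z * sq c z) ^ 2 ≤ (17 * B) ^ 2 := by
          rw [← sq_abs]; exact pow_le_pow_left₀ (abs_nonneg _) h1 2
        rw [le_div_iff₀ (by positivity), ← mul_pow]
        nlinarith
      have hgm : dx m z ^ 2 + dy m z ^ 2 ≤ 11 * B ^ 2 / sq c z := by
        rw [le_div_iff₀ hs, hmx, hmy]
        have e1 : ((2 * k * ((z.1 - c.1) * s1)) ^ 2 + (2 * k * ((z.2 - c.2) * s1)) ^ 2) * sq c z =
            4 * (k * sq c z) ^ 2 * s1 ^ 2 := by
          have : (k * sq c z) ^ 2 = k ^ 2 * sq c z * ((z.1 - c.1) ^ 2 + (z.2 - c.2) ^ 2) := by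
            rw [← hse]; ring
          rw [this]; ring
        rw [e1]
        have h2 : 4 * (k * sq c z) ^ 2 ≤ 4 * (8 / 5) ^ 2 := by
          have := pow_le_pow_left₀ hks0.le hks 2
          linarith
        calc 4 * (k * sq c z) ^ 2 * s1 ^ 2 ≤ 4 * (8 / 5) ^ 2 * B ^ 2 :=
              mul_le_mul h2 hs1 (by positivity) (by norm_num)
          _ ≤ 11 * B ^ 2 := by nlinarith [sq_nonneg B]
      have hcs : (dx m z * dx u z + dy m z * dy u z) ^ 2 ≤
          11 * B ^ 2 * ((dx u z ^ 2 + dy u z ^ 2) / sq c z) := by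
        calc (dx m z * dx u z + dy m z * dy u z) ^ 2
            ≤ (dx m z ^ 2 + dy m z ^ 2) * (dx u z ^ 2 + dy u z ^ 2) := by
              nlinarith [sq_nonneg (dx m z * dy u z - dy m z * dx u z)]
          _ ≤ 11 * B ^ 2 / sq c z * (dx u z ^ 2 + dy u z ^ 2) :=
              mul_le_mul_of_nonneg_right hgm (by positivity)
          _ = _ := by ring
      have hul : (u z * lap m z) ^ 2 ≤ 300 * B ^ 2 * (u z ^ 2 / sq c z ^ 2) := by
        calc (u z * lap m z) ^ 2 = u z ^ 2 * lap m z ^ 2 := by ring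
          _ ≤ u z ^ 2 * (300 * B ^ 2 / sq c z ^ 2) :=
              mul_le_mul_of_nonneg_left hlm (sq_nonneg _)
          _ = _ := by ring
      have hmu : (m z * lap u z) ^ 2 ≤ lap u z ^ 2 := by
        calc (m z * lap u z) ^ 2 = m z ^ 2 * lap u z ^ 2 := by ring
          _ ≤ 1 * lap u z ^ 2 := mul_le_mul_of_nonneg_right hm1 (sq_nonneg _)
          _ = _ := one_mul _
      have e0 : lap v z = m z * lap u z + 2 * (dx m z * dx u z + dy m z * dy u z) +
          u z * lap m z := by rw [hv, lap_mul hmc hu]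
      rw [← pow_two, e0]
      refine (three_sq _ _ _).trans ?_
      exact comb hcs hul hmu (by positivity) (by positivity) (by positivity)
    · have h0 : lap v z = 0 := lap_zero (fun h => hzu (hts h))
      rw [h0]
      have := en_nonneg c u z
      simp only [mul_zero]
      positivity
  refine ⟨v, hvc, hvK, hts, ?_, ?_, ?_⟩
  · intro z hz
    have h0 : m z = 0 := by
      apply Real.smoothTransition.zero_of_nonpos
      have : k * sq c z ≤ k * (δ / 2) ^ 2 := mul_le_mul_of_nonneg_left hz.le hkp.le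
      nlinarith
    show m z * u z = 0
    rw [h0, zero_mul]
  · have i1 : Integrable (fun z => lap v z * lap v z) :=
      ((adm_lap hvc).mul_right (adm_lap hvc).cont).integrable hvK
    have i2 : Integrable (fun z => lap u z * lap u z) :=
      ((adm_lap hu).mul_right (adm_lap hu).cont).integrable hK
    unfold Dq
    rw [← integral_add_compl hmeas i1]
    have h1 : ∫ z in A, lap v z * lap v z ≤ (3 + 1000 * B ^ 2) * ∫ z in A, en c u z := by
      rw [← integral_const_mul]
      exact setIntegral_mono_on i1.integrableOn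
        ((hen.integrable hK).const_mul _).integrableOn hmeas hin
    have h2 : ∫ z in Aᶜ, lap v z * lap v z ≤ ∫ z, lap u z * lap u z := by
      calc ∫ z in Aᶜ, lap v z * lap v z = ∫ z in Aᶜ, lap u z * lap u z :=
            setIntegral_congr_fun hmeas.compl (fun z hz => by
              have : δ ^ 2 ≤ sq c z := not_lt.1 hz
              simp only [hlapfar z this])
        _ ≤ _ := setIntegral_le_integral i2
            (Filter.Eventually.of_forall (fun z => mul_self_nonneg _))
    linarith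
  · have i1 : Integrable (fun z => dx v z * dx v z + dy v z * dy v z) :=
      (((adm_dx hvc).mul_right (adm_dx hvc).cont).add
        ((adm_dy hvc).mul_right (adm_dy hvc).cont)).integrable hvK
    have i2 : Integrable (fun z => dx u z * dx u z + dy u z * dy u z) :=
      (((adm_dx hu).mul_right (adm_dx hu).cont).add
        ((adm_dy hu).mul_right (adm_dy hu).cont)).integrable hK
    unfold Nq
    rw [← integral_add_compl hmeas i2]
    have h1 : ∫ z in A, (dx u z * dx u z + dy u z * dy u z) ≤ δ ^ 2 * ∫ z in A, en c u z := by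
      rw [← integral_const_mul]
      refine setIntegral_mono_on i2.integrableOn
        ((hen.integrable hK).const_mul _).integrableOn hmeas (fun z hz => ?_)
      by_cases hzu : z ∈ tsupport u
      · have hzc : z ≠ c := fun h => hc (h ▸ hzu)
        have hs := sq_pos' hzc
        have hsδ : sq c z < δ ^ 2 := hz
        have e1 : dx u z * dx u z + dy u z * dy u z =
            sq c z * ((dx u z ^ 2 + dy u z ^ 2) / sq c z) := by
          field_simp
        rw [e1]
        have e2 : (dx u z ^ 2 + dy u z ^ 2) / sq c z ≤ en c u z := by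
          unfold en
          have : 0 ≤ lap u z ^ 2 := by positivity
          have : 0 ≤ u z ^ 2 / sq c z ^ 2 := by positivity
          linarith
        exact mul_le_mul hsδ.le e2 (by positivity) hδ2.le
      · rw [dx_zero hzu, dy_zero hzu]
        have := en_nonneg c u z
        simp only [mul_zero, add_zero]
        positivity
    have h2 : ∫ z in Aᶜ, (dx u z * dx u z + dy u z * dy u z) ≤
        ∫ z, (dx v z * dx v z + dy v z * dy v z) := by
      calc ∫ z in Aᶜ, (dx u z * dx u z + dy u z * dy u z)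
          = ∫ z in Aᶜ, (dx v z * dx v z + dy v z * dy v z) :=
            setIntegral_congr_fun hmeas.compl (fun z hz => by
              have : δ ^ 2 ≤ sq c z := not_lt.1 hz
              simp only [hdxfar z this, hdyfar z this])
        _ ≤ _ := setIntegral_le_integral i1
            (Filter.Eventually.of_forall (fun z =>
              add_nonneg (mul_self_nonneg _) (mul_self_nonneg _)))
    have h3 : δ ^ 2 * ∫ z in A, en c u z ≤ (3 + 1000 * B ^ 2) * δ ^ 2 * ∫ z in A, en c u z := by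
      have : 0 ≤ δ ^ 2 * ∫ z in A, en c u z := mul_nonneg hδ2.le hIen
      nlinarith [sq_nonneg B]
    linarith

end Pool.Agent.W782.BkCut
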