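import Pool.Agent.W792.Bk.Stms

/-!
# Decay of the energy of almost minimizers at a boundary point
-/

namespace Pool.Agent.W782.BkDec

open MeasureTheory Set Pool.Agent.W792.Bk
open scoped ContDiff

/-- Continuous functions vanishing outside `K`. -/
structure Adm (K : Set (ℝ × ℝ)) (f : ℝ × ℝ → ℝ) : Prop where
  cont : Continuous f
  zero : ∀ z, z ∉ K → f z = 0

namespace Adm

variable {K : Set (ℝ × ℝ)} {f g : ℝ × ℝ → ℝ}

theorem hcs (hK : IsCompact K) (hf : Adm K f) : HasCompactSupport f :=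
  HasCompactSupport.intro hK (fun z hz => hf.zero z hz)

theorem integrable (hK : IsCompact K) (hf : Adm K f) : Integrable f :=
  hf.cont.integrable_of_hasCompactSupport (hf.hcs hK)

theorem add (hf : Adm K f) (hg : Adm K g) : Adm K (fun z => f z + g z) :=
  ⟨hf.cont.add hg.cont, fun z hz => by simp [hf.zero z hz, hg.zero z hz]⟩

theorem sub (hf : Adm K f) (hg : Adm K g) : Adm K (fun z => f z - g z) :=
  ⟨hf.cont.sub hg.cont, fun z hz => by simp [hf.zero z hz, hg.zero z hz]⟩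

theorem mul_left (hg : Continuous g) (hf : Adm K f) : Adm K (fun z => g z * f z) :=
  ⟨hg.mul hf.cont, fun z hz => by simp [hf.zero z hz]⟩

theorem mul_right (hf : Adm K f) (hg : Continuous g) : Adm K (fun z => f z * g z) :=
  ⟨hf.cont.mul hg, fun z hz => by simp [hf.zero z hz]⟩

theorem const_mul (c : ℝ) (hf : Adm K f) : Adm K (fun z => c * f z) :=
  ⟨continuous_const.mul hf.cont, fun z hz => by simp [hf.zero z hz]⟩

theorem sq2 (hf : Adm K f) : Adm K (fun z => f z ^ 2) :=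
  ⟨hf.cont.pow 2, fun z hz => by simp [hf.zero z hz]⟩

end Adm

theorem sq_nonneg' (c z : ℝ × ℝ) : 0 ≤ sq c z := by unfold W792.Bk.sq; positivity

theorem sq_pos' {c z : ℝ × ℝ} (h : z ≠ c) : 0 < sq c z := by
  unfold W792.Bk.sq
  rcases eq_or_ne z.1 c.1 with h1 | h1
  · have h2 : z.2 ≠ c.2 := fun h2 => h (Prod.ext h1 h2)
    have : 0 < (z.2 - c.2) ^ 2 := by
      have := sub_ne_zero.2 h2
      positivity
    nlinarith [sq_nonneg (z.1 - c.1)]
  · have : 0 < (z.1 - c.1) ^ 2 := by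
      have := sub_ne_zero.2 h1
      positivity
    nlinarith [sq_nonneg (z.2 - c.2)]

theorem continuous_sq (c : ℝ × ℝ) : Continuous (sq c) := by
  unfold W792.Bk.sq; fun_prop

theorem Adm.div_sq {K : Set (ℝ × ℝ)} {f : ℝ × ℝ → ℝ} {c : ℝ × ℝ} (hK : IsCompact K)
    (hc : c ∉ K) (hf : Adm K f) (n : ℕ) : Adm K (fun z => f z / sq c z ^ n) := by
  refine ⟨?_, fun z hz => by simp [hf.zero z hz]⟩
  rw [continuous_iff_continuousAt]
  intro z
  rcases eq_or_ne z c with rfl | h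
  · have h1 : (fun z' => f z' / sq z z' ^ n) =ᶠ[nhds z] fun _ => 0 := by
      filter_upwards [hK.isClosed.isOpen_compl.mem_nhds hc] with y hy
      rw [hf.zero y hy, zero_div]
    exact (continuousAt_const.congr h1.symm)
  · exact hf.cont.continuousAt.div ((continuous_sq c).continuousAt.pow n)
      (pow_ne_zero _ (sq_pos' h).ne')

/-! ### derivatives -/

theorem dx_contDiff {u : ℝ × ℝ → ℝ} (hu : ContDiff ℝ ∞ u) : ContDiff ℝ ∞ (dx u) := by
  unfold dx
  exact (hu.fderiv_right (m := ∞) (by simp)).clm_apply contDiff_const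

theorem dy_contDiff {u : ℝ × ℝ → ℝ} (hu : ContDiff ℝ ∞ u) : ContDiff ℝ ∞ (dy u) := by
  unfold dy
  exact (hu.fderiv_right (m := ∞) (by simp)).clm_apply contDiff_const

theorem lap_contDiff {u : ℝ × ℝ → ℝ} (hu : ContDiff ℝ ∞ u) : ContDiff ℝ ∞ (lap u) := by
  unfold lap
  exact (dx_contDiff (dx_contDiff hu)).add (dy_contDiff (dy_contDiff hu))

theorem fd_zero {u : ℝ × ℝ → ℝ} {z : ℝ × ℝ} (hz : z ∉ tsupport u) : fderiv ℝ u z = 0 := by
  by_contra h
  exact hz (support_fderiv_subset ℝ (Function.mem_support.2 h))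

theorem dx_zero {u : ℝ × ℝ → ℝ} {z : ℝ × ℝ} (hz : z ∉ tsupport u) : dx u z = 0 := by
  unfold dx; rw [fd_zero hz]; simp

theorem dy_zero {u : ℝ × ℝ → ℝ} {z : ℝ × ℝ} (hz : z ∉ tsupport u) : dy u z = 0 := by
  unfold dy; rw [fd_zero hz]; simp

theorem ts_dx (u : ℝ × ℝ → ℝ) : tsupport (dx u) ⊆ tsupport u := by
  refine closure_minimal (fun z hz => ?_) (isClosed_tsupport u)
  by_contra h
  exact hz (dx_zero h)

theorem ts_dy (u : ℝ × ℝ → ℝ) : tsupport (dy u) ⊆ tsupport u := by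
  refine closure_minimal (fun z hz => ?_) (isClosed_tsupport u)
  by_contra h
  exact hz (dy_zero h)

theorem lap_zero {u : ℝ × ℝ → ℝ} {z : ℝ × ℝ} (hz : z ∉ tsupport u) : lap u z = 0 := by
  unfold lap
  rw [dx_zero (fun h => hz (ts_dx u h)), dy_zero (fun h => hz (ts_dy u h)), add_zero]

theorem adm_u {u : ℝ × ℝ → ℝ} (hu : ContDiff ℝ ∞ u) : Adm (tsupport u) u :=
  ⟨hu.continuous, fun _ hz => image_eq_zero_of_notMem_tsupport hz⟩

theorem adm_dx {u : ℝ × ℝ → ℝ} (hu : ContDiff ℝ ∞ u) : Adm (tsupport u) (dx u) :=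
  ⟨(dx_contDiff hu).continuous, fun _ hz => dx_zero hz⟩

theorem adm_dy {u : ℝ × ℝ → ℝ} (hu : ContDiff ℝ ∞ u) : Adm (tsupport u) (dy u) :=
  ⟨(dy_contDiff hu).continuous, fun _ hz => dy_zero hz⟩

theorem adm_lap {u : ℝ × ℝ → ℝ} (hu : ContDiff ℝ ∞ u) : Adm (tsupport u) (lap u) :=
  ⟨(lap_contDiff hu).continuous, fun _ hz => lap_zero hz⟩

theorem differentiable_of {u : ℝ × ℝ → ℝ} (hu : ContDiff ℝ ∞ u) : Differentiable ℝ u :=
  hu.differentiable (by simp)

theorem dx_mul {w u : ℝ × ℝ → ℝ} (hw : ContDiff ℝ ∞ w) (hu : ContDiff ℝ ∞ u) :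
    dx (fun z => w z * u z) = fun z => w z * dx u z + u z * dx w z := by
  funext z
  unfold dx
  have : fderiv ℝ (fun z => w z * u z) z = w z • fderiv ℝ u z + u z • fderiv ℝ w z :=
    fderiv_fun_mul (differentiable_of hw z) (differentiable_of hu z)
  rw [this]; simp

theorem dy_mul {w u : ℝ × ℝ → ℝ} (hw : ContDiff ℝ ∞ w) (hu : ContDiff ℝ ∞ u) :
    dy (fun z => w z * u z) = fun z => w z * dy u z + u z * dy w z := by
  funext z
  unfold dy
  have : fderiv ℝ (fun z => w z * u z) z = w z • fderiv ℝ u z + u z • fderiv ℝ w z :=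
    fderiv_fun_mul (differentiable_of hw z) (differentiable_of hu z)
  rw [this]; simp

theorem dx_add {w u : ℝ × ℝ → ℝ} (hw : ContDiff ℝ ∞ w) (hu : ContDiff ℝ ∞ u) :
    dx (fun z => w z + u z) = fun z => dx w z + dx u z := by
  funext z
  unfold dx
  have : fderiv ℝ (fun z => w z + u z) z = fderiv ℝ w z + fderiv ℝ u z :=
    fderiv_fun_add (differentiable_of hw z) (differentiable_of hu z)
  rw [this]; simp

theorem dy_add {w u : ℝ × ℝ → ℝ} (hw : ContDiff ℝ ∞ w) (hu : ContDiff ℝ ∞ u) :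
    dy (fun z => w z + u z) = fun z => dy w z + dy u z := by
  funext z
  unfold dy
  have : fderiv ℝ (fun z => w z + u z) z = fderiv ℝ w z + fderiv ℝ u z :=
    fderiv_fun_add (differentiable_of hw z) (differentiable_of hu z)
  rw [this]; simp

theorem dx_cmul {u : ℝ × ℝ → ℝ} (s : ℝ) (hu : ContDiff ℝ ∞ u) :
    dx (fun z => s * u z) = fun z => s * dx u z := by
  funext z
  unfold dx
  have : fderiv ℝ (fun z => s * u z) z = s • fderiv ℝ u z :=
    fderiv_const_mul (differentiable_of hu z) s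
  rw [this]; simp

theorem dy_cmul {u : ℝ × ℝ → ℝ} (s : ℝ) (hu : ContDiff ℝ ∞ u) :
    dy (fun z => s * u z) = fun z => s * dy u z := by
  funext z
  unfold dy
  have : fderiv ℝ (fun z => s * u z) z = s • fderiv ℝ u z :=
    fderiv_const_mul (differentiable_of hu z) s
  rw [this]; simp

theorem lap_mul {w u : ℝ × ℝ → ℝ} (hw : ContDiff ℝ ∞ w) (hu : ContDiff ℝ ∞ u) :
    lap (fun z => w z * u z) = fun z => w z * lap u z + 2 * (dx w z * dx u z + dy w z * dy u z) +
      u z * lap w z := by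
  have h1 := dx_contDiff hw
  have h2 := dx_contDiff hu
  have h3 := dy_contDiff hw
  have h4 := dy_contDiff hu
  funext z
  unfold lap
  rw [dx_mul hw hu, dy_mul hw hu, dx_add (hw.mul h2) (hu.mul h1), dy_add (hw.mul h4) (hu.mul h3),
    dx_mul hw h2, dx_mul hu h1, dy_mul hw h4, dy_mul hu h3]
  ring

theorem lap_add {w u : ℝ × ℝ → ℝ} (hw : ContDiff ℝ ∞ w) (hu : ContDiff ℝ ∞ u) :
    lap (fun z => w z + u z) = fun z => lap w z + lap u z := by
  have h1 := dx_contDiff hw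
  have h2 := dx_contDiff hu
  have h3 := dy_contDiff hw
  have h4 := dy_contDiff hu
  funext z
  unfold lap
  rw [dx_add hw hu, dy_add hw hu, dx_add h1 h2, dy_add h3 h4]
  ring

theorem lap_cmul {u : ℝ × ℝ → ℝ} (s : ℝ) (hu : ContDiff ℝ ∞ u) :
    lap (fun z => s * u z) = fun z => s * lap u z := by
  have h2 := dx_contDiff hu
  have h4 := dy_contDiff hu
  funext z
  unfold lap
  rw [dx_cmul s hu, dy_cmul s hu, dx_cmul s h2, dy_cmul s h4]
  ring

/-! ### the weight -/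

theorem hasFDerivAt_sq (c z : ℝ × ℝ) : HasFDerivAt (sq c)
    ((2 * (z.1 - c.1)) • ContinuousLinearMap.fst ℝ ℝ ℝ +
      (2 * (z.2 - c.2)) • ContinuousLinearMap.snd ℝ ℝ ℝ) z := by
  have h1 : HasFDerivAt (fun z : ℝ × ℝ => (z.1 - c.1) ^ 2)
      ((2 * (z.1 - c.1)) • ContinuousLinearMap.fst ℝ ℝ ℝ) z := by
    have := ((hasFDerivAt_fst (𝕜 := ℝ) (p := z)).sub_const c.1).pow 2
    refine this.congr_fderiv ?_
    ext <;> simp
  have h2 : HasFDerivAt (fun z : ℝ × ℝ => (z.2 - c.2) ^ 2)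
      ((2 * (z.2 - c.2)) • ContinuousLinearMap.snd ℝ ℝ ℝ) z := by
    have := ((hasFDerivAt_snd (𝕜 := ℝ) (p := z)).sub_const c.2).pow 2
    refine this.congr_fderiv ?_
    ext <;> simp
  exact h1.add h2

/-- The powers of `d + |z - c| ^ 2`. -/
noncomputable def P (c : ℝ × ℝ) (d p : ℝ) (z : ℝ × ℝ) : ℝ := (d + sq c z) ^ p

theorem P_contDiff (c : ℝ × ℝ) {d : ℝ} (hd : 0 < d) (p : ℝ) : ContDiff ℝ ∞ (P c d p) := by
  unfold P
  have h1 : ContDiff ℝ ∞ (fun z => d + sq c z) := by unfold W792.Bk.sq; fun_prop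
  exact h1.rpow_const_of_ne (fun z => (by have := sq_nonneg' c z; positivity))

theorem P_hasFDerivAt (c : ℝ × ℝ) {d : ℝ} (hd : 0 < d) (p : ℝ) (z : ℝ × ℝ) :
    HasFDerivAt (P c d p) ((p * P c d (p - 1) z) •
      ((2 * (z.1 - c.1)) • ContinuousLinearMap.fst ℝ ℝ ℝ +
      (2 * (z.2 - c.2)) • ContinuousLinearMap.snd ℝ ℝ ℝ)) z := by
  have h0 : d + sq c z ≠ 0 := by have := sq_nonneg' c z; positivity
  exact ((hasFDerivAt_sq c z).const_add d).rpow_const (Or.inl h0)

theorem dx_P (c : ℝ × ℝ) {d : ℝ} (hd : 0 < d) (p : ℝ) :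
    dx (P c d p) = fun z => (2 * p) * ((z.1 - c.1) * P c d (p - 1) z) := by
  funext z
  unfold dx
  rw [(P_hasFDerivAt c hd p z).fderiv]
  simp
  ring

theorem dy_P (c : ℝ × ℝ) {d : ℝ} (hd : 0 < d) (p : ℝ) :
    dy (P c d p) = fun z => (2 * p) * ((z.2 - c.2) * P c d (p - 1) z) := by
  funext z
  unfold dy
  rw [(P_hasFDerivAt c hd p z).fderiv]
  simp
  ring

theorem dx_lin (c : ℝ × ℝ) : dx (fun z : ℝ × ℝ => z.1 - c.1) = fun _ => 1 := by
  funext z
  unfold dx
  rw [((hasFDerivAt_fst (𝕜 := ℝ) (p := z)).sub_const c.1).fderiv]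
  simp

theorem dy_lin (c : ℝ × ℝ) : dy (fun z : ℝ × ℝ => z.2 - c.2) = fun _ => 1 := by
  funext z
  unfold dy
  rw [((hasFDerivAt_snd (𝕜 := ℝ) (p := z)).sub_const c.2).fderiv]
  simp

theorem lap_P (c : ℝ × ℝ) {d : ℝ} (hd : 0 < d) (p : ℝ) :
    lap (P c d p) = fun z => 4 * p * (p - 1) * (sq c z * P c d (p - 2) z) +
      4 * p * P c d (p - 1) z := by
  have l1 : ContDiff ℝ ∞ (fun z : ℝ × ℝ => z.1 - c.1) := by fun_prop
  have l2 : ContDiff ℝ ∞ (fun z : ℝ × ℝ => z.2 - c.2) := by fun_prop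
  have hP := P_contDiff c hd (p - 1)
  funext z
  unfold lap
  rw [dx_P c hd, dy_P c hd, dx_cmul _ (l1.mul hP), dy_cmul _ (l2.mul hP), dx_mul l1 hP,
    dy_mul l2 hP, dx_lin, dy_lin, dx_P c hd, dy_P c hd]
  have : p - 1 - 1 = p - 2 := by ring
  simp only [this]
  unfold W792.Bk.sq
  ring

theorem P_sub_one (c : ℝ × ℝ) {d : ℝ} (hd : 0 < d) (p : ℝ) (z : ℝ × ℝ) :
    P c d (p - 1) z = P c d p z / (d + sq c z) := by
  unfold P
  have h0 : 0 < d + sq c z := by have := sq_nonneg' c z; positivity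
  rw [Real.rpow_sub_one h0.ne']

theorem P_pos (c : ℝ × ℝ) {d : ℝ} (hd : 0 < d) (p : ℝ) (z : ℝ × ℝ) : 0 < P c d p z := by
  unfold P
  have h0 : 0 < d + sq c z := by have := sq_nonneg' c z; positivity
  positivity

theorem en_adm {c : ℝ × ℝ} {u : ℝ × ℝ → ℝ} (hu : ContDiff ℝ ∞ u) (hK : HasCompactSupport u)
    (hc : c ∉ tsupport u) : Adm (tsupport u) (en c u) := by
  unfold en
  have h1 := (adm_lap hu).sq2
  have h2 := ((adm_dx hu).sq2.add (adm_dy hu).sq2).div_sq hK hc 1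
  have h3 := (adm_u hu).sq2.div_sq hK hc 2
  simpa using (h1.add h2).add h3

theorem en_nonneg (c : ℝ × ℝ) (u : ℝ × ℝ → ℝ) (z : ℝ × ℝ) : 0 ≤ en c u z := by
  unfold en
  have := sq_nonneg' c z
  positivity

/-- Pointwise bound of the form `Nq`. -/
theorem pt_N {c z : ℝ × ℝ} {d : ℝ} (hd : 0 < d) (hz : z ≠ c) {u : ℝ × ℝ → ℝ}
    (hu : ContDiff ℝ ∞ u) :
    dx u z * dx (fun z => P c d (-(3 / 2) / 2) z * u z) z +
      dy u z * dy (fun z => P c d (-(3 / 2) / 2) z * u z) z ≤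
      2 * (P c d (-(3 / 2) / 2) z * sq c z) * en c u z := by
  rw [dx_mul (P_contDiff c hd _) hu, dy_mul (P_contDiff c hd _) hu, dx_P c hd, dy_P c hd]
  simp only [P_sub_one c hd]
  have hs := sq_pos' hz
  have hw := P_pos c hd (-(3 / 2) / 2) z
  have hse : sq c z = (z.1 - c.1) ^ 2 + (z.2 - c.2) ^ 2 := rfl
  unfold en
  set w := P c d (-(3 / 2) / 2) z
  set s := sq c z
  set X := z.1 - c.1
  set Y := z.2 - c.2
  set ux := dx u z
  set uy := dy u z
  set v := u z
  have hm : 0 < d + s := by positivity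
  have e1 : 2 * (w * s) * (lap u z ^ 2 + (ux ^ 2 + uy ^ 2) / s + v ^ 2 / s ^ 2) =
      2 * w * (s * lap u z ^ 2 + (ux ^ 2 + uy ^ 2) + v ^ 2 / s) := by
    field_simp
  rw [e1]
  have e2 : ux * (w * ux + v * (2 * (-(3 / 2) / 2) * (X * (w / (d + s))))) +
      uy * (w * uy + v * (2 * (-(3 / 2) / 2) * (Y * (w / (d + s))))) =
      w * ((ux ^ 2 + uy ^ 2) - 3 / 2 * ((X * ux * (v / (d + s))) + (Y * uy * (v / (d + s))))) := by
    field_simp
    ring
  rw [e2]
  have k1 : -(X * ux * (v / (d + s))) ≤ (ux ^ 2 + X ^ 2 * (v / (d + s)) ^ 2) / 2 := by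
    nlinarith [sq_nonneg (ux + X * (v / (d + s)))]
  have k2 : -(Y * uy * (v / (d + s))) ≤ (uy ^ 2 + Y ^ 2 * (v / (d + s)) ^ 2) / 2 := by
    nlinarith [sq_nonneg (uy + Y * (v / (d + s)))]
  have k3 : (X ^ 2 + Y ^ 2) * (v / (d + s)) ^ 2 ≤ v ^ 2 / s := by
    rw [← hse, div_pow, mul_div_assoc', div_le_div_iff₀ (by positivity) hs]
    nlinarith [mul_nonneg (sq_nonneg v) (mul_nonneg hd.le (by positivity : 0 ≤ d + 2 * s))]
  have k4 : 0 ≤ s * lap u z ^ 2 := by positivity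
  have k5 : 0 ≤ v ^ 2 / s := by positivity
  have k6 : (ux ^ 2 + uy ^ 2) - 3 / 2 * ((X * ux * (v / (d + s))) + (Y * uy * (v / (d + s)))) ≤
      2 * (s * lap u z ^ 2 + (ux ^ 2 + uy ^ 2) + v ^ 2 / s) := by
    nlinarith [sq_nonneg ux, sq_nonneg uy]
  calc w * _ ≤ w * (2 * (s * lap u z ^ 2 + (ux ^ 2 + uy ^ 2) + v ^ 2 / s)) :=
        mul_le_mul_of_nonneg_left k6 hw.le
    _ = _ := by ring

theorem three_sq (x y z : ℝ) : (x + y + z) ^ 2 ≤ 3 * (x ^ 2 + y ^ 2 + z ^ 2) := by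
  nlinarith [sq_nonneg (x - y), sq_nonneg (y - z), sq_nonneg (x - z)]

/-- Pointwise bound of the form `Dq`. -/
theorem pt_D {c z : ℝ × ℝ} {d : ℝ} (hd : 0 < d) (hz : z ≠ c) {u : ℝ × ℝ → ℝ}
    (hu : ContDiff ℝ ∞ u) :
    lap (fun z => P c d (-(3 / 2) / 2) z * u z) z ^ 2 ≤
      100 * P c d (-(3 / 2) / 2) z ^ 2 * en c u z := by
  rw [lap_mul (P_contDiff c hd _) hu, dx_P c hd, dy_P c hd, lap_P c hd]
  have hP2 : P c d (-(3 / 2) / 2 - 2) z = P c d (-(3 / 2) / 2) z / (d + sq c z) / (d + sq c z) := by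
    have : (-(3 / 2) / 2 - 2 : ℝ) = -(3 / 2) / 2 - 1 - 1 := by ring
    rw [this, P_sub_one c hd, P_sub_one c hd]
  simp only [P_sub_one c hd, hP2]
  have hs := sq_pos' hz
  have hw := P_pos c hd (-(3 / 2) / 2) z
  have hse : sq c z = (z.1 - c.1) ^ 2 + (z.2 - c.2) ^ 2 := rfl
  unfold en
  set w := P c d (-(3 / 2) / 2) z
  set s := sq c z
  set X := z.1 - c.1
  set Y := z.2 - c.2
  set ux := dx u z
  set uy := dy u z
  set L := lap u z
  set v := u z
  have hm : 0 < d + s := by positivity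
  have k0 : s / (d + s) ≤ 1 := by rw [div_le_one hm]; linarith
  have k0' : 0 ≤ s / (d + s) := by positivity
  -- the three terms
  set g := 2 * ((2 * (-(3 / 2) / 2) * (X * (w / (d + s)))) * ux +
    (2 * (-(3 / 2) / 2) * (Y * (w / (d + s)))) * uy) with hg
  set q := 4 * (-(3 / 2) / 2) * (-(3 / 2) / 2 - 1) * (s * (w / (d + s) / (d + s))) +
    4 * (-(3 / 2) / 2) * (w / (d + s)) with hq
  have hq1 : q = (w / (d + s)) * (21 / 4 * (s / (d + s)) - 3) := by
    rw [hq]; field_simp; ring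
  have hq2 : q ^ 2 ≤ 28 * w ^ 2 / s ^ 2 := by
    rw [hq1, mul_pow, div_pow]
    have a1 : (21 / 4 * (s / (d + s)) - 3) ^ 2 ≤ 28 := by nlinarith
    have a2 : w ^ 2 / (d + s) ^ 2 ≤ w ^ 2 / s ^ 2 := by
      apply div_le_div_of_nonneg_left (by positivity) (by positivity)
      apply pow_le_pow_left₀ hs.le; linarith
    calc w ^ 2 / (d + s) ^ 2 * (21 / 4 * (s / (d + s)) - 3) ^ 2 ≤ w ^ 2 / s ^ 2 * 28 :=
          mul_le_mul a2 a1 (by positivity) (by positivity)
      _ = _ := by ring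
  have hg2 : g ^ 2 ≤ 9 * w ^ 2 * ((ux ^ 2 + uy ^ 2) / s) := by
    have a1 : g = -3 * (w / (d + s)) * (X * ux + Y * uy) := by rw [hg]; ring
    have a2 : (X * ux + Y * uy) ^ 2 ≤ s * (ux ^ 2 + uy ^ 2) := by
      rw [hse]; nlinarith [sq_nonneg (X * uy - Y * ux)]
    have a3 : (w / (d + s)) ^ 2 * s ≤ w ^ 2 / s := by
      rw [div_pow, div_mul_eq_mul_div, div_le_div_iff₀ (by positivity) hs]
      nlinarith [mul_nonneg (sq_nonneg w) (mul_nonneg hd.le (by positivity : 0 ≤ d + 2 * s))]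
    rw [a1]
    calc (-3 * (w / (d + s)) * (X * ux + Y * uy)) ^ 2
        = 9 * (w / (d + s)) ^ 2 * (X * ux + Y * uy) ^ 2 := by ring
      _ ≤ 9 * (w / (d + s)) ^ 2 * (s * (ux ^ 2 + uy ^ 2)) :=
          mul_le_mul_of_nonneg_left a2 (by positivity)
      _ = 9 * ((w / (d + s)) ^ 2 * s) * (ux ^ 2 + uy ^ 2) := by ring
      _ ≤ 9 * (w ^ 2 / s) * (ux ^ 2 + uy ^ 2) := by
          apply mul_le_mul_of_nonneg_right _ (by positivity)
          exact mul_le_mul_of_nonneg_left a3 (by norm_num)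
      _ = _ := by ring
  have e3 : (w * L + g + v * q) ^ 2 ≤ 3 * ((w * L) ^ 2 + g ^ 2 + (v * q) ^ 2) := three_sq _ _ _
  have e4 : (v * q) ^ 2 ≤ 28 * w ^ 2 * (v ^ 2 / s ^ 2) := by
    rw [mul_pow]
    calc v ^ 2 * q ^ 2 ≤ v ^ 2 * (28 * w ^ 2 / s ^ 2) :=
          mul_le_mul_of_nonneg_left hq2 (sq_nonneg v)
      _ = _ := by ring
  have k1 : 0 ≤ w ^ 2 * L ^ 2 := by positivity
  have k2 : 0 ≤ w ^ 2 * ((ux ^ 2 + uy ^ 2) / s) := by positivity
  have k3 : 0 ≤ w ^ 2 * (v ^ 2 / s ^ 2) := by positivity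
  have k4 : (w * L) ^ 2 = w ^ 2 * L ^ 2 := by ring
  have k5 : 100 * w ^ 2 * (L ^ 2 + (ux ^ 2 + uy ^ 2) / s + v ^ 2 / s ^ 2) =
      100 * (w ^ 2 * L ^ 2) + 100 * (w ^ 2 * ((ux ^ 2 + uy ^ 2) / s)) +
        100 * (w ^ 2 * (v ^ 2 / s ^ 2)) := by ring
  refine e3.trans ?_
  rw [k4, k5]
  linarith

theorem Dq_add {u φ : ℝ × ℝ → ℝ} (hu : ContDiff ℝ ∞ u) (hφ : ContDiff ℝ ∞ φ)
    (hK : HasCompactSupport u) (hts : tsupport φ ⊆ tsupport u) (s : ℝ) :
    Dq (fun z => u z + s * φ z) (fun z => u z + s * φ z) =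
      Dq u u + 2 * s * Dq u φ + s ^ 2 * Dq φ φ := by
  have hφK : HasCompactSupport φ := hK.mono' ((subset_tsupport φ).trans hts)
  have hφ' : ContDiff ℝ ∞ (fun z => s * φ z) := contDiff_const.mul hφ
  unfold Dq
  rw [lap_add hu hφ', lap_cmul s hφ]
  have i1 : Integrable (fun z => lap u z * lap u z) :=
    ((adm_lap hu).mul_right (adm_lap hu).cont).integrable hK
  have i2 : Integrable (fun z => lap u z * lap φ z) :=
    ((adm_lap hu).mul_right (adm_lap hφ).cont).integrable hK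
  have i3 : Integrable (fun z => lap φ z * lap φ z) :=
    ((adm_lap hφ).mul_right (adm_lap hφ).cont).integrable hφK
  calc _ = ∫ z, ((lap u z * lap u z + 2 * s * (lap u z * lap φ z)) +
        s ^ 2 * (lap φ z * lap φ z)) := by
        congr 1; funext z; ring
    _ = (∫ z, (lap u z * lap u z + 2 * s * (lap u z * lap φ z))) +
        ∫ z, s ^ 2 * (lap φ z * lap φ z) :=
        integral_add (i1.add (i2.const_mul _)) (i3.const_mul _)
    _ = _ := by rw [integral_add i1 (i2.const_mul _), integral_const_mul, integral_const_mul]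

theorem Nq_add {u φ : ℝ × ℝ → ℝ} (hu : ContDiff ℝ ∞ u) (hφ : ContDiff ℝ ∞ φ)
    (hK : HasCompactSupport u) (hts : tsupport φ ⊆ tsupport u) (s : ℝ) :
    Nq (fun z => u z + s * φ z) (fun z => u z + s * φ z) =
      Nq u u + 2 * s * Nq u φ + s ^ 2 * Nq φ φ := by
  have hφK : HasCompactSupport φ := hK.mono' ((subset_tsupport φ).trans hts)
  have hφ' : ContDiff ℝ ∞ (fun z => s * φ z) := contDiff_const.mul hφ
  unfold Nq
  rw [dx_add hu hφ', dx_cmul s hφ, dy_add hu hφ', dy_cmul s hφ]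
  have i1 : Integrable (fun z => dx u z * dx u z + dy u z * dy u z) :=
    (((adm_dx hu).mul_right (adm_dx hu).cont).add
      ((adm_dy hu).mul_right (adm_dy hu).cont)).integrable hK
  have i2 : Integrable (fun z => dx u z * dx φ z + dy u z * dy φ z) :=
    (((adm_dx hu).mul_right (adm_dx hφ).cont).add
      ((adm_dy hu).mul_right (adm_dy hφ).cont)).integrable hK
  have i3 : Integrable (fun z => dx φ z * dx φ z + dy φ z * dy φ z) :=
    (((adm_dx hφ).mul_right (adm_dx hφ).cont).add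
      ((adm_dy hφ).mul_right (adm_dy hφ).cont)).integrable hφK
  calc _ = ∫ z, (((dx u z * dx u z + dy u z * dy u z) +
          2 * s * (dx u z * dx φ z + dy u z * dy φ z)) +
        s ^ 2 * (dx φ z * dx φ z + dy φ z * dy φ z)) := by
        congr 1; funext z; ring
    _ = (∫ z, ((dx u z * dx u z + dy u z * dy u z) +
          2 * s * (dx u z * dx φ z + dy u z * dy φ z))) +
        ∫ z, s ^ 2 * (dx φ z * dx φ z + dy φ z * dy φ z) :=
        integral_add (i1.add (i2.const_mul _)) (i3.const_mul _)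
    _ = _ := by rw [integral_add i1 (i2.const_mul _), integral_const_mul, integral_const_mul]

theorem Nq_pos {u : ℝ × ℝ → ℝ} (hu : ContDiff ℝ ∞ u) (hK : HasCompactSupport u)
    (hne : u ≠ 0) {c : ℝ × ℝ} (hc : c ∉ tsupport u) : 0 < Nq u u := by
  have hex : ∃ z, fderiv ℝ u z ≠ 0 := by
    by_contra hcon
    push Not at hcon
    apply hne
    funext z
    rw [is_const_of_fderiv_eq_zero (differentiable_of hu) hcon z c]
    exact image_eq_zero_of_notMem_tsupport hc
  obtain ⟨z, hz⟩ := hex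
  have ha : Adm (tsupport u) (fun z => dx u z * dx u z + dy u z * dy u z) :=
    (((adm_dx hu).mul_right (adm_dx hu).cont).add
      ((adm_dy hu).mul_right (adm_dy hu).cont))
  refine Continuous.integral_pos_of_hasCompactSupport_nonneg_nonzero (x := z) ha.cont
    (ha.hcs hK) (fun y => ?_) ?_
  · show 0 ≤ dx u y * dx u y + dy u y * dy u y
    nlinarith [mul_self_nonneg (dx u y), mul_self_nonneg (dy u y)]
  · intro h0
    have h1 : dx u z = 0 := by nlinarith [mul_self_nonneg (dx u z), mul_self_nonneg (dy u z)]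
    have h2 : dy u z = 0 := by nlinarith [mul_self_nonneg (dx u z), mul_self_nonneg (dy u z)]
    apply hz
    ext
    · simpa [dx] using h1
    · simpa [dy] using h2

theorem main (h : S_coer) : S_dec := by
  obtain ⟨C0, hC0, hco⟩ := h
  intro Ω c a b hΩo hΩb hΩn hab hsub
  -- bound `M`
  obtain ⟨M, hM0, hM⟩ : ∃ M : ℝ, 0 < M ∧ ∀ z ∈ Ω, sq c z ≤ M := by
    obtain ⟨R, hR⟩ := hΩb.subset_closedBall c
    refine ⟨2 * R ^ 2 + 1, by positivity, fun z hz => ?_⟩
    have h1 := hR hz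
    rw [mem_closedBall_iff_norm, Prod.norm_def, max_le_iff] at h1
    obtain ⟨h2, h3⟩ := h1
    simp only [Prod.fst_sub, Prod.snd_sub, Real.norm_eq_abs] at h2 h3
    unfold W792.Bk.sq
    have h4 : (z.1 - c.1) ^ 2 ≤ R ^ 2 := by
      rw [← sq_abs]; exact pow_le_pow_left₀ (abs_nonneg _) h2 2
    have h5 : (z.2 - c.2) ^ 2 ≤ R ^ 2 := by
      rw [← sq_abs]; exact pow_le_pow_left₀ (abs_nonneg _) h3 2
    linarith
  have hcΩ : c ∉ Ω := fun hc => by simpa [half] using hsub hc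
  have hcu : ∀ u ∈ Tst Ω, c ∉ tsupport u := fun u hu hc => hcΩ (hu.2.2 hc)
  have hne : ∀ u ∈ Tst Ω, ∀ z ∈ tsupport u, z ≠ c := fun u hu z hz hzc => hcu u hu (hzc ▸ hz)
  have hhalf : ∀ u ∈ Tst Ω, u ∈ Tst (half c a b) := fun u hu => ⟨hu.1, hu.2.1, hu.2.2.trans hsub⟩
  -- step 1
  have hE : ∀ u ∈ Tst Ω, ∫ z, en c u z ≤ C0 * Dq u u := by
    intro u hu
    have := hco 0 1 a b c u le_rfl (by norm_num) one_pos hab (hhalf u hu)
    simpa [wt] using this
  have hEnn : ∀ u, 0 ≤ ∫ z, en c u z := fun u => integral_nonneg (en_nonneg c u)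
  have hN : ∀ u ∈ Tst Ω, Nq u u ≤ M * ∫ z, en c u z := by
    intro u hu
    rw [← integral_const_mul]
    have i1 : Integrable (fun z => dx u z * dx u z + dy u z * dy u z) :=
      (((adm_dx hu.1).mul_right (adm_dx hu.1).cont).add
        ((adm_dy hu.1).mul_right (adm_dy hu.1).cont)).integrable hu.2.1
    refine integral_mono i1 (((en_adm hu.1 hu.2.1 (hcu u hu)).integrable hu.2.1).const_mul M)
      (fun z => ?_)
    by_cases hz : z ∈ tsupport u
    · have hs := sq_pos' (hne u hu z hz)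
      have hsM := hM z (hu.2.2 hz)
      show dx u z * dx u z + dy u z * dy u z ≤ M * en c u z
      have e1 : dx u z * dx u z + dy u z * dy u z =
          sq c z * ((dx u z ^ 2 + dy u z ^ 2) / sq c z) := by
        field_simp
      rw [e1]
      have e2 : (dx u z ^ 2 + dy u z ^ 2) / sq c z ≤ en c u z := by
        unfold en
        have : 0 ≤ lap u z ^ 2 := by positivity
        have : 0 ≤ u z ^ 2 / sq c z ^ 2 := by positivity
        linarith
      exact mul_le_mul hsM e2 (by positivity) hM0.le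
    · show dx u z * dx u z + dy u z * dy u z ≤ M * en c u z
      rw [dx_zero hz, dy_zero hz]
      have := en_nonneg c u z
      simp only [mul_zero, add_zero]
      positivity
  have hNpos : ∀ u ∈ Tst Ω, u ≠ 0 → 0 < Nq u u := fun u hu hu0 =>
    Nq_pos hu.1 hu.2.1 hu0 (hcu u hu)
  have hquot : ∀ u ∈ Tst Ω, u ≠ 0 → 1 / (M * C0) ≤ Dq u u / Nq u u := by
    intro u hu hu0
    have h1 := hNpos u hu hu0
    rw [div_le_div_iff₀ (by positivity) h1, one_mul]
    calc Nq u u ≤ M * ∫ z, en c u z := hN u hu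
      _ ≤ M * (C0 * Dq u u) := mul_le_mul_of_nonneg_left (hE u hu) hM0.le
      _ = Dq u u * (M * C0) := by ring
  obtain ⟨u0, hu0, hu0'⟩ : ∃ u ∈ Tst Ω, u ≠ 0 := by
    obtain ⟨x, hx⟩ := hΩn
    obtain ⟨f, hf1, hf2, hf3, -, hf5⟩ :=
      exists_contDiff_tsupport_subset (n := ⊤) (hΩo.mem_nhds hx)
    refine ⟨f, ⟨hf3, hf2, hf1⟩, fun h0 => ?_⟩
    rw [h0] at hf5
    simp at hf5
  have hbdd : BddBelow {q | ∃ u ∈ Tst Ω, u ≠ 0 ∧ q = Dq u u / Nq u u} := by
    refine ⟨1 / (M * C0), ?_⟩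
    rintro q ⟨u, hu, hu1, rfl⟩
    exact hquot u hu hu1
  have hLpos : 0 < Lam Ω := by
    refine lt_of_lt_of_le (by positivity : 0 < 1 / (M * C0)) ?_
    refine le_csInf ⟨_, u0, hu0, hu0', rfl⟩ ?_
    rintro q ⟨u, hu, hu1, rfl⟩
    exact hquot u hu hu1
  have hLle : ∀ v ∈ Tst Ω, Lam Ω * Nq v v ≤ Dq v v := by
    intro v hv
    by_cases hv0 : v = 0
    · subst hv0
      have e1 : dx (0 : ℝ × ℝ → ℝ) = 0 := by funext z; unfold dx; simp
      have e2 : dy (0 : ℝ × ℝ → ℝ) = 0 := by funext z; unfold dy; simp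
      unfold Nq Dq lap
      simp [e1, e2]
    · have h1 := hNpos v hv hv0
      have h2 : Lam Ω ≤ Dq v v / Nq v v := csInf_le hbdd ⟨v, hv, hv0, rfl⟩
      rwa [le_div_iff₀ h1] at h2
  refine ⟨hLpos, ?_⟩
  -- the constant
  set L := Lam Ω with hL
  have hC1 : 0 < C0 * (L * (2 * (2 + M) * (C0 * (L + 1))) + (1 + 100 * (C0 * (L + 1)))) := by
    positivity
  set C1 := C0 * (L * (2 * (2 + M) * (C0 * (L + 1))) + (1 + 100 * (C0 * (L + 1)))) with hC1d
  refine ⟨2 * C1, by positivity, fun δ hδ hδ1 => ?_⟩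
  set W0 : ℝ := (δ ^ 2) ^ (-(3 / 2) / 2 : ℝ) with hW0
  have hW0p : 0 < W0 := by positivity
  refine ⟨min 1 (1 / W0 ^ 2), by positivity, fun u hu hNu hDu => ?_⟩
  set w := P c (δ ^ 2) (-(3 / 2) / 2) with hw
  have hδ2 : (0 : ℝ) < δ ^ 2 := by positivity
  have hwc : ContDiff ℝ ∞ w := P_contDiff c hδ2 _
  have hwp : ∀ z, 0 < w z := P_pos c hδ2 _
  set φ : ℝ × ℝ → ℝ := fun z => w z * u z with hφ
  have hφc : ContDiff ℝ ∞ φ := hwc.mul hu.1
  have hts : tsupport φ ⊆ tsupport u := closure_mono (by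
    intro z hz
    simp only [Function.mem_support, hφ] at hz ⊢
    exact right_ne_zero_of_mul hz)
  have hφK : HasCompactSupport φ := hu.2.1.mono' ((subset_tsupport φ).trans hts)
  have hφT : φ ∈ Tst Ω := ⟨hφc, hφK, hts.trans hu.2.2⟩
  have hK := hu.2.1
  have hen := en_adm hu.1 hK (hcu u hu)
  have hEle : ∫ z, en c u z ≤ C0 * (L + 1) :=
    (hE u hu).trans (mul_le_mul_of_nonneg_left (hDu.trans
      (by have := min_le_left 1 (1 / W0 ^ 2); linarith)) hC0.le)
  -- bound of Nq u φ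
  have hNφ : Nq u φ ≤ 2 * (2 + M) * ∫ z, en c u z := by
    rw [← integral_const_mul]
    have i2 : Integrable (fun z => dx u z * dx φ z + dy u z * dy φ z) :=
      (((adm_dx hu.1).mul_right (adm_dx hφc).cont).add
        ((adm_dy hu.1).mul_right (adm_dy hφc).cont)).integrable hK
    refine integral_mono i2 ((hen.integrable hK).const_mul _) (fun z => ?_)
    show dx u z * dx φ z + dy u z * dy φ z ≤ 2 * (2 + M) * en c u z
    by_cases hz : z ∈ tsupport u
    · refine (pt_N hδ2 (hne u hu z hz) hu.1).trans ?_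
      apply mul_le_mul_of_nonneg_right _ (en_nonneg c u z)
      apply mul_le_mul_of_nonneg_left _ (by norm_num)
      have hs := sq_pos' (hne u hu z hz)
      have hsM := hM z (hu.2.2 hz)
      have hm : 0 < δ ^ 2 + sq c z := by positivity
      have e1 : P c (δ ^ 2) (-(3 / 2) / 2) z * sq c z ≤
          (δ ^ 2 + sq c z) ^ (1 / 4 : ℝ) := by
        have e2 : (δ ^ 2 + sq c z) ^ (1 / 4 : ℝ) =
            P c (δ ^ 2) (-(3 / 2) / 2) z * (δ ^ 2 + sq c z) := by
          unfold P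
          nth_rewrite 3 [← Real.rpow_one (δ ^ 2 + sq c z)]
          rw [← Real.rpow_add hm]
          norm_num
        rw [e2]
        exact mul_le_mul_of_nonneg_left (by linarith) (hwp z).le
      refine e1.trans ?_
      have e3 : (δ ^ 2 + sq c z) ^ (1 / 4 : ℝ) ≤ (2 + M) ^ (1 / 4 : ℝ) :=
        Real.rpow_le_rpow hm.le (by nlinarith) (by norm_num)
      refine e3.trans ?_
      calc (2 + M) ^ (1 / 4 : ℝ) ≤ (2 + M) ^ (1 : ℝ) :=
            Real.rpow_le_rpow_of_exponent_le (by linarith) (by norm_num)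
        _ = 2 + M := Real.rpow_one _
    · rw [dx_zero hz, dy_zero hz]
      have := en_nonneg c u z
      simp only [zero_mul, add_zero]
      positivity
  -- bound of Dq φ φ
  have hDφ : Dq φ φ ≤ 100 * W0 ^ 2 * ∫ z, en c u z := by
    rw [← integral_const_mul]
    have i2 : Integrable (fun z => lap φ z * lap φ z) :=
      ((adm_lap hφc).mul_right (adm_lap hφc).cont).integrable hφK
    refine integral_mono i2 ((hen.integrable hK).const_mul _) (fun z => ?_)
    show lap φ z * lap φ z ≤ 100 * W0 ^ 2 * en c u z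
    by_cases hz : z ∈ tsupport u
    · rw [← pow_two]
      refine (pt_D hδ2 (hne u hu z hz) hu.1).trans ?_
      apply mul_le_mul_of_nonneg_right _ (en_nonneg c u z)
      apply mul_le_mul_of_nonneg_left _ (by norm_num)
      apply pow_le_pow_left₀ (hwp z).le
      have := sq_nonneg' c z
      exact Real.rpow_le_rpow_of_nonpos hδ2 (by linarith) (by norm_num)
    · have hz' : z ∉ tsupport φ := fun h => hz (hts h)
      rw [lap_zero hz']
      have := en_nonneg c u z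
      simp only [zero_mul]
      positivity
  -- Euler-Lagrange
  set B := Dq u φ - L * Nq u φ with hB
  have hη : 0 < min 1 (1 / W0 ^ 2) := by positivity
  have hEL : B ^ 2 ≤ min 1 (1 / W0 ^ 2) * Dq φ φ := by
    have hall : ∀ s : ℝ, 0 ≤ Dq φ φ * (s * s) + (2 * B) * s + min 1 (1 / W0 ^ 2) := by
      intro s
      have hv : (fun z => u z + s * φ z) ∈ Tst Ω := by
        refine ⟨hu.1.add (contDiff_const.mul hφc), ?_, ?_⟩
        · exact HasCompactSupport.intro hK (fun z hz => by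
            have h1 : u z = 0 := image_eq_zero_of_notMem_tsupport hz
            have h2 : φ z = 0 := image_eq_zero_of_notMem_tsupport (fun h => hz (hts h))
            simp [h1, h2])
        · refine subset_trans (closure_minimal (fun z hz => ?_) (isClosed_tsupport u)) hu.2.2
          by_contra hz'
          apply hz
          have h1 : u z = 0 := image_eq_zero_of_notMem_tsupport hz'
          have h2 : φ z = 0 := image_eq_zero_of_notMem_tsupport (fun h => hz' (hts h))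
          simp [h1, h2]
      have h1 := hLle _ hv
      rw [Dq_add hu.1 hφc hK hts, Nq_add hu.1 hφc hK hts, hNu] at h1
      have h2 : 0 ≤ Nq φ φ := by
        apply integral_nonneg
        intro z
        show 0 ≤ dx φ z * dx φ z + dy φ z * dy φ z
        nlinarith [mul_self_nonneg (dx φ z), mul_self_nonneg (dy φ z)]
      have h3 : 0 ≤ L * (s ^ 2 * Nq φ φ) := by positivity
      rw [hB]
      nlinarith
    have := discrim_le_zero hall
    unfold discrim at this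
    nlinarith
  have hBle : B ≤ 1 + 100 * ∫ z, en c u z := by
    have h1 : B ^ 2 ≤ 100 * ∫ z, en c u z := by
      refine hEL.trans ?_
      calc min 1 (1 / W0 ^ 2) * Dq φ φ
          ≤ min 1 (1 / W0 ^ 2) * (100 * W0 ^ 2 * ∫ z, en c u z) :=
            mul_le_mul_of_nonneg_left hDφ hη.le
        _ ≤ (1 / W0 ^ 2) * (100 * W0 ^ 2 * ∫ z, en c u z) := by
            apply mul_le_mul_of_nonneg_right (min_le_right _ _)
            have := hEnn u
            positivity
        _ = 100 * ∫ z, en c u z := by field_simp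
    nlinarith [sq_nonneg (B - 1)]
  -- the weighted energy
  have hwE : ∫ z, w z * en c u z ≤ C1 := by
    have h1 := hco (3 / 2) δ a b c u (by norm_num) le_rfl hδ hab (hhalf u hu)
    have h2 : Dq u φ = L * Nq u φ + B := by rw [hB]; ring
    have h3 : ∫ z, w z * en c u z ≤ C0 * Dq u φ := h1
    refine h3.trans ?_
    rw [h2, hC1d]
    apply mul_le_mul_of_nonneg_left _ hC0.le
    apply add_le_add
    · apply mul_le_mul_of_nonneg_left _ hLpos.le
      refine hNφ.trans (mul_le_mul_of_nonneg_left hEle (by positivity))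
    · linarith
  -- the set near `c`
  have hmeas : MeasurableSet {z : ℝ × ℝ | sq c z < δ ^ 2} :=
    (isOpen_lt (continuous_sq c) continuous_const).measurableSet
  have hwen := hen.mul_left hwc.continuous
  have hiw : Integrable (fun z => w z * en c u z) := hwen.integrable hK
  have hpt : ∀ z ∈ {z : ℝ × ℝ | sq c z < δ ^ 2}, en c u z ≤
      (2 * δ ^ (3 / 2 : ℝ)) * (w z * en c u z) := by
    intro z hz
    have hz' : sq c z < δ ^ 2 := hz
    have h1 : 1 ≤ (2 * δ ^ (3 / 2 : ℝ)) * w z := by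
      have hs := sq_nonneg' c z
      have h2 : (2 * δ ^ 2) ^ (-(3 / 2) / 2 : ℝ) ≤ w z :=
        Real.rpow_le_rpow_of_nonpos (by positivity) (by linarith) (by norm_num)
      have h3 : (2 * δ ^ 2) ^ (-(3 / 2) / 2 : ℝ) * (2 * δ ^ (3 / 2 : ℝ)) ≥ 1 := by
        rw [Real.mul_rpow (by norm_num) hδ2.le]
        have h4 : (δ ^ 2) ^ (-(3 / 2) / 2 : ℝ) * δ ^ (3 / 2 : ℝ) = 1 := by
          rw [← Real.rpow_natCast, ← Real.rpow_mul hδ.le, ← Real.rpow_add hδ]
          norm_num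
        have h5 : (2 : ℝ) ^ (-(3 / 2) / 2 : ℝ) * 2 ≥ 1 := by
          have h6 : (2 : ℝ) ^ (-(3 / 2) / 2 : ℝ) * (2 : ℝ) ^ (1 : ℝ) = 2 ^ (1 / 4 : ℝ) := by
            rw [← Real.rpow_add (by norm_num)]
            norm_num
          rw [Real.rpow_one] at h6
          rw [h6]
          exact Real.one_le_rpow (by norm_num) (by norm_num)
        calc (2 : ℝ) ^ (-(3 / 2) / 2 : ℝ) * (δ ^ 2) ^ (-(3 / 2) / 2 : ℝ) * (2 * δ ^ (3 / 2 : ℝ))
            = ((2 : ℝ) ^ (-(3 / 2) / 2 : ℝ) * 2) *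
              ((δ ^ 2) ^ (-(3 / 2) / 2 : ℝ) * δ ^ (3 / 2 : ℝ)) := by ring
          _ ≥ 1 := by rw [h4, mul_one]; exact h5
      calc (1 : ℝ) ≤ (2 * δ ^ 2) ^ (-(3 / 2) / 2 : ℝ) * (2 * δ ^ (3 / 2 : ℝ)) := h3
        _ ≤ w z * (2 * δ ^ (3 / 2 : ℝ)) := mul_le_mul_of_nonneg_right h2 (by positivity)
        _ = _ := by ring
    calc en c u z = 1 * en c u z := (one_mul _).symm
      _ ≤ ((2 * δ ^ (3 / 2 : ℝ)) * w z) * en c u z :=
          mul_le_mul_of_nonneg_right h1 (en_nonneg c u z)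
      _ = _ := by ring
  calc ∫ z in {z | sq c z < δ ^ 2}, en c u z
      ≤ ∫ z in {z | sq c z < δ ^ 2}, (2 * δ ^ (3 / 2 : ℝ)) * (w z * en c u z) :=
        setIntegral_mono_on (hen.integrable hK).integrableOn (hiw.const_mul _).integrableOn
          hmeas hpt
    _ = (2 * δ ^ (3 / 2 : ℝ)) * ∫ z in {z | sq c z < δ ^ 2}, w z * en c u z :=
        integral_const_mul _ _
    _ ≤ (2 * δ ^ (3 / 2 : ℝ)) * ∫ z, w z * en c u z := by
        apply mul_le_mul_of_nonneg_left _ (by positivity)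
        exact setIntegral_le_integral hiw
          (Filter.Eventually.of_forall (fun z => mul_nonneg (hwp z).le (en_nonneg c u z)))
    _ ≤ (2 * δ ^ (3 / 2 : ℝ)) * C1 := mul_le_mul_of_nonneg_left hwE (by positivity)
    _ = 2 * C1 * δ ^ (3 / 2 : ℝ) := by ring

end Pool.Agent.W782.BkDec
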