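import Pool.Agent.W782.BkDec

/-!
# Weighted positivity in log-polar coordinates
-/

namespace Pool.Agent.W782.BkForm

open MeasureTheory Set Pool.Agent.W792.Bk Pool.Agent.W782.BkDec
open scoped ContDiff

/-! ### functions of the first coordinate -/

theorem dx_lift {f : ℝ → ℝ} (hf : ContDiff ℝ ∞ f) :
    dx (fun z => f z.1) = fun z => deriv f z.1 := by
  funext z
  unfold dx
  have h1 : HasDerivAt f (deriv f z.1) z.1 := (hf.differentiable (by simp) _).hasDerivAt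
  have h2 := h1.comp_hasFDerivAt z (hasFDerivAt_fst (𝕜 := ℝ) (p := z))
  have h3 : HasFDerivAt (fun z : ℝ × ℝ => f z.1)
      (deriv f z.1 • ContinuousLinearMap.fst ℝ ℝ ℝ) z := h2
  rw [h3.fderiv]; simp

theorem dy_lift {f : ℝ → ℝ} (hf : ContDiff ℝ ∞ f) :
    dy (fun z => f z.1) = fun _ => 0 := by
  funext z
  unfold dy
  have h1 : HasDerivAt f (deriv f z.1) z.1 := (hf.differentiable (by simp) _).hasDerivAt
  have h2 := h1.comp_hasFDerivAt z (hasFDerivAt_fst (𝕜 := ℝ) (p := z))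
  have h3 : HasFDerivAt (fun z : ℝ × ℝ => f z.1)
      (deriv f z.1 • ContinuousLinearMap.fst ℝ ℝ ℝ) z := h2
  rw [h3.fderiv]; simp

theorem contDiff_deriv {S : ℝ → ℝ} (hS : ContDiff ℝ ∞ S) : ContDiff ℝ ∞ (deriv S) :=
  (contDiff_infty_iff_deriv.1 hS).2

theorem lap_lift {f : ℝ → ℝ} (hf : ContDiff ℝ ∞ f) :
    lap (fun z => f z.1) = fun z => deriv (deriv f) z.1 := by
  funext z
  unfold lap
  rw [dx_lift hf, dx_lift (contDiff_deriv hf), dy_lift hf]
  unfold dy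
  simp

/-! ### Wirtinger inequalities with weights -/

theorem slice_deriv {h : ℝ × ℝ → ℝ} (hh : ContDiff ℝ ∞ h) (t : ℝ) :
    deriv (fun y => h (t, y)) = fun y => dy h (t, y) := by
  funext y
  have h1 : HasFDerivAt h (fderiv ℝ h (t, y)) (t, y) :=
    (differentiable_of hh (t, y)).hasFDerivAt
  have h2 : HasDerivAt (fun y : ℝ => (t, y)) ((0 : ℝ), (1 : ℝ)) y :=
    (hasDerivAt_const y t).prodMk (hasDerivAt_id y)
  exact (h1.comp_hasDerivAt y h2).deriv

theorem slice_ts {h : ℝ × ℝ → ℝ} {a : ℝ}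
    (hs : tsupport h ⊆ univ ×ˢ Ioo a (a + Real.pi)) (t : ℝ) :
    tsupport (fun y => h (t, y)) ⊆ Ioo a (a + Real.pi) := by
  intro y hy
  have h1 : tsupport (h ∘ fun y : ℝ => (t, y)) ⊆ (fun y : ℝ => (t, y)) ⁻¹' tsupport h :=
    tsupport_comp_subset_preimage h (by fun_prop)
  exact (hs (h1 hy)).2

theorem slice_cs {h : ℝ × ℝ → ℝ} {a : ℝ}
    (hs : tsupport h ⊆ univ ×ˢ Ioo a (a + Real.pi)) (t : ℝ) :
    HasCompactSupport (fun y => h (t, y)) :=
  isCompact_Icc.of_isClosed_subset (isClosed_tsupport _)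
    ((slice_ts hs t).trans Ioo_subset_Icc_self)

theorem slice_int {h : ℝ × ℝ → ℝ} {a : ℝ} (hh : Continuous h)
    (hs : tsupport h ⊆ univ ×ˢ Ioo a (a + Real.pi)) (t : ℝ) :
    Integrable (fun y => h (t, y) ^ 2) := by
  have h1 : Continuous (fun y => h (t, y)) := hh.comp (by fun_prop)
  refine (h1.pow 2).integrable_of_hasCompactSupport ?_
  refine (slice_cs hs t).mono (fun y hy => ?_)
  simp only [Function.mem_support] at hy ⊢
  intro h0
  exact hy (by simp [h0])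

theorem wirt {c : ℝ → ℝ} (hc : Continuous c) (hc0 : ∀ t, 0 ≤ c t) {f g : ℝ × ℝ → ℝ} {a k : ℝ}
    (hf : Continuous f) (hg : Continuous g) (hfK : HasCompactSupport f)
    (hgK : HasCompactSupport g)
    (hfs : tsupport f ⊆ univ ×ˢ Ioo a (a + Real.pi))
    (hgs : tsupport g ⊆ univ ×ˢ Ioo a (a + Real.pi))
    (hle : ∀ t, k * ∫ y, g (t, y) ^ 2 ≤ ∫ y, f (t, y) ^ 2) :
    0 ≤ ∫ z : ℝ × ℝ, c z.1 * (f z ^ 2 - k * g z ^ 2) := by
  have hint : Integrable (fun z : ℝ × ℝ => c z.1 * (f z ^ 2 - k * g z ^ 2)) := by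
    have h1 : Continuous (fun z : ℝ × ℝ => c z.1 * (f z ^ 2 - k * g z ^ 2)) := by fun_prop
    refine h1.integrable_of_hasCompactSupport ?_
    refine HasCompactSupport.intro (hfK.union hgK) (fun z hz => ?_)
    have h2 : f z = 0 := image_eq_zero_of_notMem_tsupport (fun h => hz (Or.inl h))
    have h3 : g z = 0 := image_eq_zero_of_notMem_tsupport (fun h => hz (Or.inr h))
    simp [h2, h3]
  rw [Measure.volume_eq_prod] at hint ⊢
  rw [integral_prod _ hint]
  apply integral_nonneg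
  intro t
  show 0 ≤ ∫ y, c t * (f (t, y) ^ 2 - k * g (t, y) ^ 2)
  rw [integral_const_mul, integral_sub (slice_int hf hfs t) ((slice_int hg hgs t).const_mul k),
    integral_const_mul]
  exact mul_nonneg (hc0 t) (sub_nonneg.2 (hle t))

/-! ### the polynomial inequality -/

theorem poly {s τ : ℝ} (hτ0 : 0 ≤ τ) (hτ1 : τ ≤ 9 / 16) :
    1 / 10 ≤ (1 - τ * s ^ 2) ^ 2 + 4 * τ * s ^ 2 * (1 - s) * (7 - 11 * s) + 3 / 2 -
      2 * (τ * s ^ 2) := by
  have h1 : 0 ≤ 11 * s ^ 4 - 18 * s ^ 3 + 6 * s ^ 2 + 16 / 15 := by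
    nlinarith [sq_nonneg (s ^ 2 - 9 / 11 * s - 11 / 100), sq_nonneg (s - 937 / 1000)]
  have h2 : 0 ≤ τ * (11 * s ^ 4 - 18 * s ^ 3 + 6 * s ^ 2 + 16 / 15) := mul_nonneg hτ0 h1
  nlinarith [sq_nonneg (τ * s ^ 2)]

/-- The pointwise lower bound. -/
theorem low {q s τ a b c d e f : ℝ} (hq : q ^ 2 = τ * s ^ 2) (hs0 : 0 ≤ s) (hs1 : s ≤ 1)
    (hτ0 : 0 ≤ τ) (hτ1 : τ ≤ 9 / 16) :
    (1 / 10) * (a ^ 2 + c ^ 2 + d ^ 2 + e ^ 2 + f ^ 2) +
      (2 * (b ^ 2 - 1 * d ^ 2) + 9 / 10 * (c ^ 2 - 4 * e ^ 2) +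
        (3 / 2 - 2 * q ^ 2) * (e ^ 2 - 1 * f ^ 2)) ≤
      a ^ 2 + 2 * b ^ 2 + c ^ 2 + (2 - 6 * q ^ 2) * d ^ 2 - (2 + 2 * q ^ 2) * e ^ 2 +
        ((1 - q ^ 2) ^ 2 + 4 * τ * s ^ 2 * (1 - s) * (7 - 11 * s)) * f ^ 2 := by
  have h0 : q ^ 2 ≤ 9 / 16 := by
    rw [hq]
    nlinarith [mul_nonneg hτ0 (mul_nonneg hs0 (sub_nonneg.2 hs1)), mul_nonneg hτ0 (sub_nonneg.2 hs1)]
  have h1 := poly (s := s) hτ0 hτ1
  rw [← hq] at h1
  have h2 : 0 ≤ (5 / 8 - 1 / 10) * d ^ 2 := by positivity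
  have h3 := mul_nonneg (sub_nonneg.2 h1) (sq_nonneg f)
  have h4 := mul_nonneg (sub_nonneg.2 h0) (sq_nonneg d)
  nlinarith [sq_nonneg a, sq_nonneg c, sq_nonneg e]

/-- The pointwise upper bound. -/
theorem upp {q q' a c d e f : ℝ} (hq : q ≤ 0) (hq1 : -(3 / 4) ≤ q) (hq' : q' ≤ 0)
    (hq1' : -(3 / 8) ≤ q') :
    (a + 2 * (1 - q) * d + ((1 - q) ^ 2 - q') * f + c) ^ 2 + (d + (1 - q) * f) ^ 2 + e ^ 2 +
      f ^ 2 ≤ 60 * (a ^ 2 + c ^ 2 + d ^ 2 + e ^ 2 + f ^ 2) := by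
  have h1 : (a + 2 * (1 - q) * d + ((1 - q) ^ 2 - q') * f + c) ^ 2 ≤
      4 * (a ^ 2 + (2 * (1 - q) * d) ^ 2 + (((1 - q) ^ 2 - q') * f) ^ 2 + c ^ 2) := by
    generalize 2 * (1 - q) * d = x
    generalize ((1 - q) ^ 2 - q') * f = y
    nlinarith [sq_nonneg (a - x), sq_nonneg (a - y), sq_nonneg (a - c), sq_nonneg (x - y),
      sq_nonneg (x - c), sq_nonneg (y - c)]
  have h2 : (2 * (1 - q)) ^ 2 ≤ 49 / 4 := by nlinarith
  have h3 : ((1 - q) ^ 2 - q') ^ 2 ≤ 49 / 4 := by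
    have h5 : (1 - q) ^ 2 - q' ≤ 7 / 2 := by nlinarith
    have h6 : 0 ≤ (1 - q) ^ 2 - q' := by nlinarith
    nlinarith
  have h4 : (1 - q) ^ 2 ≤ 49 / 16 := by nlinarith
  have h5 : (d + (1 - q) * f) ^ 2 ≤ 2 * (d ^ 2 + ((1 - q) * f) ^ 2) := by
    nlinarith [sq_nonneg (d - (1 - q) * f)]
  have k2 := mul_le_mul_of_nonneg_right h2 (sq_nonneg d)
  have k3 := mul_le_mul_of_nonneg_right h3 (sq_nonneg f)
  have k4 := mul_le_mul_of_nonneg_right h4 (sq_nonneg f)
  rw [← mul_pow] at k2 k3 k4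
  nlinarith [sq_nonneg a, sq_nonneg c, sq_nonneg d, sq_nonneg e, sq_nonneg f]

theorem main (hw : S_wir) (hid : S_id) : S_form := by
  refine ⟨600, by norm_num, fun κ δ a U hκ0 hκ1 hδ hU => ?_⟩
  obtain ⟨hUc, hUK, hUs⟩ := hU
  -- the functions of one variable
  set m : ℝ → ℝ := fun t => δ ^ 2 + Real.exp (2 * t) with hm
  have hmp : ∀ t, 0 < m t := fun t => by positivity
  have hmc : ContDiff ℝ ∞ m := by rw [hm]; fun_prop
  have hmd : ∀ t, HasDerivAt m (2 * Real.exp (2 * t)) t := by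
    intro t
    have h1 : HasDerivAt (fun t : ℝ => 2 * t) 2 t := by
      simpa using (hasDerivAt_id t).const_mul (2 : ℝ)
    exact ((h1.exp).const_add (δ ^ 2)).congr_deriv (by ring)
  set s : ℝ → ℝ := fun t => Real.exp (2 * t) / m t with hs
  have hs0 : ∀ t, 0 ≤ s t := fun t => by have := hmp t; positivity
  have hs1 : ∀ t, s t ≤ 1 := fun t => by
    rw [hs]; simp only
    rw [div_le_one (hmp t), hm]
    have : 0 < δ ^ 2 := by positivity
    simp only; linarith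
  have hsc : ContDiff ℝ ∞ s := by
    have h1 : ContDiff ℝ ∞ (fun t : ℝ => Real.exp (2 * t)) := by fun_prop
    exact h1.div hmc (fun t => (hmp t).ne')
  have hsd : ∀ t, HasDerivAt s (2 * s t * (1 - s t)) t := by
    intro t
    have h1 : HasDerivAt (fun t : ℝ => Real.exp (2 * t)) (2 * Real.exp (2 * t)) t := by
      have h1 : HasDerivAt (fun t : ℝ => 2 * t) 2 t := by
        simpa using (hasDerivAt_id t).const_mul (2 : ℝ)
      exact h1.exp.congr_deriv (by ring)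
    have h2 := h1.div (hmd t) (hmp t).ne'
    refine HasDerivAt.congr_deriv h2 ?_
    have := hmp t
    rw [hs]; field_simp
  set q : ℝ → ℝ := fun t => -(κ / 2) * s t with hq
  have hqc : ContDiff ℝ ∞ q := contDiff_const.mul hsc
  have hqd : deriv q = fun t => -κ * (s t * (1 - s t)) := by
    funext t
    have := ((hsd t).const_mul (-(κ / 2))).deriv
    rw [hq, this]; ring
  have hqqd : deriv (fun t => q t * deriv q t) = fun t =>
      κ ^ 2 * (s t ^ 2 * (1 - s t) * (2 - 3 * s t)) := by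
    funext t
    have e1 : (fun t => q t * deriv q t) = fun t => (κ ^ 2 / 2) * (s t ^ 2 * (1 - s t)) := by
      funext t; rw [hqd, hq]; ring
    rw [e1]
    have h1 := (((hsd t).pow 2).mul ((hasDerivAt_const t (1 : ℝ)).sub (hsd t))).const_mul
      (κ ^ 2 / 2)
    have h2 := h1.deriv
    refine Eq.trans ?_ (h2.trans ?_)
    · rfl
    · simp only [Pi.pow_apply, Pi.sub_apply]
      push_cast
      ring
  set p : ℝ → ℝ := fun t => m t ^ (-κ / 4) with hp
  have hpp : ∀ t, 0 < p t := fun t => Real.rpow_pos_of_pos (hmp t) _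
  have hpc : ContDiff ℝ ∞ p := hmc.rpow_const_of_ne (fun t => (hmp t).ne')
  have hpd : ∀ t, HasDerivAt p (p t * q t) t := by
    intro t
    have h1 := (hmd t).rpow_const (p := -κ / 4) (Or.inl (hmp t).ne')
    refine h1.congr_deriv ?_
    rw [hp, hq, hs]
    simp only
    rw [Real.rpow_sub_one (hmp t).ne']
    have := hmp t
    field_simp
    ring
  have hW : ∀ t, m t ^ (-κ / 2) = p t ^ 2 := by
    intro t
    rw [hp]; simp only
    rw [pow_two, ← Real.rpow_add (hmp t)]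
    congr 1; ring
  set g : ℝ → ℝ := fun t => p t * Real.exp (-t) with hg
  have hgp : ∀ t, 0 < g t := fun t => mul_pos (hpp t) (Real.exp_pos _)
  have hgc : ContDiff ℝ ∞ g := hpc.mul (by fun_prop)
  have hgd : deriv g = fun t => g t * (q t - 1) := by
    funext t
    have h1 : HasDerivAt (fun t : ℝ => Real.exp (-t)) (-Real.exp (-t)) t := by
      exact (hasDerivAt_neg t).exp.congr_deriv (by ring)
    have h2 := ((hpd t).mul h1).deriv
    refine Eq.trans rfl (h2.trans ?_)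
    rw [hg]; ring
  have hgdd : deriv (deriv g) = fun t => g t * ((q t - 1) ^ 2 + deriv q t) := by
    funext t
    rw [hgd]
    have h1 : HasDerivAt g (g t * (q t - 1)) t := by
      have := (hgc.differentiable (by simp) t).hasDerivAt
      rwa [hgd] at this
    have h2 : HasDerivAt q (deriv q t) t := (hqc.differentiable (by simp) t).hasDerivAt
    have h3 := (h1.mul (h2.sub_const 1)).deriv
    refine Eq.trans rfl (h3.trans ?_)
    ring
  set G : ℝ → ℝ := fun t => p t * Real.exp t with hG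
  have hGc : ContDiff ℝ ∞ G := hpc.mul (by fun_prop)
  have hGd : deriv G = fun t => G t * (1 + q t) := by
    funext t
    have h2 := ((hpd t).mul (Real.hasDerivAt_exp t)).deriv
    refine Eq.trans rfl (h2.trans ?_)
    rw [hG]; ring
  have hGdd : deriv (deriv G) = fun t => G t * ((1 + q t) ^ 2 + deriv q t) := by
    funext t
    rw [hGd]
    have h1 : HasDerivAt G (G t * (1 + q t)) t := by
      have := (hGc.differentiable (by simp) t).hasDerivAt
      rwa [hGd] at this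
    have h2 : HasDerivAt q (deriv q t) t := (hqc.differentiable (by simp) t).hasDerivAt
    have h3 := (h1.mul (h2.const_add 1)).deriv
    refine Eq.trans rfl (h3.trans ?_)
    ring
  have hgG : ∀ t, g t * G t = p t ^ 2 := by
    intro t
    rw [hg, hG]; simp only
    have : Real.exp (-t) * Real.exp t = 1 := by rw [← Real.exp_add]; simp
    calc p t * Real.exp (-t) * (p t * Real.exp t) = p t ^ 2 * (Real.exp (-t) * Real.exp t) := by
          ring
      _ = _ := by rw [this, mul_one]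
  have hge : ∀ t, g t ^ 2 = p t ^ 2 * Real.exp (-2 * t) := by
    intro t
    rw [hg]; simp only
    rw [mul_pow, ← Real.exp_nat_mul]
    congr 2; push_cast; ring
  -- the function `h`
  set h : ℝ × ℝ → ℝ := fun z => g z.1 * U z with hh
  have hgl : ContDiff ℝ ∞ (fun z : ℝ × ℝ => g z.1) := hgc.comp contDiff_fst
  have hGl : ContDiff ℝ ∞ (fun z : ℝ × ℝ => G z.1) := hGc.comp contDiff_fst
  have hhc : ContDiff ℝ ∞ h := hgl.mul hUc
  have hsupp : Function.support h ⊆ Function.support U := by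
    intro z hz
    simp only [Function.mem_support, hh] at hz ⊢
    exact right_ne_zero_of_mul hz
  have hts : tsupport h ⊆ tsupport U := closure_mono hsupp
  have hhK : HasCompactSupport h := hUK.mono hsupp
  have hhs : tsupport h ⊆ univ ×ˢ Ioo a (a + Real.pi) := hts.trans hUs
  have hdx : dx h = fun z => g z.1 * dx U z + U z * (g z.1 * (q z.1 - 1)) := by
    rw [hh, dx_mul hgl hUc, dx_lift hgc, hgd]
  have hdy : dy h = fun z => g z.1 * dy U z := by
    rw [hh, dy_mul hgl hUc, dy_lift hgc]; simp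
  have hlap : lap h = fun z => g z.1 * lap U z + 2 * ((g z.1 * (q z.1 - 1)) * dx U z) +
      U z * (g z.1 * ((q z.1 - 1) ^ 2 + deriv q z.1)) := by
    rw [hh, lap_mul hgl hUc, dx_lift hgc, dy_lift hgc, lap_lift hgc, hgdd, hgd]; simp
  have hlW : lap (fun z => m z.1 ^ (-κ / 2) * U z) = fun z => G z.1 * lap h z +
      2 * ((G z.1 * (1 + q z.1)) * dx h z) +
      h z * (G z.1 * ((1 + q z.1) ^ 2 + deriv q z.1)) := by
    have e1 : (fun z : ℝ × ℝ => m z.1 ^ (-κ / 2) * U z) = fun z => G z.1 * h z := by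
      funext z
      rw [hW, ← hgG, hh]; ring
    rw [e1, lap_mul hGl hhc, dx_lift hGc, dy_lift hGc, lap_lift hGc, hGdd, hGd]; simp
  have hlape : ∀ z, lap h z = dx (dx h) z + dy (dy h) z := fun z => rfl
  -- the identity
  have hA1 : ∀ z, g z.1 * lap U z = dx (dx h) z + 2 * (1 - q z.1) * dx h z +
      ((1 - q z.1) ^ 2 - deriv q z.1) * h z + dy (dy h) z := by
    intro z
    have e1 : dx (dx h) z + dy (dy h) z = lap h z := rfl
    have e2 : dx (dx h) z + 2 * (1 - q z.1) * dx h z +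
      ((1 - q z.1) ^ 2 - deriv q z.1) * h z + dy (dy h) z = lap h z +
        2 * (1 - q z.1) * dx h z + ((1 - q z.1) ^ 2 - deriv q z.1) * h z := by rw [← e1]; ring
    rw [e2, hlap, hdx, hh]; ring
  have hI := hid q h hqc hhc hhK
  have hlhs : ∫ z : ℝ × ℝ, Real.exp (-2 * z.1) * lap U z *
        lap (fun z => (δ ^ 2 + Real.exp (2 * z.1)) ^ (-κ / 2) * U z) z =
      ∫ z : ℝ × ℝ, (dx (dx h) z + 2 * (1 - q z.1) * dx h z +
          ((1 - q z.1) ^ 2 - deriv q z.1) * h z + dy (dy h) z) *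
        (dx (dx h) z + 2 * (1 + q z.1) * dx h z +
          ((1 + q z.1) ^ 2 + deriv q z.1) * h z + dy (dy h) z) := by
    congr 1
    funext z
    have e1 : lap (fun z : ℝ × ℝ => (δ ^ 2 + Real.exp (2 * z.1)) ^ (-κ / 2) * U z) z =
        G z.1 * lap h z + 2 * ((G z.1 * (1 + q z.1)) * dx h z) +
      h z * (G z.1 * ((1 + q z.1) ^ 2 + deriv q z.1)) := by
      have := congrFun hlW z
      exact this
    rw [e1, ← hA1, hlape]
    have e2 : Real.exp (-2 * z.1) * G z.1 = g z.1 := by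
      rw [hG, hg]; simp only
      have : Real.exp (-2 * z.1) * Real.exp z.1 = Real.exp (-z.1) := by
        rw [← Real.exp_add]; congr 1; ring
      rw [← this]; ring
    calc _ = (Real.exp (-2 * z.1) * G z.1) * lap U z * (dx (dx h) z + dy (dy h) z +
          2 * (1 + q z.1) * dx h z + ((1 + q z.1) ^ 2 + deriv q z.1) * h z) := by ring
      _ = _ := by rw [e2]; ring
  rw [hlhs, hI]
  -- supports
  have hK := hhK
  have A0 := adm_u hhc
  have Ax := adm_dx hhc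
  have Ay := adm_dy hhc
  have Axx : Adm (tsupport h) (dx (dx h)) :=
    ⟨(dx_contDiff (dx_contDiff hhc)).continuous, fun z hz => dx_zero (fun h' => hz (ts_dx h h'))⟩
  have Axy : Adm (tsupport h) (dy (dx h)) :=
    ⟨(dy_contDiff (dx_contDiff hhc)).continuous, fun z hz => dy_zero (fun h' => hz (ts_dx h h'))⟩
  have Ayy : Adm (tsupport h) (dy (dy h)) :=
    ⟨(dy_contDiff (dy_contDiff hhc)).continuous, fun z hz => dy_zero (fun h' => hz (ts_dy h h'))⟩
  -- Wirtinger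
  have w1 : 0 ≤ ∫ z : ℝ × ℝ, (fun _ => 2 : ℝ → ℝ) z.1 * (dy (dx h) z ^ 2 - 1 * dx h z ^ 2) := by
    refine wirt continuous_const (fun _ => by norm_num) Axy.cont Ax.cont (Axy.hcs hK)
      (Ax.hcs hK) ((ts_dy _).trans ((ts_dx _).trans hhs)) ((ts_dx _).trans hhs) (fun t => ?_)
    have h1 := (hw a (fun y => dx h (t, y)) ((dx_contDiff hhc).comp (by fun_prop))
      (slice_cs ((ts_dx _).trans hhs) t) (slice_ts ((ts_dx _).trans hhs) t)).1
    rw [slice_deriv (dx_contDiff hhc)] at h1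
    simpa using h1
  have w2 : 0 ≤ ∫ z : ℝ × ℝ, (fun _ => 9 / 10 : ℝ → ℝ) z.1 *
      (dy (dy h) z ^ 2 - 4 * dy h z ^ 2) := by
    refine wirt continuous_const (fun _ => by norm_num) Ayy.cont Ay.cont (Ayy.hcs hK)
      (Ay.hcs hK) ((ts_dy _).trans ((ts_dy _).trans hhs)) ((ts_dy _).trans hhs) (fun t => ?_)
    have h1 := (hw a (fun y => h (t, y)) (hhc.comp (by fun_prop))
      (slice_cs hhs t) (slice_ts hhs t)).2
    rw [slice_deriv hhc, slice_deriv (dy_contDiff hhc)] at h1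
    exact h1
  have w3 : 0 ≤ ∫ z : ℝ × ℝ, (fun t => 3 / 2 - 2 * q t ^ 2 : ℝ → ℝ) z.1 *
      (dy h z ^ 2 - 1 * h z ^ 2) := by
    have hqcc : Continuous (fun t => 3 / 2 - 2 * q t ^ 2 : ℝ → ℝ) := by
      have := hqc.continuous
      fun_prop
    refine wirt hqcc (fun t => ?_) Ay.cont A0.cont (Ay.hcs hK)
      (A0.hcs hK) ((ts_dy _).trans hhs) hhs (fun t => ?_)
    · have h1 := hs0 t
      have h2 := hs1 t
      have h3 : -(3 / 4) ≤ q t := by
        rw [hq]; simp only; nlinarith [mul_nonneg hκ0 (sub_nonneg.2 h2)]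
      have h4 : q t ≤ 0 := by rw [hq]; simp only; nlinarith [mul_nonneg hκ0 h1]
      nlinarith
    · have h1 := (hw a (fun y => h (t, y)) (hhc.comp (by fun_prop))
        (slice_cs hhs t) (slice_ts hhs t)).1
      rw [slice_deriv hhc] at h1
      simpa using h1
  -- integrability
  have cq := hqc.continuous
  have cq' : Continuous (deriv q) := (contDiff_deriv hqc).continuous
  have i1 : Integrable (fun z : ℝ × ℝ => (fun _ => 2 : ℝ → ℝ) z.1 *
      (dy (dx h) z ^ 2 - 1 * dx h z ^ 2)) :=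
    (Adm.mul_left continuous_const ((Axy.sq2).sub (Ax.sq2.const_mul 1))).integrable hK
  have i2 : Integrable (fun z : ℝ × ℝ => (fun _ => 9 / 10 : ℝ → ℝ) z.1 *
      (dy (dy h) z ^ 2 - 4 * dy h z ^ 2)) :=
    (Adm.mul_left continuous_const ((Ayy.sq2).sub (Ay.sq2.const_mul 4))).integrable hK
  have i3 : Integrable (fun z : ℝ × ℝ => (fun t => 3 / 2 - 2 * q t ^ 2 : ℝ → ℝ) z.1 *
      (dy h z ^ 2 - 1 * h z ^ 2)) :=
    (Adm.mul_left (by fun_prop) ((Ay.sq2).sub (A0.sq2.const_mul 1))).integrable hK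
  set Sg : ℝ × ℝ → ℝ := fun z => dx (dx h) z ^ 2 + dy (dy h) z ^ 2 + dx h z ^ 2 + dy h z ^ 2 +
    h z ^ 2 with hSg
  have AS : Adm (tsupport h) Sg :=
    (((Axx.sq2.add Ayy.sq2).add Ax.sq2).add Ay.sq2).add A0.sq2
  have iS := AS.integrable hK
  set R : ℝ × ℝ → ℝ := fun z => dx (dx h) z ^ 2 + 2 * dy (dx h) z ^ 2 + dy (dy h) z ^ 2 +
        (2 - 6 * q z.1 ^ 2) * dx h z ^ 2 - (2 + 2 * q z.1 ^ 2) * dy h z ^ 2 +
        ((1 - q z.1 ^ 2) ^ 2 + 4 * deriv (fun t => q t * deriv q t) z.1 - deriv q z.1 ^ 2) *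
          h z ^ 2 with hR
  have AR : Adm (tsupport h) R := by
    refine (((((Axx.sq2).add (Axy.sq2.const_mul 2)).add Ayy.sq2).add
      (Adm.mul_left (by fun_prop) Ax.sq2)).sub (Adm.mul_left (by fun_prop) Ay.sq2)).add
      (Adm.mul_left ?_ A0.sq2)
    rw [hqqd]
    have := hsc.continuous
    fun_prop
  have iR := AR.integrable hK
  have hpt : ∀ z, (1 / 10) * Sg z + ((fun _ => 2 : ℝ → ℝ) z.1 *
      (dy (dx h) z ^ 2 - 1 * dx h z ^ 2) + (fun _ => 9 / 10 : ℝ → ℝ) z.1 *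
      (dy (dy h) z ^ 2 - 4 * dy h z ^ 2) + (fun t => 3 / 2 - 2 * q t ^ 2 : ℝ → ℝ) z.1 *
      (dy h z ^ 2 - 1 * h z ^ 2)) ≤ R z := by
    intro z
    have h1 := low (q := q z.1) (s := s z.1) (τ := κ ^ 2 / 4) (a := dx (dx h) z)
      (b := dy (dx h) z) (c := dy (dy h) z) (d := dx h z) (e := dy h z) (f := h z)
      (by rw [hq]; ring) (hs0 _) (hs1 _) (by positivity) (by nlinarith)
    refine h1.trans (le_of_eq ?_)
    rw [hR]
    simp only
    rw [hqqd, hqd]
    ring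
  have hint : (1 / 10) * ∫ z, Sg z ≤ ∫ z, R z := by
    have h1 : ∫ z, ((1 / 10) * Sg z + ((fun _ => 2 : ℝ → ℝ) z.1 *
      (dy (dx h) z ^ 2 - 1 * dx h z ^ 2) + (fun _ => 9 / 10 : ℝ → ℝ) z.1 *
      (dy (dy h) z ^ 2 - 4 * dy h z ^ 2) + (fun t => 3 / 2 - 2 * q t ^ 2 : ℝ → ℝ) z.1 *
      (dy h z ^ 2 - 1 * h z ^ 2))) ≤ ∫ z, R z :=
      integral_mono ((iS.const_mul _).add ((i1.add i2).add i3)) iR hpt
    have e0 := integral_add i1 i2
    have e1 := integral_add (i1.add i2) i3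
    have e2 := integral_add (iS.const_mul (1 / 10)) ((i1.add i2).add i3)
    have e3 : ∫ z, (1 / 10) * Sg z = (1 / 10) * ∫ z, Sg z := integral_const_mul _ _
    simp only [Pi.add_apply] at e1 e2 e0
    rw [e2, e1, e0, e3] at h1
    linarith
  have hup : ∫ z : ℝ × ℝ, (δ ^ 2 + Real.exp (2 * z.1)) ^ (-κ / 2) * Real.exp (-2 * z.1) *
        (lap U z ^ 2 + dx U z ^ 2 + dy U z ^ 2 + U z ^ 2) ≤ 60 * ∫ z, Sg z := by
    rw [← integral_const_mul]
    have e1 : ∀ z : ℝ × ℝ, (δ ^ 2 + Real.exp (2 * z.1)) ^ (-κ / 2) * Real.exp (-2 * z.1) *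
        (lap U z ^ 2 + dx U z ^ 2 + dy U z ^ 2 + U z ^ 2) =
        (dx (dx h) z + 2 * (1 - q z.1) * dx h z +
      ((1 - q z.1) ^ 2 - deriv q z.1) * h z + dy (dy h) z) ^ 2 +
        (dx h z + (1 - q z.1) * h z) ^ 2 + dy h z ^ 2 + h z ^ 2 := by
      intro z
      have e2 : (δ ^ 2 + Real.exp (2 * z.1)) ^ (-κ / 2) * Real.exp (-2 * z.1) = g z.1 ^ 2 := by
        rw [hge, ← hW]
      rw [e2, ← hA1, hdx, hdy, hh]; ring
    refine integral_mono ?_ (iS.const_mul 60) (fun z => ?_)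
    · simp only [e1]
      have AA : Adm (tsupport h) (fun z => dx (dx h) z + 2 * (1 - q z.1) * dx h z +
          ((1 - q z.1) ^ 2 - deriv q z.1) * h z + dy (dy h) z) :=
        ((Axx.add (Adm.mul_left (by fun_prop) Ax)).add (Adm.mul_left (by fun_prop) A0)).add Ayy
      exact (((AA.sq2.add ((Ax.add (Adm.mul_left (by fun_prop) A0)).sq2)).add Ay.sq2).add
        A0.sq2).integrable hK
    · show _ ≤ 60 * Sg z
      refine (le_of_eq (e1 z)).trans ?_
      have h1 := hs0 z.1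
      have h2 := hs1 z.1
      have h3 : -(3 / 4) ≤ q z.1 := by
        rw [hq]; simp only; nlinarith [mul_nonneg hκ0 (sub_nonneg.2 h2)]
      have h4 : q z.1 ≤ 0 := by rw [hq]; simp only; nlinarith [mul_nonneg hκ0 h1]
      have h5 : 0 ≤ s z.1 * (1 - s z.1) := mul_nonneg h1 (sub_nonneg.2 h2)
      have h6 : s z.1 * (1 - s z.1) ≤ 1 / 4 := by nlinarith [sq_nonneg (s z.1 - 1 / 2)]
      have h7 : deriv q z.1 ≤ 0 := by
        rw [hqd]; simp only; nlinarith [mul_nonneg hκ0 h5]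
      have h8 : -(3 / 8) ≤ deriv q z.1 := by
        rw [hqd]; simp only; nlinarith [mul_nonneg hκ0 (sub_nonneg.2 h6)]
      exact upp h4 h3 h7 h8
  have hSnn : 0 ≤ ∫ z, Sg z := integral_nonneg (fun z => by rw [hSg]; positivity)
  calc _ ≤ 60 * ∫ z, Sg z := hup
    _ ≤ 600 * ∫ z, R z := by linarith

end Pool.Agent.W782.BkForm
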