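import Pool.Agent.W782.BkDec

/-!
# Cutting off a corner changes the eigenvalue by `O (ε ^ (3 / 2))`
-/

namespace Pool.Agent.W782.BkLoss

open MeasureTheory Set Pool.Agent.W792.Bk Pool.Agent.W782.BkDec
open scoped ContDiff

theorem Dq_cmul {u : ℝ × ℝ → ℝ} (t : ℝ) (hu : ContDiff ℝ ∞ u) :
    Dq (fun z => t * u z) (fun z => t * u z) = t ^ 2 * Dq u u := by
  unfold Dq
  rw [lap_cmul t hu, ← integral_const_mul]
  congr 1; funext z; ring

theorem Nq_cmul {u : ℝ × ℝ → ℝ} (t : ℝ) (hu : ContDiff ℝ ∞ u) :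
    Nq (fun z => t * u z) (fun z => t * u z) = t ^ 2 * Nq u u := by
  unfold Nq
  rw [dx_cmul t hu, dy_cmul t hu, ← integral_const_mul]
  congr 1; funext z; ring

theorem Dq_nonneg (u : ℝ × ℝ → ℝ) : 0 ≤ Dq u u :=
  integral_nonneg (fun _ => mul_self_nonneg _)

theorem Nq_nonneg (u : ℝ × ℝ → ℝ) : 0 ≤ Nq u u :=
  integral_nonneg (fun _ => add_nonneg (mul_self_nonneg _) (mul_self_nonneg _))

theorem Lam_bdd (Ω : Set (ℝ × ℝ)) :
    BddBelow {q | ∃ u ∈ Tst Ω, u ≠ 0 ∧ q = Dq u u / Nq u u} := by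
  refine ⟨0, ?_⟩
  rintro q ⟨u, -, -, rfl⟩
  exact div_nonneg (Dq_nonneg u) (Nq_nonneg u)

theorem corner {a b a' b' X Y ε : ℝ} (hD : a * b' - a' * b ≠ 0) (h1 : a * X + b * Y < 0)
    (h2 : a' * X + b' * Y < 0) (h3 : ¬ (a + a') * X + (b + b') * Y < -ε) :
    X ^ 2 + Y ^ 2 ≤ (1 + (|a| + |b| + |a'| + |b'|) / |a * b' - a' * b|) ^ 2 * ε ^ 2 := by
  set D := a * b' - a' * b with hDd
  set α := a * X + b * Y with hα
  set β := a' * X + b' * Y with hβ
  have hs : -ε ≤ α + β := by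
    have : (a + a') * X + (b + b') * Y = α + β := by rw [hα, hβ]; ring
    rw [this] at h3
    exact not_lt.1 h3
  have hε : 0 < ε := by linarith
  have hα1 : |α| ≤ ε := by rw [abs_le]; constructor <;> linarith
  have hβ1 : |β| ≤ ε := by rw [abs_le]; constructor <;> linarith
  have hDp : 0 < |D| := abs_pos.2 hD
  have eX : D * X = b' * α - b * β := by rw [hDd, hα, hβ]; ring
  have eY : D * Y = a * β - a' * α := by rw [hDd, hα, hβ]; ring
  have bX : |D| * |X| ≤ (|b| + |b'|) * ε := by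
    rw [← abs_mul, eX]
    calc |b' * α - b * β| ≤ |b' * α| + |b * β| := abs_sub _ _
      _ = |b'| * |α| + |b| * |β| := by rw [abs_mul, abs_mul]
      _ ≤ |b'| * ε + |b| * ε := by gcongr
      _ = _ := by ring
  have bY : |D| * |Y| ≤ (|a| + |a'|) * ε := by
    rw [← abs_mul, eY]
    calc |a * β - a' * α| ≤ |a * β| + |a' * α| := abs_sub _ _
      _ = |a| * |β| + |a'| * |α| := by rw [abs_mul, abs_mul]
      _ ≤ |a| * ε + |a'| * ε := by gcongr
      _ = _ := by ring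
  have hsum : |X| + |Y| ≤ (1 + (|a| + |b| + |a'| + |b'|) / |D|) * ε := by
    have h4 : |X| + |Y| ≤ ((|a| + |b| + |a'| + |b'|) / |D|) * ε := by
      rw [div_mul_eq_mul_div, le_div_iff₀ hDp]
      nlinarith
    nlinarith
  calc X ^ 2 + Y ^ 2 = |X| ^ 2 + |Y| ^ 2 := by rw [sq_abs, sq_abs]
    _ ≤ (|X| + |Y|) ^ 2 := by nlinarith [mul_nonneg (abs_nonneg X) (abs_nonneg Y)]
    _ ≤ ((1 + (|a| + |b| + |a'| + |b'|) / |D|) * ε) ^ 2 :=
        pow_le_pow_left₀ (by positivity) hsum 2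
    _ = _ := by ring

theorem main (hdec : S_dec) (hcut : S_cut) : S_loss := by
  intro Ω c a b a' b' hΩo hΩb hΩn hs1 hs2 hne
  have hD : a * b' - a' * b ≠ 0 := sub_ne_zero.2 hne
  have hab : a ≠ 0 ∨ b ≠ 0 := by
    by_contra h
    push Not at h
    apply hne
    rw [h.1, h.2]; ring
  obtain ⟨hL, C, hC, hd⟩ := hdec Ω c a b hΩo hΩb hΩn hab hs1
  obtain ⟨C', hC', hct⟩ := hcut
  refine ⟨hL, ?_⟩
  have hcΩ : c ∉ Ω := fun hc => by simpa [half] using hs1 hc
  set K := 1 + (|a| + |b| + |a'| + |b'|) / |a * b' - a' * b| with hK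
  have hK1 : 1 ≤ K := by rw [hK]; have : 0 ≤ (|a| + |b| + |a'| + |b'|) / |a * b' - a' * b| := by positivity
                         linarith
  have hK0 : 0 < K := by linarith
  set A := C' * C with hA
  have hAp : 0 < A := by positivity
  set L := Lam Ω with hLd
  refine ⟨2 * (1 + A + L * A) * (4 * K) ^ (3 / 2 : ℝ), 1 / (4 * K * (1 + 2 * A)),
    by positivity, by positivity, fun ε hε hε1 => ?_⟩
  set δ := 4 * K * ε with hδ
  have hδp : 0 < δ := by positivity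
  have hδ1 : δ * (1 + 2 * A) < 1 := by
    rw [lt_div_iff₀ (by positivity)] at hε1
    rw [hδ]; nlinarith
  have hδle : δ ≤ 1 := by nlinarith [mul_pos hδp hAp]
  set ρ := δ ^ (3 / 2 : ℝ) with hρ
  have hρp : 0 < ρ := by positivity
  have hρ1 : ρ ≤ δ := by
    calc ρ ≤ δ ^ (1 : ℝ) := Real.rpow_le_rpow_of_exponent_ge hδp hδle (by norm_num)
      _ = δ := Real.rpow_one _
  obtain ⟨η₀, hη₀, hη⟩ := hd δ hδp hδle
  -- choice of `u`
  obtain ⟨q, ⟨u0, hu0, hu0', rfl⟩, hq⟩ : ∃ q ∈ {q | ∃ u ∈ Tst Ω, u ≠ 0 ∧ q = Dq u u / Nq u u},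
      q < L + min η₀ ρ := by
    apply exists_lt_of_csInf_lt
    · obtain ⟨x, hx⟩ := hΩn
      obtain ⟨f, hf1, hf2, hf3, -, hf5⟩ :=
        exists_contDiff_tsupport_subset (n := ⊤) (hΩo.mem_nhds hx)
      refine ⟨_, f, ⟨hf3, hf2, hf1⟩, fun h0 => ?_, rfl⟩
      rw [h0] at hf5
      simp at hf5
    · have : 0 < min η₀ ρ := by positivity
      show Lam Ω < _
      linarith
  have hN0 := Nq_pos hu0.1 hu0.2.1 hu0' (fun h => hcΩ (hu0.2.2 h))
  set t := 1 / Real.sqrt (Nq u0 u0) with ht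
  have ht2 : t ^ 2 = 1 / Nq u0 u0 := by rw [ht, div_pow, Real.sq_sqrt hN0.le]; simp
  set u : ℝ × ℝ → ℝ := fun z => t * u0 z with hu
  have huc : ContDiff ℝ ∞ u := contDiff_const.mul hu0.1
  have hsupp : Function.support u ⊆ Function.support u0 := by
    intro z hz
    simp only [Function.mem_support, hu] at hz ⊢
    exact right_ne_zero_of_mul hz
  have hts : tsupport u ⊆ tsupport u0 := closure_mono hsupp
  have huK : HasCompactSupport u := hu0.2.1.mono hsupp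
  have huT : u ∈ Tst Ω := ⟨huc, huK, hts.trans hu0.2.2⟩
  have hNu : Nq u u = 1 := by rw [hu, Nq_cmul t hu0.1, ht2]; field_simp
  have hDu : Dq u u ≤ L + min η₀ ρ := by
    rw [hu, Dq_cmul t hu0.1, ht2, one_div, inv_mul_eq_div]
    exact hq.le
  have hcu : c ∉ tsupport u := fun h => hcΩ (huT.2.2 h)
  have hE := hη u huT hNu (hDu.trans (by have := min_le_left η₀ ρ; linarith))
  obtain ⟨v, hv1, hv2, hv3, hv4, hv5, hv6⟩ := hct c δ u hδp huc huK hcu
  set E := ∫ z in {z | sq c z < δ ^ 2}, en c u z with hEd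
  have hE0 : 0 ≤ E := integral_nonneg (en_nonneg c u)
  have hDv : Dq v v ≤ L + (1 + A) * ρ := by
    have h1 : C' * E ≤ C' * (C * ρ) := mul_le_mul_of_nonneg_left hE hC'.le
    have h2 := min_le_right η₀ ρ
    nlinarith
  have hNv : 1 - A * ρ ≤ Nq v v := by
    have h1 : C' * δ ^ 2 * E ≤ C' * 1 * (C * ρ) := by
      apply mul_le_mul _ hE hE0 (by positivity)
      apply mul_le_mul_of_nonneg_left _ hC'.le
      nlinarith
    rw [hNu] at hv6
    nlinarith
  have hAρ : A * ρ ≤ 1 / 2 := by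
    have : A * ρ ≤ A * δ := mul_le_mul_of_nonneg_left hρ1 hAp.le
    nlinarith
  have hNvp : 0 < Nq v v := by linarith
  have hv0 : v ≠ 0 := by
    rintro rfl
    have e1 : dx (0 : ℝ × ℝ → ℝ) = 0 := by funext z; unfold dx; simp
    have e2 : dy (0 : ℝ × ℝ → ℝ) = 0 := by funext z; unfold dy; simp
    unfold Nq at hNvp
    simp [e1, e2] at hNvp
  have hvT : v ∈ Tst (cut Ω c (a + a') (b + b') ε) := by
    refine ⟨hv1, hv2, fun z hz => ?_⟩
    have hzΩ : z ∈ Ω := huT.2.2 (hv3 hz)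
    refine ⟨hzΩ, ?_⟩
    have hcl : IsClosed {z : ℝ × ℝ | (δ / 2) ^ 2 ≤ sq c z} :=
      isClosed_le continuous_const (continuous_sq c)
    have hzs : (δ / 2) ^ 2 ≤ sq c z := by
      have : tsupport v ⊆ {z : ℝ × ℝ | (δ / 2) ^ 2 ≤ sq c z} := by
        refine closure_minimal (fun y hy => ?_) hcl
        by_contra h
        exact hy (hv4 y (not_le.1 h))
      exact this hz
    by_contra hcon
    have h1 := corner hD (hs1 hzΩ) (hs2 hzΩ) hcon
    have h2 : (δ / 2) ^ 2 = 4 * (K ^ 2 * ε ^ 2) := by rw [hδ]; ring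
    have h3 : 0 < K ^ 2 * ε ^ 2 := by positivity
    have h4 : sq c z = (z.1 - c.1) ^ 2 + (z.2 - c.2) ^ 2 := rfl
    rw [h2, h4] at hzs
    linarith
  have hLam : Lam (cut Ω c (a + a') (b + b') ε) ≤ Dq v v / Nq v v :=
    csInf_le (Lam_bdd _) ⟨v, hvT, hv0, rfl⟩
  refine hLam.trans ?_
  have hfin : Dq v v / Nq v v ≤ L + 2 * (1 + A + L * A) * ρ := by
    rw [div_le_iff₀ hNvp]
    have hM : 0 < 2 * (1 + A + L * A) := by positivity
    have h1 : (L + 2 * (1 + A + L * A) * ρ) * (1 - A * ρ) ≤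
        (L + 2 * (1 + A + L * A) * ρ) * Nq v v :=
      mul_le_mul_of_nonneg_left hNv (by positivity)
    refine hDv.trans (le_trans ?_ h1)
    have h2 : 2 * (1 + A + L * A) * ρ * (A * ρ) ≤ 2 * (1 + A + L * A) * ρ * (1 / 2) :=
      mul_le_mul_of_nonneg_left hAρ (by positivity)
    nlinarith
  refine hfin.trans ?_
  have : ρ = (4 * K) ^ (3 / 2 : ℝ) * ε ^ (3 / 2 : ℝ) := by
    rw [hρ, hδ, Real.mul_rpow (by positivity) hε.le]
  rw [this]
  apply le_of_eq
  ring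

end Pool.Agent.W782.BkLoss
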