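import Pool.Agent.W928.CY.DUALP
import Pool.Agent.W192.CY.Stk

/-!
# CYK-DUALP: the dual part with a general weight function (after the file of helper928)
-/
set_option autoImplicit false

namespace Pool.Agent.W782.CYKDualp

open Pool.Agent.W192.CY Pool.Agent.W928.CY

theorem k_dualp (h1 : S_DIV) (h2 : G_MOB) (h3' : G_KLOO) : K_DUALP := by
  intro V CV hV N hN c m hc ε hε hε'
  set η : ℝ := ε / 8 with hηd
  have hη : 0 < η := by rw [hηd]; linarith
  have hη' : η < 1 / 8 := by rw [hηd]; linarith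
  obtain ⟨C1, hC1, hC, -⟩ := h1 η hη
  obtain ⟨Ck, hCk, h3⟩ := h3' η hη
  have hCV := hV.pos
  set a : ℝ := 1 / 2 + 2 * η with had
  have hsum : Summable (fun n : ℕ => (n : ℝ) ^ (-(1 + η))) :=
    Real.summable_nat_rpow.2 (by linarith)
  set S : ℝ := ∑' n : ℕ, (n : ℝ) ^ (-(1 + η)) with hS
  have hS0 : 0 ≤ S := tsum_nonneg fun n => Real.rpow_nonneg (Nat.cast_nonneg n) _
  have hNr : (1 : ℝ) ≤ N := by exact_mod_cast hN
  refine ⟨ε / 8, Ck * (CV * C1 ^ 3) * (N : ℝ) ^ a * S + 1, 0, by linarith, by positivity, ?_⟩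
  intro q _ hq _ χ₀ hqd
  set d := orderOf χ₀ with hdd
  have hqpos : 0 < q := Nat.pos_of_ne_zero (NeZero.ne q)
  have hq0 : (0 : ℝ) < q := by exact_mod_cast hqpos
  have hq1 : (1 : ℝ) ≤ q := by exact_mod_cast hqpos
  set Y : ℝ := N * Real.sqrt q / (2 * Real.pi ^ 2) with hYd
  have hY : 0 < Y := by rw [hYd]; positivity
  set Z : ℝ := 2 * Y with hZd
  have hZ : 0 < Z := by rw [hZd]; positivity
  have hpi : (1 : ℝ) ≤ Real.pi ^ 2 := by nlinarith [Real.pi_gt_three]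
  have hZle : Z ≤ N * Real.sqrt q := by
    have e : Z = N * Real.sqrt q / Real.pi ^ 2 := by
      rw [hZd, hYd]
      field_simp
    rw [e]
    exact div_le_self (by positivity) hpi
  have hZa : Z ^ a ≤ (N : ℝ) ^ a * (q : ℝ) ^ (1 / 4 + η) := by
    refine (Real.rpow_le_rpow hZ.le hZle (by rw [had]; linarith)).trans (le_of_eq ?_)
    rw [Real.mul_rpow (by positivity) (Real.sqrt_nonneg _), Real.sqrt_eq_rpow,
      ← Real.rpow_mul hq0.le]
    congr 2
    rw [had]; ring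
  set τ : ℝ := (d.divisors.card : ℝ) with hτ
  have hd1 : 1 ≤ d := orderOf_pos χ₀
  have hdq : (d : ℝ) ≤ q := by
    obtain ⟨φ⟩ := DirichletCharacter.mulEquiv_units ℂ q
    have h8 : Nat.card (DirichletCharacter ℂ q) = q.totient := by
      rw [Nat.card_congr φ.toEquiv, Nat.card_eq_fintype_card, ZMod.card_units_eq_totient]
    have h9 : d ∣ q.totient := by
      rw [← h8]
      exact orderOf_dvd_natCard χ₀
    exact_mod_cast (Nat.le_of_dvd (Nat.totient_pos.2 hqpos) h9).trans (Nat.totient_le q)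
  have hτle : τ ≤ C1 * (q : ℝ) ^ η := by
    refine (hC d hd1).trans (mul_le_mul_of_nonneg_left ?_ hC1.le)
    exact Real.rpow_le_rpow (by positivity) hdq hη.le
  -- the inner sums
  have hin : ∀ b : ℕ, ‖∑ χ ∈ Eg q χ₀,
      χ (b : ZMod q) * (χ (N : ZMod q) * gaussSum χ (ZMod.stdAddChar (N := q)) ^ 2 / q *
        ∑' n : ℕ, (starRingEnd ℂ) (χ (n : ZMod q)) * (c n : ℂ) / n *
        (V (n / Y) : ℂ))‖ ≤ Ck * τ * (q : ℝ) ^ (1 / 2 + η) * (CV * C1 * Z ^ a) * S := by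
    intro b
    set an : ℕ → ℂ := fun n => ((c n / n * V (n / Y) : ℝ) : ℂ) with han
    have hanb : ∀ n, ‖an n‖ ≤ CV * C1 * Z ^ a * (n : ℝ) ^ (-(1 + η)) := by
      intro n
      rw [han]
      show ‖((c n / n * V (n / Y) : ℝ) : ℂ)‖ ≤ _
      rw [Complex.norm_real, Real.norm_eq_abs]
      have t1 := term hc hη hη' hC hC1 hZ n
      have t2 := hV.dec (n / Y) (by positivity)
      have t3 : (n : ℝ) / Y / 2 = n / Z := by
        rw [hZd]
        field_simp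
      rw [t3] at t2
      rw [abs_mul] at t1 ⊢
      rw [abs_of_pos (Real.exp_pos _)] at t1
      calc |c n / n| * |V (n / Y)| ≤ |c n / n| * (CV * Real.exp (-(n / Z))) :=
            mul_le_mul_of_nonneg_left t2 (abs_nonneg _)
        _ = CV * (|c n / n| * Real.exp (-(n / Z))) := by ring
        _ ≤ CV * (C1 * Z ^ (1 / 2 + 2 * η) * (n : ℝ) ^ (-(1 + η))) :=
            mul_le_mul_of_nonneg_left t1 hCV.le
        _ = _ := by rw [had]; ring
    have hans : Summable (fun n => ‖an n‖) :=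
      Summable.of_nonneg_of_le (fun n => norm_nonneg _) hanb (hsum.mul_left _)
    have e1 : ∀ χ : DirichletCharacter ℂ q, ∀ n : ℕ,
        (starRingEnd ℂ) (χ (n : ZMod q)) * (c n : ℂ) / n * (V (n / Y) : ℂ) =
        (starRingEnd ℂ) (χ (n : ZMod q)) * an n := by
      intro χ n
      rw [han]
      push_cast
      ring
    have hs : ∀ χ : DirichletCharacter ℂ q,
        Summable (fun n : ℕ => (starRingEnd ℂ) (χ (n : ZMod q)) * an n) := by
      intro χ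
      refine Summable.of_norm_bounded hans fun n => ?_
      rw [norm_mul, RCLike.norm_conj]
      exact mul_le_of_le_one_left (norm_nonneg _) (DirichletCharacter.norm_le_one χ _)
    have e2 : ∑ χ ∈ Eg q χ₀, χ (b : ZMod q) * (χ (N : ZMod q) *
        gaussSum χ (ZMod.stdAddChar (N := q)) ^ 2 / q *
        ∑' n : ℕ, (starRingEnd ℂ) (χ (n : ZMod q)) * (c n : ℂ) / n *
        (V (n / Y) : ℂ)) =
        ∑' n : ℕ, ∑ χ ∈ Eg q χ₀, χ (b : ZMod q) * (χ (N : ZMod q) *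
        gaussSum χ (ZMod.stdAddChar (N := q)) ^ 2 / q *
          ((starRingEnd ℂ) (χ (n : ZMod q)) * an n)) := by
      rw [Summable.tsum_finsetSum fun χ _ => ((hs χ).mul_left _).mul_left _]
      refine Finset.sum_congr rfl fun χ _ => ?_
      rw [tsum_congr (e1 χ), tsum_mul_left, tsum_mul_left]
    rw [e2]
    refine tsum_of_norm_bounded ((hsum.hasSum).mul_left
      (Ck * τ * (q : ℝ) ^ (1 / 2 + η) * (CV * C1 * Z ^ a))) ?_
    intro n
    have e3 : ∑ χ ∈ Eg q χ₀, χ (b : ZMod q) * (χ (N : ZMod q) *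
        gaussSum χ (ZMod.stdAddChar (N := q)) ^ 2 / q *
          ((starRingEnd ℂ) (χ (n : ZMod q)) * an n)) =
        (∑ χ ∈ Eg q χ₀, χ (b : ZMod q) * (χ (N : ZMod q) *
        gaussSum χ (ZMod.stdAddChar (N := q)) ^ 2 / q *
          (starRingEnd ℂ) (χ (n : ZMod q)))) * an n := by
      rw [Finset.sum_mul]
      refine Finset.sum_congr rfl fun χ _ => ?_
      ring
    rw [e3, norm_mul]
    calc _ ≤ (Ck * τ * (q : ℝ) ^ (1 / 2 + η)) * (CV * C1 * Z ^ a * (n : ℝ) ^ (-(1 + η))) :=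
          mul_le_mul (key h2 hCk q χ₀ (h3 q χ₀) b N n) (hanb n) (norm_nonneg _) (by positivity)
      _ = _ := by ring
  have hP : 0 ≤ Ck * τ * (q : ℝ) ^ (1 / 2 + η) * (CV * C1 * Z ^ a) * S := by positivity
  -- the outer sum
  have hout : ∀ b ∈ Finset.Icc 1 ⌊(q : ℝ) ^ (ε / 2)⌋₊, ‖((m b / b : ℝ) : ℂ) * ∑ χ ∈ Eg q χ₀,
      χ (b : ZMod q) * (χ (N : ZMod q) * gaussSum χ (ZMod.stdAddChar (N := q)) ^ 2 / q *
        ∑' n : ℕ, (starRingEnd ℂ) (χ (n : ZMod q)) * (c n : ℂ) / n *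
        (V (n / Y) : ℂ))‖ ≤ C1 * (Ck * τ * (q : ℝ) ^ (1 / 2 + η) * (CV * C1 * Z ^ a) * S) := by
    intro b hb
    rw [Finset.mem_Icc] at hb
    have hb0 : (0 : ℝ) < b := by exact_mod_cast hb.1
    have hb1 : (1 : ℝ) ≤ b := by exact_mod_cast hb.1
    rw [norm_mul, Complex.norm_real, Real.norm_eq_abs]
    refine mul_le_mul ?_ (hin b) (norm_nonneg _) hC1.le
    rw [abs_div, abs_of_pos hb0, div_le_iff₀ hb0]
    refine (hc.mle b hb.1).trans ?_
    calc (b.divisors.card : ℝ) * Real.sqrt b ≤ C1 * (b : ℝ) ^ η * (b : ℝ) ^ (1 / 2 : ℝ) := by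
          rw [← Real.sqrt_eq_rpow]
          exact mul_le_mul_of_nonneg_right (hC b hb.1) (Real.sqrt_nonneg _)
      _ = C1 * (b : ℝ) ^ (η + 1 / 2) := by rw [mul_assoc, ← Real.rpow_add hb0]
      _ ≤ C1 * (b : ℝ) ^ (1 : ℝ) := mul_le_mul_of_nonneg_left
          (Real.rpow_le_rpow_of_exponent_le hb1 (by linarith)) hC1.le
      _ = C1 * b := by rw [Real.rpow_one]
  refine (norm_sum_le _ _).trans ((Finset.sum_le_sum hout).trans ?_)
  rw [Finset.sum_const, nsmul_eq_mul, Nat.card_Icc, Nat.add_sub_cancel]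
  have hfl : (⌊(q : ℝ) ^ (ε / 2)⌋₊ : ℝ) ≤ (q : ℝ) ^ (ε / 2) :=
    Nat.floor_le (Real.rpow_nonneg hq0.le _)
  calc (⌊(q : ℝ) ^ (ε / 2)⌋₊ : ℝ) *
        (C1 * (Ck * τ * (q : ℝ) ^ (1 / 2 + η) * (CV * C1 * Z ^ a) * S))
      ≤ (q : ℝ) ^ (ε / 2) * (C1 * (Ck * (C1 * (q : ℝ) ^ η) * (q : ℝ) ^ (1 / 2 + η) *
        (CV * C1 * ((N : ℝ) ^ a * (q : ℝ) ^ (1 / 4 + η))) * S)) := by
        gcongr
    _ = Ck * (CV * C1 ^ 3) * (N : ℝ) ^ a * S * ((q : ℝ) ^ (ε / 2) * (q : ℝ) ^ η *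
        (q : ℝ) ^ (1 / 2 + η) * (q : ℝ) ^ (1 / 4 + η)) := by
        ring
    _ = Ck * (CV * C1 ^ 3) * (N : ℝ) ^ a * S * ((q : ℝ) ^ (3 / 4 + ε) * (q : ℝ) ^ (-(ε / 8))) := by
        rw [← Real.rpow_add hq0, ← Real.rpow_add hq0, ← Real.rpow_add hq0, ← Real.rpow_add hq0]
        congr 2
        rw [hηd]; ring
    _ ≤ Ck * (CV * C1 ^ 3) * (N : ℝ) ^ a * S * (d * (q : ℝ) ^ (-(ε / 8))) := by
        gcongr
    _ ≤ (Ck * (CV * C1 ^ 3) * (N : ℝ) ^ a * S + 1) * (d * (q : ℝ) ^ (-(ε / 8))) := by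
        gcongr
        linarith
    _ = _ := by ring

end Pool.Agent.W782.CYKDualp
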