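import Pool.Agent.W784.RR.Defs

set_option autoImplicit false
open MeasureTheory Set Filter Topology
open scoped ENNReal NNReal

/-!
The chord identity of M. Riesz.
-/

namespace Pool.Agent.W782.RR

/-- square root of the discriminant -/
noncomputable def DD (a b y : ℝ) : ℝ := Real.sqrt ((a + b) ^ 2 + 4 * a * b * y)

/-- the inverse substitution -/
noncomputable def ff (a b y : ℝ) : ℝ := 2 * a * b / (DD a b y - (b - a))

variable {a b : ℝ}

lemma DD_sq (ha : 0 < a) (hb : 0 < b) {y : ℝ} (hy : 0 < y) :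
    DD a b y ^ 2 = (a + b) ^ 2 + 4 * a * b * y := by
  unfold DD
  rw [Real.sq_sqrt (by positivity)]

lemma DD_gt (ha : 0 < a) (hb : 0 < b) {y : ℝ} (hy : 0 < y) : a + b < DD a b y := by
  unfold DD
  apply Real.lt_sqrt_of_sq_lt
  have : 0 < 4 * a * b * y := by positivity
  linarith

lemma DD_comm (y : ℝ) : DD b a y = DD a b y := by
  unfold DD
  congr 1
  ring

lemma ff_pos (ha : 0 < a) (hb : 0 < b) {y : ℝ} (hy : 0 < y) : 0 < ff a b y := by
  have := DD_gt ha hb hy
  unfold ff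
  apply div_pos (by positivity)
  linarith

lemma ff_lt (ha : 0 < a) (hb : 0 < b) {y : ℝ} (hy : 0 < y) : ff a b y < b := by
  have := DD_gt ha hb hy
  unfold ff
  rw [div_lt_iff₀ (by linarith)]
  nlinarith

lemma ff_inv (ha : 0 < a) (hb : 0 < b) {y : ℝ} (hy : 0 < y) :
    (ff a b y + a) * (b - ff a b y) = y * ff a b y ^ 2 := by
  have h1 := DD_gt ha hb hy
  have h2 := DD_sq ha hb hy
  have h3 : DD a b y - (b - a) ≠ 0 := by
    have : 0 < DD a b y - (b - a) := by linarith
    exact this.ne'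
  unfold ff
  field_simp
  linear_combination h2

lemma ff_injOn (ha : 0 < a) (hb : 0 < b) : InjOn (ff a b) (Ioi 0) := by
  intro y hy z hz h
  have h1 := ff_inv ha hb (mem_Ioi.mp hy)
  have h2 := ff_inv ha hb (mem_Ioi.mp hz)
  rw [h] at h1
  rw [h1] at h2
  have h3 := ff_pos ha hb (mem_Ioi.mp hz)
  have h4 : ff a b z ^ 2 ≠ 0 := by positivity
  exact mul_right_cancel₀ h4 h2

lemma ff_image (ha : 0 < a) (hb : 0 < b) : ff a b '' Ioi 0 = Ioo 0 b := by
  ext t
  constructor
  · rintro ⟨y, hy, rfl⟩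
    exact ⟨ff_pos ha hb hy, ff_lt ha hb hy⟩
  · rintro ⟨h0, h1⟩
    refine ⟨(t + a) * (b - t) / t ^ 2, ?_, ?_⟩
    · have : 0 < b - t := by linarith
      exact mem_Ioi.mpr (by positivity)
    · have h2 : DD a b ((t + a) * (b - t) / t ^ 2) = 2 * a * b / t + (b - a) := by
        unfold DD
        have h3 : (a + b) ^ 2 + 4 * a * b * ((t + a) * (b - t) / t ^ 2)
            = (2 * a * b / t + (b - a)) ^ 2 := by
          field_simp
          ring
        rw [h3, Real.sqrt_sq]
        have h4 : 2 * a < 2 * a * b / t := by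
          rw [lt_div_iff₀ h0]
          nlinarith
        linarith
      unfold ff
      rw [h2]
      field_simp
      ring

lemma ff_deriv (ha : 0 < a) (hb : 0 < b) {y : ℝ} (hy : 0 < y) :
    HasDerivAt (ff a b) (-(ff a b y ^ 2 / DD a b y)) y := by
  have h1 := DD_gt ha hb hy
  have h2 := DD_sq ha hb hy
  have h3 : DD a b y - (b - a) ≠ 0 := by
    have : 0 < DD a b y - (b - a) := by linarith
    exact this.ne'
  have h0 : DD a b y ≠ 0 := by
    have : 0 < DD a b y := by linarith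
    exact this.ne'
  have h4 : HasDerivAt (DD a b) (4 * a * b / (2 * DD a b y)) y := by
    have h5 : HasDerivAt (fun y : ℝ => (a + b) ^ 2 + 4 * a * b * y) (4 * a * b) y := by
      have := ((hasDerivAt_id y).const_mul (4 * a * b)).const_add ((a + b) ^ 2)
      simpa using this
    exact h5.sqrt (by positivity)
  have h6 := (h4.sub_const (b - a)).fun_inv h3
  have h7 := h6.const_mul (2 * a * b)
  have h8 : (fun y : ℝ => 2 * a * b * (DD a b y - (b - a))⁻¹) = ff a b := by
    funext y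
    unfold ff
    rw [div_eq_mul_inv]
  rw [h8] at h7
  refine h7.congr_deriv ?_
  unfold ff
  field_simp
  ring

/-- One half of the integral. -/
lemma half {σ : ℝ} (ha : 0 < a) (hb : 0 < b) :
    ∫⁻ t in Ioo 0 b, ENNReal.ofReal (|t| ^ (2 * σ - 1) * ((t + a) * (b - t)) ^ (-σ)) =
    ∫⁻ y in Ioi 0, ENNReal.ofReal (y ^ (-σ) * (ff a b y / DD a b y)) := by
  rw [← ff_image ha hb, lintegral_image_eq_lintegral_abs_deriv_mul measurableSet_Ioi
    (fun y hy => (ff_deriv ha hb hy).hasDerivWithinAt) (ff_injOn ha hb)]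
  apply setLIntegral_congr_fun measurableSet_Ioi
  intro y hy
  have hy' : 0 < y := hy
  have h1 := ff_pos ha hb hy'
  have h2 := DD_gt ha hb hy'
  have h3 : 0 < DD a b y := by linarith
  simp only
  rw [ff_inv ha hb hy', abs_neg, abs_of_pos (by positivity), abs_of_pos h1,
    ← ENNReal.ofReal_mul (by positivity)]
  congr 1
  rw [Real.mul_rpow hy'.le (by positivity), ← Real.rpow_natCast (ff a b y) 2,
    ← Real.rpow_mul h1.le, Real.rpow_sub h1, Real.rpow_one]
  have h4 : ff a b y ^ ((2 : ℕ) * -σ : ℝ) = (ff a b y ^ (2 * σ))⁻¹ := by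
    rw [← Real.rpow_neg h1.le]; congr 1; push_cast; ring
  rw [h4, Real.rpow_natCast]
  have h5 : ff a b y ^ (2 * σ) ≠ 0 := (Real.rpow_pos_of_pos h1 _).ne'
  field_simp

lemma chord_eq {σ : ℝ} (ha : 0 < a) (hb : 0 < b) :
    ∫⁻ t in Ioo (-a) b, ENNReal.ofReal (|t| ^ (2 * σ - 1) * ((t + a) * (b - t)) ^ (-σ)) =
    ∫⁻ y in Ioi (0:ℝ), ENNReal.ofReal (y ^ (-σ) * (1 + y)⁻¹) := by
  have h1 : Ioo (-a) b = (Ioo (-a) 0 ∪ Ioo 0 b) ∪ {0} := by
    ext t
    simp only [mem_Ioo, mem_union, mem_singleton_iff]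
    constructor
    · rintro ⟨h1, h2⟩
      rcases lt_trichotomy t 0 with h | h | h
      · left; left; exact ⟨h1, h⟩
      · right; exact h
      · left; right; exact ⟨h, h2⟩
    · rintro ((⟨h1, h2⟩ | ⟨h1, h2⟩) | rfl)
      · exact ⟨h1, by linarith⟩
      · exact ⟨by linarith, h2⟩
      · exact ⟨by linarith, hb⟩
  have h2 : ∫⁻ t in Ioo (-a) b, ENNReal.ofReal (|t| ^ (2 * σ - 1) * ((t + a) * (b - t)) ^ (-σ))
      = (∫⁻ t in Ioo (-a) 0, ENNReal.ofReal (|t| ^ (2 * σ - 1) * ((t + a) * (b - t)) ^ (-σ)))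
      + ∫⁻ t in Ioo 0 b, ENNReal.ofReal (|t| ^ (2 * σ - 1) * ((t + a) * (b - t)) ^ (-σ)) := by
    have h3 : Ioo (-a) b =ᵐ[volume] ((Ioo (-a) 0 ∪ Ioo 0 b : Set ℝ)) := by
      rw [h1]
      exact union_ae_eq_left_of_ae_eq_empty (by
        rw [ae_eq_empty]; exact measure_singleton 0)
    rw [setLIntegral_congr h3, lintegral_union measurableSet_Ioo]
    rw [Set.disjoint_left]
    rintro t ⟨-, h4⟩ ⟨h5, -⟩
    linarith
  have h3 : ∫⁻ t in Ioo (-a) 0, ENNReal.ofReal (|t| ^ (2 * σ - 1) * ((t + a) * (b - t)) ^ (-σ))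
      = ∫⁻ t in Ioo 0 a, ENNReal.ofReal (|t| ^ (2 * σ - 1) * ((t + b) * (a - t)) ^ (-σ)) := by
    have h4 : (fun t : ℝ => -t) '' Ioo 0 a = Ioo (-a) 0 := by
      simp
    rw [← h4, lintegral_image_eq_lintegral_abs_deriv_mul measurableSet_Ioo
      (f' := fun _ => -1) (fun x _ => (hasDerivAt_neg x).hasDerivWithinAt)
      (neg_injective.injOn)]
    apply setLIntegral_congr_fun measurableSet_Ioo
    intro t ht
    simp only [abs_neg, abs_one, ENNReal.ofReal_one, one_mul, sub_neg_eq_add]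
    congr 3
    ring
  rw [h2, h3, half hb ha, half ha hb, ← lintegral_add_left]
  · apply setLIntegral_congr_fun measurableSet_Ioi
    intro y hy
    have hy' : 0 < y := hy
    have g1 := ff_pos ha hb hy'
    have g1' := ff_pos hb ha hy'
    have g2 := DD_gt ha hb hy'
    have g3 : 0 < DD a b y := by linarith
    simp only
    rw [DD_comm, ← ENNReal.ofReal_add (by positivity) (by positivity)]
    congr 1
    rw [← mul_add]
    congr 1
    have g4 := DD_sq ha hb hy'
    unfold ff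
    rw [DD_comm]
    have g5 : 0 < DD a b y - (b - a) := by linarith
    have g6 : 0 < DD a b y - (a - b) := by linarith
    have g7 : DD a b y - (b - a) ≠ 0 := g5.ne'
    have g8 : DD a b y - (a - b) ≠ 0 := g6.ne'
    have g9 : (1 + y) ≠ 0 := by positivity
    field_simp
    linear_combination (-DD a b y) * g4
  · unfold ff DD
    fun_prop

theorem PChord : Pool.Agent.W784.RR.PChord := by
  intro σ h0 h1 a b ha hb
  rw [chord_eq ha hb, chord_eq one_pos one_pos]

end Pool.Agent.W782.RR
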