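import Mathlib

/-!
# VA-TAUP: the power series part, over a general domain
-/
set_option autoImplicit false

namespace Pool.Agent.W782.VATaup

open Finset

section
variable {S : Type*} [CommRing S] [IsDomain S] [CharZero S]

omit [IsDomain S] [CharZero S] in
theorem coeff_mul' (B B' : PowerSeries S) (n : ℕ) : PowerSeries.coeff n (B * B') =
    ∑ i ∈ range (n + 1), PowerSeries.coeff i B * PowerSeries.coeff (n - i) B' := by
  rw [PowerSeries.coeff_mul, Finset.Nat.sum_antidiagonal_eq_sum_range_succ
    (f := fun i j => PowerSeries.coeff i B * PowerSeries.coeff j B')]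

theorem uniq (H B B' : PowerSeries S) (h : PowerSeries.derivative S B = H * B)
    (h' : PowerSeries.derivative S B' = H * B')
    (h0 : PowerSeries.coeff 0 B = PowerSeries.coeff 0 B') : B = B' := by
  ext1 n
  induction n using Nat.strong_induction_on with
  | _ n ih =>
    cases n with
    | zero => exact h0
    | succ n =>
      have e1 := congrArg (PowerSeries.coeff n) h
      have e2 := congrArg (PowerSeries.coeff n) h'
      rw [PowerSeries.coeff_derivative, coeff_mul'] at e1 e2
      have e3 : ∑ i ∈ range (n + 1), PowerSeries.coeff i H * PowerSeries.coeff (n - i) B =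
          ∑ i ∈ range (n + 1), PowerSeries.coeff i H * PowerSeries.coeff (n - i) B' := by
        refine Finset.sum_congr rfl fun i _ => ?_
        rw [ih (n - i) (by omega)]
      rw [e3, ← e2] at e1
      have hne : ((n : S) + 1) ≠ 0 := by exact_mod_cast Nat.succ_ne_zero n
      exact mul_right_cancel₀ hne e1

/-- the series of the powers of `U` -/
noncomputable def W (U : S) : PowerSeries S := PowerSeries.mk fun i => U ^ (i + 1)

/-- `1 - U z` -/
noncomputable def q (U : S) : PowerSeries S := 1 - PowerSeries.C U * PowerSeries.X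

omit [IsDomain S] [CharZero S] in
theorem coeff_q_mul (U : S) (B : PowerSeries S) (n : ℕ) : PowerSeries.coeff (n + 1) (q U * B) =
    PowerSeries.coeff (n + 1) B - U * PowerSeries.coeff n B := by
  rw [q, sub_mul, one_mul, map_sub, mul_assoc, PowerSeries.coeff_C_mul,
    PowerSeries.coeff_succ_X_mul]

omit [IsDomain S] [CharZero S] in
theorem coeff_q_mul_zero (U : S) (B : PowerSeries S) : PowerSeries.coeff 0 (q U * B) =
    PowerSeries.coeff 0 B := by
  rw [q, sub_mul, one_mul, map_sub, mul_assoc, PowerSeries.coeff_C_mul,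
    PowerSeries.coeff_zero_X_mul, mul_zero, sub_zero]

omit [IsDomain S] [CharZero S] in
theorem qW (U : S) : q U * W U = PowerSeries.C U := by
  ext1 n
  cases n with
  | zero =>
    rw [coeff_q_mul_zero, W, PowerSeries.coeff_mk, PowerSeries.coeff_zero_C]
    ring
  | succ n =>
    rw [coeff_q_mul, W, PowerSeries.coeff_mk, PowerSeries.coeff_mk, PowerSeries.coeff_C,
      if_neg (Nat.succ_ne_zero n)]
    ring

omit [IsDomain S] [CharZero S] in
theorem dq (U : S) : PowerSeries.derivative S (q U) = - PowerSeries.C U := by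
  rw [q, map_sub, Derivation.leibniz, PowerSeries.derivative_C, PowerSeries.derivative_X]
  simp

/-- the inverse of `q` -/
noncomputable def g1 (U : S) : PowerSeries S := PowerSeries.mk fun i => U ^ i

/-- the inverse of `q ^ 2` -/
noncomputable def g2 (U : S) : PowerSeries S := PowerSeries.mk fun i => ((i : S) + 1) * U ^ i

omit [IsDomain S] [CharZero S] in
theorem qg1 (U : S) : q U * g1 U = 1 := by
  ext1 n
  cases n with
  | zero =>
    rw [coeff_q_mul_zero, g1, PowerSeries.coeff_mk]
    simp
  | succ n =>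
    rw [coeff_q_mul, g1, PowerSeries.coeff_mk, PowerSeries.coeff_mk, PowerSeries.coeff_one,
      if_neg (Nat.succ_ne_zero n)]
    ring

omit [IsDomain S] [CharZero S] in
theorem qg2 (U : S) : q U * g2 U = g1 U := by
  ext1 n
  cases n with
  | zero =>
    rw [coeff_q_mul_zero, g1, g2, PowerSeries.coeff_mk, PowerSeries.coeff_mk]
    simp
  | succ n =>
    rw [coeff_q_mul, g1, g2, PowerSeries.coeff_mk, PowerSeries.coeff_mk, PowerSeries.coeff_mk]
    push_cast
    ring

omit [IsDomain S] [CharZero S] in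
/-- the differential equation from the recursion -/
theorem ode (B h : ℕ → S)
    (hB : ∀ n : ℕ, ((n : S) + 1) * B (n + 1) = ∑ i ∈ range (n + 1), h i * B (n - i)) :
    PowerSeries.derivative S (PowerSeries.mk B) = PowerSeries.mk h * PowerSeries.mk B := by
  ext1 n
  rw [PowerSeries.coeff_derivative, coeff_mul', PowerSeries.coeff_mk, mul_comm, hB n]
  refine Finset.sum_congr rfl fun i _ => ?_
  rw [PowerSeries.coeff_mk, PowerSeries.coeff_mk]

theorem gen1 (U c : S) (hc : c * c = 1) (x A T : ℕ → S) (hA0 : A 0 = 1) (hT0 : T 0 = 1)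
    (hA : ∀ n : ℕ, ((n : S) + 1) * A (n + 1) = ∑ i ∈ range (n + 1), (c * x i) * A (n - i))
    (hT : ∀ n : ℕ, ((n : S) + 1) * T (n + 1) =
      ∑ i ∈ range (n + 1), (c * (x i - 2 * c * U ^ (i + 1))) * T (n - i)) :
    PowerSeries.mk T = q U * (q U * PowerSeries.mk A) := by
  have h1 := ode A _ hA
  have h2 := ode T _ hT
  refine uniq _ _ _ h2 ?_ ?_
  · rw [Derivation.leibniz, Derivation.leibniz, dq, h1]
    simp only [smul_eq_mul]
    have e0 : (PowerSeries.mk fun i => c * (x i - 2 * c * U ^ (i + 1))) =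
        PowerSeries.mk (fun i => c * x i) - 2 * W U := by
      ext n
      have : (2 : PowerSeries S) * W U = PowerSeries.C 2 * W U := by
        congr 1
      rw [map_sub, this, PowerSeries.coeff_C_mul, W, PowerSeries.coeff_mk, PowerSeries.coeff_mk,
        PowerSeries.coeff_mk]
      linear_combination (-2 * U ^ (n + 1)) * hc
    rw [e0]
    linear_combination (2 * (q U * PowerSeries.mk A)) * qW U
  · rw [coeff_q_mul_zero, coeff_q_mul_zero, PowerSeries.coeff_mk, PowerSeries.coeff_mk, hA0, hT0]

theorem gen2 (U c : S) (hc : c * c = 1) (x A T : ℕ → S) (hA0 : A 0 = 1) (hT0 : T 0 = 1)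
    (hA : ∀ n : ℕ, ((n : S) + 1) * A (n + 1) = ∑ i ∈ range (n + 1), (-c * x i) * A (n - i))
    (hT : ∀ n : ℕ, ((n : S) + 1) * T (n + 1) =
      ∑ i ∈ range (n + 1), (-c * (x i - 2 * c * U ^ (i + 1))) * T (n - i)) :
    PowerSeries.mk T = g2 U * PowerSeries.mk A := by
  have h1 := ode A _ hA
  have h2 := ode T _ hT
  have h3 : q U * (q U * PowerSeries.mk T) = PowerSeries.mk A := by
    refine uniq _ _ _ ?_ h1 ?_
    · rw [Derivation.leibniz, Derivation.leibniz, dq, h2]
      simp only [smul_eq_mul]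
      have e0 : (PowerSeries.mk fun i => -c * (x i - 2 * c * U ^ (i + 1))) =
          PowerSeries.mk (fun i => -c * x i) + 2 * W U := by
        ext n
        have : (2 : PowerSeries S) * W U = PowerSeries.C 2 * W U := by
          congr 1
        rw [map_add, this, PowerSeries.coeff_C_mul, W, PowerSeries.coeff_mk, PowerSeries.coeff_mk,
          PowerSeries.coeff_mk]
        linear_combination (2 * U ^ (n + 1)) * hc
      rw [e0]
      linear_combination (2 * (q U * PowerSeries.mk T)) * qW U
    · rw [coeff_q_mul_zero, coeff_q_mul_zero, PowerSeries.coeff_mk, PowerSeries.coeff_mk, hA0,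
        hT0]
  rw [← h3]
  have e : g2 U * (q U * (q U * PowerSeries.mk T)) =
      (q U * (q U * g2 U)) * PowerSeries.mk T := by ring
  rw [e, qg2, qg1, one_mul]

/-- first formula -/
theorem rec1 (U c : S) (hc : c * c = 1) (x A T : ℕ → S) (hA0 : A 0 = 1) (hT0 : T 0 = 1)
    (hA : ∀ n : ℕ, ((n : S) + 1) * A (n + 1) = ∑ i ∈ range (n + 1), (c * x i) * A (n - i))
    (hT : ∀ n : ℕ, ((n : S) + 1) * T (n + 1) =
      ∑ i ∈ range (n + 1), (c * (x i - 2 * c * U ^ (i + 1))) * T (n - i)) :
    T 0 = A 0 ∧ T 1 = A 1 - 2 * (U * A 0) ∧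
    ∀ a, T (a + 2) = A (a + 2) - 2 * (U * A (a + 1)) + U ^ 2 * A a := by
  have h := gen1 U c hc x A T hA0 hT0 hA hT
  refine ⟨by rw [hA0, hT0], ?_, ?_⟩
  · have h1 := congrArg (PowerSeries.coeff 1) h
    rw [PowerSeries.coeff_mk, coeff_q_mul, coeff_q_mul, coeff_q_mul_zero, PowerSeries.coeff_mk,
      PowerSeries.coeff_mk] at h1
    rw [h1]
    ring
  · intro a
    have h1 := congrArg (PowerSeries.coeff (a + 2)) h
    rw [PowerSeries.coeff_mk, coeff_q_mul, coeff_q_mul, coeff_q_mul, PowerSeries.coeff_mk,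
      PowerSeries.coeff_mk, PowerSeries.coeff_mk] at h1
    rw [h1]
    ring

/-- second formula -/
theorem rec2 (U c : S) (hc : c * c = 1) (x A T : ℕ → S) (hA0 : A 0 = 1) (hT0 : T 0 = 1)
    (hA : ∀ n : ℕ, ((n : S) + 1) * A (n + 1) = ∑ i ∈ range (n + 1), (-c * x i) * A (n - i))
    (hT : ∀ n : ℕ, ((n : S) + 1) * T (n + 1) =
      ∑ i ∈ range (n + 1), (-c * (x i - 2 * c * U ^ (i + 1))) * T (n - i)) (a : ℕ) :
    T a = ∑ i ∈ range (a + 1), ((i : S) + 1) * (U ^ i * A (a - i)) := by
  have h := gen2 U c hc x A T hA0 hT0 hA hT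
  have h1 := congrArg (PowerSeries.coeff a) h
  rw [PowerSeries.coeff_mk, coeff_mul'] at h1
  rw [h1]
  refine Finset.sum_congr rfl fun i _ => ?_
  rw [g2, PowerSeries.coeff_mk, PowerSeries.coeff_mk, mul_assoc]

end

end Pool.Agent.W782.VATaup
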