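import Pool.Agent.W128.VA.Stm
import Pool.Agent.W782.VATaup1

/-!
# VA-TAUP: `tau` on the polynomials `P`
-/
set_option autoImplicit false

namespace Pool.Agent.W782.VATaup

open Pool.Agent.W128.VA Finset

/-- multiplying a polynomial by a complex number -/
theorem smul_eq (c : ℂ) (p : Polynomial R0) :
    c • p = Polynomial.C (MvPolynomial.C c) * p := by
  rw [Algebra.smul_def]
  rfl

theorem natC (n : ℕ) : (Polynomial.C (MvPolynomial.C ((n : ℂ) + 1)) : Polynomial R0) =
    (n : Polynomial R0) + 1 := by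
  rw [map_add, map_add, map_natCast, map_natCast, map_one, map_one]

theorem intC (σ : ℤ) : (Polynomial.C (MvPolynomial.C (σ : ℂ)) : Polynomial R0) =
    (σ : Polynomial R0) := by
  rw [map_intCast, map_intCast]

theorem recA (ρ : ℤ) (n : ℕ) : ((n : Polynomial R0) + 1) * Polynomial.C (P ρ (n + 1)) =
    ∑ i ∈ range (n + 1), ((ρ : Polynomial R0) * Polynomial.C (MvPolynomial.X i : R0)) *
      Polynomial.C (P ρ (n - i)) := by
  have h := congrArg (Polynomial.C : R0 → Polynomial R0) (P_rec ρ n)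
  rw [MvPolynomial.smul_eq_C_mul, MvPolynomial.smul_eq_C_mul, Polynomial.C_mul, Polynomial.C_mul,
    natC, intC, map_sum, Finset.mul_sum] at h
  rw [h]
  refine Finset.sum_congr rfl fun i _ => ?_
  rw [Polynomial.C_mul, mul_assoc]

theorem recT (σ ρ : ℤ) (n : ℕ) : ((n : Polynomial R0) + 1) * tau σ (P ρ (n + 1)) =
    ∑ i ∈ range (n + 1), ((ρ : Polynomial R0) * (Polynomial.C (MvPolynomial.X i : R0) -
      2 * (σ : Polynomial R0) * Polynomial.X ^ (i + 1))) * tau σ (P ρ (n - i)) := by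
  have h := congrArg (tau σ) (P_rec ρ n)
  rw [map_smul, map_smul, smul_eq, smul_eq, natC, intC, map_sum, Finset.mul_sum] at h
  rw [h]
  refine Finset.sum_congr rfl fun i _ => ?_
  have e : (2 * (σ : ℂ)) • (Polynomial.X : Polynomial R0) ^ (i + 1) =
      2 * (σ : Polynomial R0) * Polynomial.X ^ (i + 1) := by
    rw [smul_eq, map_mul, map_mul, intC]
    congr 2
  rw [map_mul, tau_X, e]
  exact (mul_assoc _ _ _).symm

theorem hC0 (ρ : ℤ) : (Polynomial.C (P ρ 0) : Polynomial R0) = 1 := by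
  rw [P_zero, Polynomial.C_1]

theorem hT0 (σ ρ : ℤ) : tau σ (P ρ 0) = 1 := by
  rw [P_zero, map_one]

theorem hsq (σ : ℤ) (hσ : σ = 1 ∨ σ = -1) : (σ : Polynomial R0) * (σ : Polynomial R0) = 1 := by
  have h : σ * σ = 1 := by
    rcases hσ with rfl | rfl <;> norm_num
  rw [← Int.cast_mul, h, Int.cast_one]

theorem main : S_TAUP := by
  intro σ hσ a
  constructor
  · obtain ⟨r0, r1, r2⟩ := rec1 (Polynomial.X : Polynomial R0) (σ : Polynomial R0) (hsq σ hσ)
      (fun i => Polynomial.C (MvPolynomial.X i : R0)) (fun n => Polynomial.C (P σ n))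
      (fun n => tau σ (P σ n)) (hC0 σ) (hT0 σ σ) (recA σ) (recT σ σ)
    match a with
    | 0 =>
      have h1 : PZ σ (((0 : ℕ) : ℤ) - 1) = 0 := by rw [PZ, if_neg (by norm_num)]
      have h2 : PZ σ (((0 : ℕ) : ℤ) - 2) = 0 := by rw [PZ, if_neg (by norm_num)]
      rw [h1, h2, Polynomial.C_0, mul_zero, mul_zero, mul_zero, sub_zero, add_zero]
      exact r0
    | 1 =>
      have h1 : PZ σ (((1 : ℕ) : ℤ) - 1) = P σ 0 := by
        rw [PZ, if_pos (by norm_num)]
        rfl
      have h2 : PZ σ (((1 : ℕ) : ℤ) - 2) = 0 := by rw [PZ, if_neg (by norm_num)]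
      rw [h1, h2, Polynomial.C_0, mul_zero, add_zero]
      exact r1
    | a + 2 =>
      have h1 : PZ σ (((a + 2 : ℕ) : ℤ) - 1) = P σ (a + 1) := by
        have e : ((a + 2 : ℕ) : ℤ) - 1 = ((a + 1 : ℕ) : ℤ) := by push_cast; ring
        rw [e, PZ, if_pos (by positivity), Int.toNat_natCast]
      have h2 : PZ σ (((a + 2 : ℕ) : ℤ) - 2) = P σ a := by
        have e : ((a + 2 : ℕ) : ℤ) - 2 = (a : ℤ) := by push_cast; ring
        rw [e, PZ, if_pos (by positivity), Int.toNat_natCast]
      rw [h1, h2]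
      exact r2 a
  · have hA : ∀ n : ℕ, ((n : Polynomial R0) + 1) * Polynomial.C (P (-σ) (n + 1)) =
        ∑ i ∈ range (n + 1), (-(σ : Polynomial R0) * Polynomial.C (MvPolynomial.X i : R0)) *
          Polynomial.C (P (-σ) (n - i)) := by
      intro n
      have h := recA (-σ) n
      rw [Int.cast_neg] at h
      exact h
    have hT : ∀ n : ℕ, ((n : Polynomial R0) + 1) * tau σ (P (-σ) (n + 1)) =
        ∑ i ∈ range (n + 1), (-(σ : Polynomial R0) * (Polynomial.C (MvPolynomial.X i : R0) -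
          2 * (σ : Polynomial R0) * Polynomial.X ^ (i + 1))) * tau σ (P (-σ) (n - i)) := by
      intro n
      have h := recT σ (-σ) n
      rw [Int.cast_neg] at h
      exact h
    exact rec2 (Polynomial.X : Polynomial R0) (σ : Polynomial R0) (hsq σ hσ)
      (fun i => Polynomial.C (MvPolynomial.X i : R0)) (fun n => Polynomial.C (P (-σ) n))
      (fun n => tau σ (P (-σ) n)) (hC0 (-σ)) (hT0 σ (-σ)) hA hT a

end Pool.Agent.W782.VATaup
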